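import Pool.Agent.Work.MP_298761_T3.Base

/-! T3 (MP_298761_ag), block BAS: a basis adapted to a nondegenerate rational subspace. -/

namespace Pool.Agent.Work.T3

open Matrix

namespace BAS

set_option linter.unusedSectionVars false

variable {ι : Type} [Fintype ι]

theorem dot_symm {K : Type} [CommRing K] {C : Matrix ι ι K} (hC : Cᵀ = C) (x y : ι → K) :
    x ⬝ᵥ C *ᵥ y = y ⬝ᵥ C *ᵥ x := by
  rw [dotProduct_mulVec, ← mulVec_transpose, hC, dotProduct_comm]

theorem dot_sum_left {K κ : Type} [CommRing K] [Fintype κ] (C : Matrix ι ι K) (c : κ → K)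
    (v : κ → ι → K) (y : ι → K) :
    (∑ f, c f • v f) ⬝ᵥ C *ᵥ y = ∑ f, c f * (v f ⬝ᵥ C *ᵥ y) := by
  rw [sum_dotProduct]
  exact Finset.sum_congr rfl fun f _ => by rw [smul_dotProduct, smul_eq_mul]

theorem dot_sum_right {K κ : Type} [CommRing K] [Fintype κ] (C : Matrix ι ι K) (c : κ → K)
    (v : κ → ι → K) (x : ι → K) :
    x ⬝ᵥ C *ᵥ (∑ f, c f • v f) = ∑ f, c f * (x ⬝ᵥ C *ᵥ v f) := by
  rw [mulVec_sum, dotProduct_sum]
  exact Finset.sum_congr rfl fun f _ => by rw [mulVec_smul, dotProduct_smul, smul_eq_mul]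

/-- orthonormal basis of a nondegenerate subspace -/
theorem exists_onb {C : Matrix ι ι ℂ} (hC : Cᵀ = C) (T : Submodule ℂ (ι → ℂ))
    (hT : ∀ x ∈ T, (∀ y ∈ T, x ⬝ᵥ C *ᵥ y = 0) → x = 0) :
    ∃ (m : ℕ) (e : Fin m → ι → ℂ), (∀ a, e a ∈ T) ∧
      (∀ a b, e a ⬝ᵥ C *ᵥ e b = if a = b then 1 else 0) ∧
      (∀ x ∈ T, ∃ c : Fin m → ℂ, x = ∑ a, c a • e a) := by
  let b : LinearMap.BilinForm ℂ T := LinearMap.mk₂ ℂ
    (fun x y : T => (x : ι → ℂ) ⬝ᵥ C *ᵥ (y : ι → ℂ))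
    (fun x y z => by rw [Submodule.coe_add, add_dotProduct])
    (fun c x y => by rw [Submodule.coe_smul, smul_dotProduct])
    (fun x y z => by rw [Submodule.coe_add, mulVec_add, dotProduct_add])
    (fun c x y => by rw [Submodule.coe_smul, mulVec_smul, dotProduct_smul])
  have hb : ∀ x y : T, b x y = (x : ι → ℂ) ⬝ᵥ C *ᵥ (y : ι → ℂ) := fun x y => rfl
  have hs : LinearMap.IsSymm b := ⟨fun x y => by
    show b x y = b y x
    rw [hb, hb, dot_symm hC]⟩
  have : Invertible (2 : ℂ) := invertibleOfNonzero two_ne_zero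
  obtain ⟨v, hv⟩ := LinearMap.BilinForm.exists_orthogonal_basis hs
  have hv' : ∀ i j, i ≠ j → (v i : ι → ℂ) ⬝ᵥ C *ᵥ (v j : ι → ℂ) = 0 := fun i j hij => hv hij
  have hexp : ∀ x ∈ T, ∃ c : Fin (Module.finrank ℂ T) → ℂ, x = ∑ a, c a • (v a : ι → ℂ) := by
    intro x hx
    refine ⟨fun a => v.repr ⟨x, hx⟩ a, ?_⟩
    have h1 := v.sum_repr ⟨x, hx⟩
    have h2 := congrArg (fun z : T => (z : ι → ℂ)) h1
    simp only [Submodule.coe_sum, Submodule.coe_smul] at h2
    exact h2.symm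
  have hne : ∀ i, (v i : ι → ℂ) ⬝ᵥ C *ᵥ (v i : ι → ℂ) ≠ 0 := by
    intro i h0
    have h1 : (v i : ι → ℂ) = 0 := by
      apply hT _ (v i).2
      intro y hy
      obtain ⟨c, rfl⟩ := hexp y hy
      rw [dot_sum_right]
      apply Finset.sum_eq_zero
      intro j _
      by_cases hij : i = j
      · subst hij; rw [h0, mul_zero]
      · rw [hv' i j hij, mul_zero]
    exact v.ne_zero i (Subtype.ext h1)
  choose s hs2 using fun i => IsAlgClosed.exists_pow_nat_eq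
    ((v i : ι → ℂ) ⬝ᵥ C *ᵥ (v i : ι → ℂ)) (n := 2) two_pos
  have hs0 : ∀ i, s i ≠ 0 := by
    intro i h0
    apply hne i
    rw [← hs2 i, h0]; simp
  refine ⟨_, fun a => (s a)⁻¹ • (v a : ι → ℂ), fun a => T.smul_mem _ (v a).2, ?_, ?_⟩
  · intro a b'
    rw [mulVec_smul, dotProduct_smul, smul_dotProduct, smul_eq_mul, smul_eq_mul]
    by_cases hab : a = b'
    · subst hab
      rw [if_pos rfl, ← hs2 a]
      have := hs0 a
      field_simp
    · rw [if_neg hab, hv' a b' hab]; ring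
  · intro x hx
    obtain ⟨c, hc⟩ := hexp x hx
    refine ⟨fun a => c a * s a, ?_⟩
    rw [hc]
    refine Finset.sum_congr rfl fun a _ => ?_
    rw [smul_smul, mul_assoc, mul_inv_cancel₀ (hs0 a), mul_one]

theorem mC_eq {κ κ' : Type} (B : Matrix κ κ' ℚ) : mC B = B.map (Rat.castHom ℂ) := rfl

theorem mC_mul {κ κ' κ'' : Type} [Fintype κ'] (A : Matrix κ κ' ℚ) (B : Matrix κ' κ'' ℚ) :
    mC (A * B) = mC A * mC B := by
  simp only [mC_eq, Matrix.map_mul]

theorem mC_one {κ : Type} [DecidableEq κ] : mC (1 : Matrix κ κ ℚ) = 1 := by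
  rw [mC_eq, Matrix.map_one _ (map_zero _) (map_one _)]

theorem dot_vC (v w : ι → ℚ) (B : Matrix ι ι ℚ) :
    vC v ⬝ᵥ mC B *ᵥ vC w = ((v ⬝ᵥ B *ᵥ w : ℚ) : ℂ) := by
  simp only [dotProduct, mulVec, vC, mC, Matrix.map_apply]
  push_cast
  rfl

theorem vC_sum {κ : Type} [Fintype κ] (c : κ → ℚ) (v : κ → ι → ℚ) :
    vC (∑ f, c f • v f) = ∑ f, (c f : ℂ) • vC (v f) := by
  funext i
  simp only [vC, Finset.sum_apply, Pi.smul_apply, smul_eq_mul]
  push_cast
  rfl

end BAS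

theorem stmt_BAS : Stmt_BAS := by
  intro ι _ _ B hB hdet N hN
  set C := mC B with hCdef
  have hC : Cᵀ = C := by
    rw [hCdef, BAS.mC_eq, ← Matrix.transpose_map, hB]
  -- basis of `N`
  set r := Module.finrank ℚ N with hr
  let bN := Module.finBasis ℚ N
  let v : Fin r → ι → ℚ := fun f => (bN f : ι → ℚ)
  have hvN : ∀ f, v f ∈ N := fun f => (bN f).2
  have hexp : ∀ w ∈ N, ∃ c : Fin r → ℚ, w = ∑ f, c f • v f := by
    intro x hx
    refine ⟨fun a => bN.repr ⟨x, hx⟩ a, ?_⟩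
    have h1 := bN.sum_repr ⟨x, hx⟩
    have h2 := congrArg (fun z : N => (z : ι → ℚ)) h1
    simp only [Submodule.coe_sum, Submodule.coe_smul] at h2
    exact h2.symm
  let Gq : Matrix (Fin r) (Fin r) ℚ := Matrix.of fun f f' => v f ⬝ᵥ B *ᵥ v f'
  have hGdet : Gq.det ≠ 0 := by
    intro h0
    obtain ⟨c, hc0, hc⟩ := Matrix.exists_mulVec_eq_zero_iff.2 h0
    have h1 : ∀ f, v f ⬝ᵥ B *ᵥ (∑ f', c f' • v f') = 0 := by
      intro f
      rw [BAS.dot_sum_right]
      have h2 := congrFun hc f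
      simp only [mulVec, dotProduct, Pi.zero_apply] at h2
      rw [← h2]
      refine Finset.sum_congr rfl fun f' _ => ?_
      show c f' * (v f ⬝ᵥ B *ᵥ v f') = (v f ⬝ᵥ B *ᵥ v f') * c f'
      ring
    have h3 : (∑ f', c f' • v f') = 0 := by
      apply hN
      · exact N.sum_mem fun f _ => N.smul_mem _ (hvN f)
      · intro w hw
        obtain ⟨d, rfl⟩ := hexp w hw
        rw [BAS.dot_symm hB, BAS.dot_sum_left]
        exact Finset.sum_eq_zero fun f _ => by rw [h1 f, mul_zero]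
    have h4 : ∑ f', c f' • bN f' = 0 := by
      apply Subtype.ext
      simp only [Submodule.coe_sum, Submodule.coe_smul, Submodule.coe_zero]
      exact h3
    have h5 := Fintype.linearIndependent_iff.1 bN.linearIndependent c h4
    exact hc0 (funext h5)
  have hGu : IsUnit Gq.det := isUnit_iff_ne_zero.2 hGdet
  set G : Matrix (Fin r) (Fin r) ℂ := mC Gq⁻¹ with hG
  have hGG : mC Gq * G = 1 := by
    rw [hG, ← BAS.mC_mul, Matrix.mul_nonsing_inv _ hGu, BAS.mC_one]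
  have hGG' : G * mC Gq = 1 := by
    rw [hG, ← BAS.mC_mul, Matrix.nonsing_inv_mul _ hGu, BAS.mC_one]
  -- the complement
  let T : Submodule ℂ (ι → ℂ) :=
    { carrier := {x | ∀ w ∈ N, vC w ⬝ᵥ C *ᵥ x = 0}
      zero_mem' := by
        intro w _; rw [mulVec_zero, dotProduct_zero]
      add_mem' := by
        intro x y hx hy w hw
        rw [mulVec_add, dotProduct_add, hx w hw, hy w hw, add_zero]
      smul_mem' := by
        intro c x hx w hw
        rw [mulVec_smul, dotProduct_smul, hx w hw, smul_zero] }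
  have hTmem : ∀ x, x ∈ T ↔ ∀ w ∈ N, vC w ⬝ᵥ C *ᵥ x = 0 := fun x => Iff.rfl
  have hTv : ∀ x, (∀ f, vC (v f) ⬝ᵥ C *ᵥ x = 0) → x ∈ T := by
    intro x hx w hw
    obtain ⟨d, rfl⟩ := hexp w hw
    rw [BAS.vC_sum, BAS.dot_sum_left]
    exact Finset.sum_eq_zero fun f _ => by rw [hx f, mul_zero]
  have hdec : ∀ y : ι → ℂ, ∃ d : Fin r → ℂ, y - ∑ f, d f • vC (v f) ∈ T := by
    intro y
    refine ⟨G *ᵥ (fun f => vC (v f) ⬝ᵥ C *ᵥ y), ?_⟩
    apply hTv
    intro f
    rw [mulVec_sub, dotProduct_sub, BAS.dot_sum_right, sub_eq_zero]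
    have h1 : (mC Gq *ᵥ (G *ᵥ (fun f => vC (v f) ⬝ᵥ C *ᵥ y))) f = vC (v f) ⬝ᵥ C *ᵥ y := by
      rw [mulVec_mulVec, hGG, one_mulVec]
    rw [← h1]
    simp only [mulVec, dotProduct]
    refine Finset.sum_congr rfl fun f' _ => ?_
    have h2 : mC Gq f f' = vC (v f) ⬝ᵥ C *ᵥ vC (v f') := by
      rw [hCdef, BAS.dot_vC]; rfl
    rw [h2, mul_comm]
    simp only [mulVec, dotProduct]
  have hT : ∀ x ∈ T, (∀ y ∈ T, x ⬝ᵥ C *ᵥ y = 0) → x = 0 := by
    intro x hx hxT
    have h1 : ∀ y, x ⬝ᵥ C *ᵥ y = 0 := by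
      intro y
      obtain ⟨d, hd⟩ := hdec y
      have e : y = (y - ∑ f, d f • vC (v f)) + ∑ f, d f • vC (v f) := by
        rw [sub_add_cancel]
      rw [e, mulVec_add, dotProduct_add, hxT _ hd, zero_add, BAS.dot_sum_right]
      refine Finset.sum_eq_zero fun f _ => ?_
      rw [BAS.dot_symm hC, hx (v f) (hvN f), mul_zero]
    have h2 : C *ᵥ x = 0 := by
      apply dotProduct_eq_zero
      intro w
      rw [dotProduct_comm, BAS.dot_symm hC]
      exact h1 w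
    have h3 : mC B⁻¹ *ᵥ (C *ᵥ x) = x := by
      rw [mulVec_mulVec, hCdef, ← BAS.mC_mul,
        Matrix.nonsing_inv_mul _ (isUnit_iff_ne_zero.2 hdet), BAS.mC_one, one_mulVec]
    rw [← h3, h2, mulVec_zero]
  obtain ⟨m, e, heT, heo, hespan⟩ := BAS.exists_onb hC T hT
  let P : Matrix ι (Fin m ⊕ Fin r) ℂ :=
    Matrix.of fun i k => Sum.elim (fun a => e a i) (fun f => (v f i : ℂ)) k
  have hPl : ∀ a, (fun i => P i (Sum.inl a)) = e a := fun a => rfl
  have hPr : ∀ f, (fun i => P i (Sum.inr f)) = vC (v f) := fun f => rfl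
  have hPCP : ∀ k l, (Pᵀ * C * P) k l = (fun i => P i k) ⬝ᵥ C *ᵥ (fun i => P i l) := by
    intro k l
    rw [Matrix.mul_assoc, Matrix.mul_apply]
    simp only [dotProduct, mulVec, transpose_apply, Matrix.mul_apply]
  have hGram : Pᵀ * C * P = fromBlocks 1 0 0 (mC Gq) := by
    ext k l
    rw [hPCP]
    rcases k with a | f <;> rcases l with b | f'
    · rw [hPl, hPl, heo, fromBlocks_apply₁₁, Matrix.one_apply]
    · rw [hPl, hPr, fromBlocks_apply₁₂, BAS.dot_symm hC]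
      exact heT a (v f') (hvN f')
    · rw [hPl, hPr, fromBlocks_apply₂₁]
      exact heT b (v f) (hvN f)
    · rw [hPr, hPr, fromBlocks_apply₂₂, hCdef, BAS.dot_vC]
      rfl
  let F : Matrix (Fin m ⊕ Fin r) (Fin m ⊕ Fin r) ℂ := fromBlocks 1 0 0 G
  let Q : Matrix (Fin m ⊕ Fin r) ι ℂ := F * Pᵀ * C
  have hQP : Q * P = 1 := by
    show F * Pᵀ * C * P = 1
    have : F * Pᵀ * C * P = F * (Pᵀ * C * P) := by simp only [Matrix.mul_assoc]
    rw [this, hGram]
    show fromBlocks 1 0 0 G * fromBlocks 1 0 0 (mC Gq) = 1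
    rw [fromBlocks_multiply, ← fromBlocks_one]
    simp [hGG']
  have hspan : ∀ y : ι → ℂ, ∃ c, y = P *ᵥ c := by
    intro y
    obtain ⟨d, hd⟩ := hdec y
    obtain ⟨c, hc⟩ := hespan _ hd
    refine ⟨Sum.elim c d, ?_⟩
    have e1 : y = ∑ a, c a • e a + ∑ f, d f • vC (v f) := by
      rw [← hc, sub_add_cancel]
    rw [e1]
    funext i
    simp only [Pi.add_apply, Finset.sum_apply, Pi.smul_apply, smul_eq_mul, mulVec, dotProduct,
      Fintype.sum_sum_type, Sum.elim_inl, Sum.elim_inr]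
    congr 1
    · exact Finset.sum_congr rfl fun a _ => mul_comm _ _
    · exact Finset.sum_congr rfl fun a _ => mul_comm _ _
  have hPQ : P * Q = 1 := by
    have h1 : ∀ y : ι → ℂ, (P * Q) *ᵥ y = y := by
      intro y
      obtain ⟨c, rfl⟩ := hspan y
      rw [← mulVec_mulVec, mulVec_mulVec c Q P, hQP, one_mulVec]
    ext i j
    have h2 := congrFun (h1 (Pi.single j 1)) i
    rw [mulVec_single_one] at h2
    rw [Matrix.one_apply]
    simp only [Matrix.col_apply, Pi.single_apply] at h2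
    exact h2
  refine ⟨m, r, P, Q, G, v, hPQ, hQP, hvN, fun f i => rfl, ?_, ?_, ?_⟩
  · intro a w hw
    exact heT a w hw
  · intro a b
    exact heo a b
  · have h1 : P * F * Pᵀ * C = 1 := by
      have : P * F * Pᵀ * C = P * (F * Pᵀ * C) := by simp only [Matrix.mul_assoc]
      rw [this]; exact hPQ
    have h2 : C * mC B⁻¹ = 1 := by
      rw [hCdef, ← BAS.mC_mul, Matrix.mul_nonsing_inv _ (isUnit_iff_ne_zero.2 hdet), BAS.mC_one]
    calc P * F * Pᵀ = P * F * Pᵀ * (C * mC B⁻¹) := by rw [h2, Matrix.mul_one]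
      _ = (P * F * Pᵀ * C) * mC B⁻¹ := by simp only [Matrix.mul_assoc]
      _ = mC B⁻¹ := by rw [h1, Matrix.one_mul]

end Pool.Agent.Work.T3
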