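import Pool.Agent.Work.MP_298761_T3.Base

/-! T3: block BRK (the bracket of two derivations). -/

namespace Pool.Agent.Work.T3

open Matrix

namespace BRK

theorem sum_split {R : Type} [CommRing R] {n : ℕ} (p : Fin n) (f : Fin n → R) :
    ∑ q, f q = f p + ∑ q, if q = p then 0 else f q := by
  have h : ∀ q, f q = (if q = p then f q else 0) + (if q = p then 0 else f q) := by
    intro q
    split_ifs <;> simp
  conv_lhs => rw [Finset.sum_congr rfl fun q _ => h q]
  rw [Finset.sum_add_distrib]
  simp

/-- the part of the product of two derivations with two different positions -/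
def off {R κ : Type} [CommRing R] [Fintype κ] {n : ℕ} (X Y : Matrix κ κ R) (φ : Tens R κ n)
    (i : Fin n → κ) (p q : Fin n) : R :=
  ∑ k, ∑ l, X (i p) k * (Y (i q) l * φ (Function.update (Function.update i p k) q l))

theorem der_der {R κ : Type} [CommRing R] [Fintype κ] {n : ℕ} (X Y : Matrix κ κ R)
    (φ : Tens R κ n) (i : Fin n → κ) :
    der X (der Y φ) i = der (X * Y) φ i + ∑ p, ∑ q, if q = p then 0 else off X Y φ i p q := by
  simp only [der, Matrix.mul_apply, Finset.sum_mul]
  rw [← Finset.sum_add_distrib]
  refine Finset.sum_congr rfl fun p _ => ?_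
  have h : ∀ k, X (i p) k * ∑ q, ∑ l, Y (Function.update i p k q) l *
        φ (Function.update (Function.update i p k) q l) =
      (∑ l, X (i p) k * Y k l * φ (Function.update i p l)) +
      ∑ q, if q = p then 0 else ∑ l, X (i p) k * (Y (i q) l *
        φ (Function.update (Function.update i p k) q l)) := by
    intro k
    rw [sum_split p, mul_add]
    congr 1
    · rw [Finset.mul_sum]
      refine Finset.sum_congr rfl fun l _ => ?_
      rw [Function.update_self, Function.update_idem, mul_assoc]
    · rw [Finset.mul_sum]
      refine Finset.sum_congr rfl fun q _ => ?_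
      split_ifs with hq
      · simp
      · rw [Finset.mul_sum]
        refine Finset.sum_congr rfl fun l _ => ?_
        rw [Function.update_of_ne hq]
  rw [Finset.sum_congr rfl fun k _ => h k, Finset.sum_add_distrib]
  congr 1
  · rw [Finset.sum_comm]
  · rw [Finset.sum_comm]
    refine Finset.sum_congr rfl fun q _ => ?_
    split_ifs with hq
    · simp
    · rfl

theorem off_symm {R κ : Type} [CommRing R] [Fintype κ] {n : ℕ} (X Y : Matrix κ κ R)
    (φ : Tens R κ n) (i : Fin n → κ) (p q : Fin n) (h : q ≠ p) :
    off X Y φ i p q = off Y X φ i q p := by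
  unfold off
  rw [Finset.sum_comm]
  refine Finset.sum_congr rfl fun l _ => Finset.sum_congr rfl fun k _ => ?_
  rw [Function.update_comm h.symm]
  ring

end BRK

theorem stmt_BRK : Stmt_BRK := by
  intro R κ _ _ n X Y ψ
  funext i
  rw [der_sub_left]
  simp only [Pi.sub_apply]
  rw [BRK.der_der, BRK.der_der]
  have h : (∑ p, ∑ q, if q = p then 0 else BRK.off X Y ψ i p q) =
      ∑ p, ∑ q, if q = p then 0 else BRK.off Y X ψ i p q := by
    rw [Finset.sum_comm]
    refine Finset.sum_congr rfl fun q _ => Finset.sum_congr rfl fun p _ => ?_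
    by_cases hpq : q = p
    · rw [if_pos hpq, if_pos hpq.symm]
    · rw [if_neg hpq, if_neg (Ne.symm hpq), BRK.off_symm _ _ _ _ _ _ hpq]
  rw [h]
  ring

end Pool.Agent.Work.T3
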