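import Pool.Agent.Work.MP_298761_T3.Base

set_option autoImplicit false

/-! DSC: rational tensors which are decomposable over `ℂ` are so over `ℚ` (helper45). -/

namespace Pool.Agent.Work.T3

open Matrix

theorem DSC.aux {κ : Type} [Fintype κ] [DecidableEq κ] (N : Set (κ → ℚ))
    (P : Set (Matrix κ κ ℚ)) {n : ℕ} {ψ : Tens ℂ κ n} (h : Dec (vC '' N) (mC '' P) n ψ) :
    ∀ l : ℂ →ₗ[ℚ] ℚ, Dec N P n (fun i => l (ψ i)) := by
  induction h with
  | one =>
    intro l
    have h1 : (fun _ : Fin 0 → κ => l (1 : ℂ)) = l 1 • (fun _ => (1 : ℚ)) := by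
      funext i; simp
    rw [h1]
    exact Dec.smul _ Dec.one
  | @vec n v hv p ψ _ ih =>
    intro l
    obtain ⟨w, hw, rfl⟩ := hv
    have h1 : (fun i => l (insVec (vC w) p ψ i)) = insVec w p (fun i => l (ψ i)) := by
      funext i
      simp only [insVec, vC]
      have h2 : ((w (i p) : ℚ) : ℂ) * ψ (p.removeNth i) = (w (i p)) • ψ (p.removeNth i) := by
        rw [Algebra.smul_def]; rfl
      rw [h2, map_smul, smul_eq_mul]
    rw [h1]
    exact Dec.vec hw p (ih l)
  | @pair n b hb p q ψ _ ih =>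
    intro l
    obtain ⟨c, hc, rfl⟩ := hb
    have h1 : (fun i => l (insPair (mC c) p q ψ i)) = insPair c p q (fun i => l (ψ i)) := by
      funext i
      simp only [insPair, mC, Matrix.map_apply]
      have h2 : ((c (i p) (p.removeNth i q) : ℚ) : ℂ) * ψ (q.removeNth (p.removeNth i)) =
          (c (i p) (p.removeNth i q)) • ψ (q.removeNth (p.removeNth i)) := by
        rw [Algebra.smul_def]; rfl
      rw [h2, map_smul, smul_eq_mul]
    rw [h1]
    exact Dec.pair hc p q (ih l)
  | zero n =>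
    intro l
    have h1 : (fun i => l ((0 : Tens ℂ κ n) i)) = 0 := by
      funext i; simp
    rw [h1]
    exact Dec.zero n
  | @add n φ ψ _ _ ih1 ih2 =>
    intro l
    have h1 : (fun i => l ((φ + ψ) i)) = (fun i => l (φ i)) + (fun i => l (ψ i)) := by
      funext i; simp
    rw [h1]
    exact Dec.add (ih1 l) (ih2 l)
  | @smul n c ψ _ ih =>
    intro l
    exact ih (l.comp (LinearMap.mulLeft ℚ c))

theorem stmt_DSC : Stmt_DSC := by
  intro κ _ _ N P n φ h
  obtain ⟨l, hl⟩ := LinearMap.exists_leftInverse_of_injective (Algebra.linearMap ℚ ℂ)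
    (LinearMap.ker_eq_bot.2 (algebraMap ℚ ℂ).injective)
  have h1 := DSC.aux N P h l
  have h2 : (fun i => l (tC φ i)) = φ := by
    funext i
    exact DFunLike.congr_fun hl (φ i)
  rw [h2] at h1
  exact h1

end Pool.Agent.Work.T3
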