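import Pool.Agent.Work.MP_298761_T3.Base

/-! T3: block FF1 (helper92): the traceless invariants vanish. -/

namespace Pool.Agent.Work.T3

open Matrix

namespace FF1

section
variable {g : ℕ}

/-- the sign of a basis vector of the symplectic part -/
def sg : Fin g ⊕ Fin g → ℝ := Sum.elim (fun _ => 1) (fun _ => -1)

theorem sg_sq (a : Fin g ⊕ Fin g) : sg a * sg a = 1 := by
  rcases a with a | a <;> simp [sg]

theorem sg_swap (a : Fin g ⊕ Fin g) : sg (Sum.swap a) = - sg a := by
  rcases a with a | a <;> simp [sg]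

theorem J_apply (x y : Fin g ⊕ Fin g) :
    Matrix.J (Fin g) ℝ x y = if y = Sum.swap x then - sg x else 0 := by
  rcases x with x | x <;> rcases y with y | y <;>
    simp [Matrix.J, sg, Matrix.one_apply, eq_comm]
  split_ifs <;> simp

theorem inSp (a b : Fin g ⊕ Fin g) :
    (Matrix.single a b (1 : ℝ) -
        (sg a * sg b) • Matrix.single (Sum.swap b) (Sum.swap a) (1 : ℝ))ᵀ * Matrix.J (Fin g) ℝ +
      Matrix.J (Fin g) ℝ * (Matrix.single a b (1 : ℝ) -
        (sg a * sg b) • Matrix.single (Sum.swap b) (Sum.swap a) (1 : ℝ)) = 0 := by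
  ext x y
  rw [Matrix.add_apply, Matrix.mul_apply, Matrix.mul_apply, Matrix.zero_apply]
  rw [Finset.sum_eq_single (Sum.swap y), Finset.sum_eq_single (Sum.swap x)]
  · rw [J_apply, J_apply, if_pos rfl, if_pos (Sum.swap_swap y).symm, Matrix.transpose_apply]
    simp only [Matrix.sub_apply, Matrix.smul_apply, Matrix.single_apply, smul_eq_mul, sg_swap]
    have e1 : (a = Sum.swap y ∧ b = x) ↔ (y = Sum.swap a ∧ x = b) := by
      constructor
      · rintro ⟨h, h'⟩; exact ⟨by rw [h, Sum.swap_swap], h'.symm⟩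
      · rintro ⟨h, h'⟩; exact ⟨by rw [h, Sum.swap_swap], h'.symm⟩
    have e2 : (Sum.swap b = Sum.swap y ∧ Sum.swap a = x) ↔ (x = Sum.swap a ∧ y = b) := by
      constructor
      · rintro ⟨h, h'⟩
        exact ⟨h'.symm, by rw [← Sum.swap_swap y, ← h, Sum.swap_swap]⟩
      · rintro ⟨h, h'⟩; exact ⟨by rw [h'], h.symm⟩
    have e3 : (a = Sum.swap x ∧ b = y) ↔ (x = Sum.swap a ∧ y = b) := by
      constructor
      · rintro ⟨h, h'⟩; exact ⟨by rw [h, Sum.swap_swap], h'.symm⟩
      · rintro ⟨h, h'⟩; exact ⟨by rw [h, Sum.swap_swap], h'.symm⟩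
    have e4 : (Sum.swap b = Sum.swap x ∧ Sum.swap a = y) ↔ (y = Sum.swap a ∧ x = b) := by
      constructor
      · rintro ⟨h, h'⟩
        exact ⟨h'.symm, by rw [← Sum.swap_swap x, ← h, Sum.swap_swap]⟩
      · rintro ⟨h, h'⟩; exact ⟨by rw [h'], h.symm⟩
    rw [if_congr e1 rfl rfl, if_congr e2 rfl rfl, if_congr e3 rfl rfl, if_congr e4 rfl rfl]
    by_cases h1 : y = Sum.swap a ∧ x = b
    · by_cases h2 : x = Sum.swap a ∧ y = b
      · rw [if_pos h1, if_pos h2, h1.2, h1.1, sg_swap]
        have : b = Sum.swap a := h1.2 ▸ h2.1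
        rw [this, sg_swap]
        have := sg_sq a
        linear_combination 0 * this
      · rw [if_pos h1, if_neg h2, h1.2, h1.1, sg_swap]
        have := sg_sq b
        linear_combination (sg a) * this
    · by_cases h2 : x = Sum.swap a ∧ y = b
      · rw [if_neg h1, if_pos h2, h2.2, h2.1, sg_swap]
        have := sg_sq b
        linear_combination (- sg a) * this
      · rw [if_neg h1, if_neg h2]
        ring
  · intro k _ hk
    rw [J_apply, if_neg hk, zero_mul]
  · intro h; exact absurd (Finset.mem_univ _) h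
  · intro k _ hk
    rw [J_apply, if_neg, mul_zero]
    intro h
    exact hk (by rw [h, Sum.swap_swap])
  · intro h; exact absurd (Finset.mem_univ _) h

end

section
variable {A F : Type} [Fintype A] [Fintype F] [DecidableEq A] [DecidableEq F] {g n : ℕ}

omit [Fintype A] [Fintype F] in
theorem fromBlocks_single (a b : Fin g ⊕ Fin g) (c : ℝ) :
    (fromBlocks 0 0 0 (Matrix.single a b c) :
      Matrix (Idx (A ⊕ F) g) (Idx (A ⊕ F) g) ℝ) = Matrix.single (Sum.inr a) (Sum.inr b) c := by
  ext x y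
  rcases x with x | x <;> rcases y with y | y <;> simp [Matrix.single_apply]

theorem h1_sp (φ : Tens ℝ (Idx (A ⊕ F) g) n)
    (hSp : ∀ X : Matrix (Fin g ⊕ Fin g) (Fin g ⊕ Fin g) ℝ,
      Xᵀ * Matrix.J (Fin g) ℝ + Matrix.J (Fin g) ℝ * X = 0 →
      der (fromBlocks 0 0 0 X) φ = 0) (a b : Fin g ⊕ Fin g) :
    der (Matrix.single (Sum.inr a) (Sum.inr b) (1 : ℝ)) φ = (sg a * sg b) •
      der (Matrix.single (Sum.inr (Sum.swap b)) (Sum.inr (Sum.swap a)) (1 : ℝ)) φ := by
  have h := hSp _ (inSp a b)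
  have e : (fromBlocks 0 0 0 (Matrix.single a b (1 : ℝ) -
      (sg a * sg b) • Matrix.single (Sum.swap b) (Sum.swap a) (1 : ℝ)) :
      Matrix (Idx (A ⊕ F) g) (Idx (A ⊕ F) g) ℝ) =
      Matrix.single (Sum.inr a) (Sum.inr b) (1 : ℝ) - (sg a * sg b) •
        Matrix.single (Sum.inr (Sum.swap b)) (Sum.inr (Sum.swap a)) (1 : ℝ) := by
    rw [← fromBlocks_single a b 1, ← fromBlocks_single (Sum.swap b) (Sum.swap a) 1,
      Matrix.fromBlocks_smul]
    ext x y
    rcases x with x | x <;> rcases y with y | y <;> simp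
  rw [e, der_sub_left, der_smul_left, sub_eq_zero] at h
  exact h

theorem symp_zero (hPOS : Stmt_POS) (φ : Tens ℝ (Idx (A ⊕ F) g) n)
    (hSp : ∀ X : Matrix (Fin g ⊕ Fin g) (Fin g ⊕ Fin g) ℝ,
      Xᵀ * Matrix.J (Fin g) ℝ + Matrix.J (Fin g) ℝ * X = 0 →
      der (fromBlocks 0 0 0 X) φ = 0)
    (hJ : ∀ p q : Fin n, p ≠ q → ∀ i : Fin n → Idx (A ⊕ F) g,
      ∑ c : Fin g, (φ (Function.update (Function.update i p (Sum.inr (Sum.inl c))) q
          (Sum.inr (Sum.inr c))) -
        φ (Function.update (Function.update i p (Sum.inr (Sum.inr c))) q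
          (Sum.inr (Sum.inl c)))) = 0)
    (i : Fin n → Idx (A ⊕ F) g) (p : Fin n) (y : Fin g ⊕ Fin g) (hy : i p = Sum.inr y) :
    φ i = 0 := by
  have hinj : Function.Injective (Sum.inr : Fin g ⊕ Fin g → Idx (A ⊕ F) g) := Sum.inr_injective
  obtain ⟨D, hD⟩ : ∃ D : Finset (Idx (A ⊕ F) g), D = Finset.univ.image Sum.inr := ⟨_, rfl⟩
  have hmem : ∀ x : Fin g ⊕ Fin g, (Sum.inr x : Idx (A ⊕ F) g) ∈ D := by
    intro x; rw [hD]; exact Finset.mem_image_of_mem _ (Finset.mem_univ _)
  have hmem' : ∀ a ∈ D, ∃ x : Fin g ⊕ Fin g, a = Sum.inr x := by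
    intro a ha
    rw [hD, Finset.mem_image] at ha
    obtain ⟨x, _, hx⟩ := ha
    exact ⟨x, hx.symm⟩
  have key := hPOS (Idx (A ⊕ F) g) n φ D (Sum.map id Sum.swap) (Sum.elim (fun _ => 1) sg) (-1)
    (by
      intro a ha
      obtain ⟨x, rfl⟩ := hmem' a ha
      exact hmem _)
    (by
      intro a
      rcases a with a | a
      · rfl
      · simp)
    (by
      intro a
      rcases a with a | a
      · simp
      · exact sg_sq a)
    (by
      intro a ha
      obtain ⟨x, rfl⟩ := hmem' a ha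
      show sg (Sum.swap x) * sg x = -1
      rw [sg_swap]
      linear_combination (-1 : ℝ) * sg_sq x)
    (by
      intro a ha b hb
      obtain ⟨x, rfl⟩ := hmem' a ha
      obtain ⟨y, rfl⟩ := hmem' b hb
      exact h1_sp φ hSp x y)
    (by
      intro p q hpq i
      rw [hD, Finset.sum_image (fun _ _ _ _ h => hinj h), Fintype.sum_sum_type,
        ← Finset.sum_add_distrib, ← hJ p q hpq i]
      apply Finset.sum_congr rfl
      intro c _
      simp only [Sum.map_inr, Sum.elim_inr, Sum.swap_inl, Sum.swap_inr, sg, Sum.elim_inl]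
      ring)
  have hnn : 0 ≤ ∑ a ∈ D, ∑ b ∈ D, ∑ i : Fin n → Idx (A ⊕ F) g,
      (der (Matrix.single a b (1 : ℝ)) φ i) ^ 2 :=
    Finset.sum_nonneg fun _ _ => Finset.sum_nonneg fun _ _ => Finset.sum_nonneg fun _ _ =>
      sq_nonneg _
  have hle : ((Finset.univ.filter (fun p => i p ∈ D)).card : ℝ) * (φ i) ^ 2 ≤
      ∑ i : Fin n → Idx (A ⊕ F) g, ((Finset.univ.filter (fun p => i p ∈ D)).card : ℝ) *
        (φ i) ^ 2 :=
    Finset.single_le_sum (f := fun i : Fin n → Idx (A ⊕ F) g =>
      ((Finset.univ.filter (fun p => i p ∈ D)).card : ℝ) * (φ i) ^ 2)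
      (fun j _ => by positivity) (Finset.mem_univ i)
  have hc : 1 ≤ (Finset.univ.filter (fun p => i p ∈ D)).card := by
    rw [Nat.one_le_iff_ne_zero, ← Nat.pos_iff_ne_zero, Finset.card_pos]
    exact ⟨p, by simp [hy, hmem]⟩
  have hc' : (1 : ℝ) ≤ (Finset.univ.filter (fun p => i p ∈ D)).card := by exact_mod_cast hc
  have h0 : (φ i) ^ 2 ≤ 0 := by
    have h2 : 0 ≤ (φ i) ^ 2 := sq_nonneg _
    nlinarith
  exact pow_eq_zero_iff (two_ne_zero) |>.1 (le_antisymm h0 (sq_nonneg _))

end

end FF1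

theorem stmt_FF1 (hPOS : Stmt_POS) : Stmt_FF1 := by
  intro A F _ _ _ _ g n φ hInv hn hF hA hJ
  obtain ⟨hO, hSp, hR⟩ := hInv
  obtain ⟨ev, hev⟩ : ∃ ev : A → Idx (A ⊕ F) g, ev = fun a => Sum.inl (Sum.inl a) := ⟨_, rfl⟩
  have hinj : Function.Injective ev := by
    intro a b h
    rw [hev] at h
    simpa using h
  obtain ⟨D, hD⟩ : ∃ D : Finset (Idx (A ⊕ F) g), D = Finset.univ.image ev := ⟨_, rfl⟩
  have hmem : ∀ x : A, ev x ∈ D := by
    intro x; rw [hD]; exact Finset.mem_image_of_mem _ (Finset.mem_univ _)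
  have hmem' : ∀ a ∈ D, ∃ x : A, a = ev x := by
    intro a ha
    rw [hD, Finset.mem_image] at ha
    obtain ⟨x, _, hx⟩ := ha
    exact ⟨x, hx.symm⟩
  have key := hPOS (Idx (A ⊕ F) g) n φ D id (fun _ => 1) 1 (fun a ha => ha) (fun _ => rfl)
    (fun _ => one_mul 1) (fun _ _ => one_mul 1)
    (by
      intro a ha b hb
      obtain ⟨x, rfl⟩ := hmem' a ha
      obtain ⟨y, rfl⟩ := hmem' b hb
      have h := hO x y
      rw [der_sub_left, sub_eq_zero] at h
      rw [hev, one_mul, one_smul]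
      exact h)
    (by
      intro p q hpq i
      rw [hD, Finset.sum_image (fun _ _ _ _ h => hinj h), ← hA p q hpq i]
      apply Finset.sum_congr rfl
      intro c _
      rw [one_mul, hev]
      rfl)
  -- the diagonal terms
  have hdiag : ∀ a ∈ D, ∀ i : Fin n → Idx (A ⊕ F) g, der (Matrix.single a a (1 : ℝ)) φ i =
      ((Finset.univ.filter (fun p => i p = a)).card : ℝ) * φ i := by
    intro a _ i
    rw [der_single, Finset.card_filter, Nat.cast_sum, Finset.sum_mul]
    apply Finset.sum_congr rfl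
    intro p _
    by_cases h : i p = a
    · rw [if_pos h, if_pos h, ← h, Function.update_eq_self]; simp
    · rw [if_neg h, if_neg h]; simp
  have hcard : ∀ i : Fin n → Idx (A ⊕ F) g,
      ((Finset.univ.filter (fun p => i p ∈ D)).card : ℝ) =
      ∑ a ∈ D, ((Finset.univ.filter (fun p => i p = a)).card : ℝ) := by
    intro i
    rw [← Nat.cast_sum]
    congr 1
    rw [Finset.card_eq_sum_card_fiberwise (f := i) (t := D) (fun p hp => by
      simpa using hp)]
    apply Finset.sum_congr rfl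
    intro a ha
    congr 1
    ext p
    simp only [Finset.mem_filter, Finset.mem_univ, true_and]
    constructor
    · rintro ⟨_, h⟩; exact h
    · intro h; exact ⟨h ▸ ha, h⟩
  -- sum of all nonnegative terms is zero
  have hsum : ∑ a ∈ D, ∑ b ∈ D, ∑ i : Fin n → Idx (A ⊕ F) g,
      ((der (Matrix.single a b (1 : ℝ)) φ i) ^ 2 - if a = b then
        ((Finset.univ.filter (fun p => i p = a)).card : ℝ) * (φ i) ^ 2 else 0) = 0 := by
    have e1 : ∑ a ∈ D, ∑ b ∈ D, ∑ i : Fin n → Idx (A ⊕ F) g,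
        ((der (Matrix.single a b (1 : ℝ)) φ i) ^ 2 - if a = b then
          ((Finset.univ.filter (fun p => i p = a)).card : ℝ) * (φ i) ^ 2 else 0) =
        ∑ a ∈ D, ∑ b ∈ D, ∑ i : Fin n → Idx (A ⊕ F) g,
          (der (Matrix.single a b (1 : ℝ)) φ i) ^ 2 -
        ∑ a ∈ D, ∑ b ∈ D, ∑ i : Fin n → Idx (A ⊕ F) g, (if a = b then
          ((Finset.univ.filter (fun p => i p = a)).card : ℝ) * (φ i) ^ 2 else 0) := by
      simp only [Finset.sum_sub_distrib]
    have e2 : ∑ a ∈ D, ∑ b ∈ D, ∑ i : Fin n → Idx (A ⊕ F) g, (if a = b then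
          ((Finset.univ.filter (fun p => i p = a)).card : ℝ) * (φ i) ^ 2 else 0) =
        ∑ i : Fin n → Idx (A ⊕ F) g, ((Finset.univ.filter (fun p => i p ∈ D)).card : ℝ) *
        (φ i) ^ 2 := by
      have : ∀ a ∈ D, ∑ b ∈ D, ∑ i : Fin n → Idx (A ⊕ F) g, (if a = b then
          ((Finset.univ.filter (fun p => i p = a)).card : ℝ) * (φ i) ^ 2 else 0) =
          ∑ i : Fin n → Idx (A ⊕ F) g,
            ((Finset.univ.filter (fun p => i p = a)).card : ℝ) * (φ i) ^ 2 := by
        intro a ha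
        rw [Finset.sum_eq_single_of_mem a ha]
        · simp
        · intro b _ hb
          apply Finset.sum_eq_zero
          intro i _
          rw [if_neg (Ne.symm hb)]
      rw [Finset.sum_congr rfl this, Finset.sum_comm]
      apply Finset.sum_congr rfl
      intro i _
      rw [hcard i, Finset.sum_mul]
    rw [e1, e2, key, one_mul, sub_self]
  have hnn : ∀ a ∈ D, ∀ b ∈ D, ∀ i : Fin n → Idx (A ⊕ F) g,
      0 ≤ (der (Matrix.single a b (1 : ℝ)) φ i) ^ 2 - if a = b then
        ((Finset.univ.filter (fun p => i p = a)).card : ℝ) * (φ i) ^ 2 else 0 := by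
    intro a ha b _ i
    by_cases h : a = b
    · subst h
      rw [if_pos rfl, hdiag a ha i]
      have h2 : (((Finset.univ.filter (fun p => i p = a)).card : ℝ) * φ i) ^ 2 -
          ((Finset.univ.filter (fun p => i p = a)).card : ℝ) * (φ i) ^ 2 =
          (((Finset.univ.filter (fun p => i p = a)).card : ℝ) *
            (((Finset.univ.filter (fun p => i p = a)).card : ℝ) - 1)) * (φ i) ^ 2 := by ring
      rw [h2]
      apply mul_nonneg _ (sq_nonneg _)
      rcases Nat.eq_zero_or_pos (Finset.univ.filter (fun p => i p = a)).card with h3 | h3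
      · rw [h3]; simp
      · have h4 : (1 : ℝ) ≤ ((Finset.univ.filter (fun p => i p = a)).card : ℝ) := by
          exact_mod_cast h3
        exact mul_nonneg (by linarith) (by linarith)
    · rw [if_neg h, sub_zero]
      exact sq_nonneg _
  have hz : ∀ a ∈ D, ∀ b ∈ D, ∀ i : Fin n → Idx (A ⊕ F) g,
      (der (Matrix.single a b (1 : ℝ)) φ i) ^ 2 - (if a = b then
        ((Finset.univ.filter (fun p => i p = a)).card : ℝ) * (φ i) ^ 2 else 0) = 0 := by
    intro a ha b hb i
    have h1 := (Finset.sum_eq_zero_iff_of_nonneg (fun a ha => Finset.sum_nonneg fun b hb =>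
      Finset.sum_nonneg fun i _ => hnn a ha b hb i)).1 hsum a ha
    have h2 := (Finset.sum_eq_zero_iff_of_nonneg (fun b hb =>
      Finset.sum_nonneg fun i _ => hnn a ha b hb i)).1 h1 b hb
    exact (Finset.sum_eq_zero_iff_of_nonneg (fun i _ => hnn a ha b hb i)).1 h2 i
      (Finset.mem_univ _)
  funext i
  by_contra hne
  have hne' : φ i ≠ 0 := hne
  -- all indices are in `A`
  have hall : ∀ p : Fin n, ∃ a : A, i p = ev a := by
    intro p
    rw [hev]
    rcases h : i p with x | x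
    · rcases x with a | f
      · exact ⟨a, rfl⟩
      · exact absurd (hF i ⟨p, f, h⟩) hne'
    · exact absurd (FF1.symp_zero hPOS φ hSp hJ i p x h) hne'
  obtain ⟨a, ha⟩ := hall ⟨0, hn⟩
  obtain ⟨a0, ha0⟩ := hR ⟨a⟩
  -- the multiplicity of `a0` is zero
  have hm0 : (Finset.univ.filter (fun p => i p = ev a0)).card = 0 := by
    have h1 := congrFun ha0 i
    rw [act_diagonal] at h1
    have h2 : (∏ p, (if i p = Sum.inl (Sum.inl a0) then (-1 : ℝ) else 1)) =
        (-1) ^ (Finset.univ.filter (fun p => i p = ev a0)).card := by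
      rw [Finset.prod_ite, Finset.prod_const, Finset.prod_const_one, mul_one, hev]
    rw [h2] at h1
    have h3 : ((-1 : ℝ)) ^ (Finset.univ.filter (fun p => i p = ev a0)).card = 1 :=
      mul_right_cancel₀ hne' (by rw [h1, one_mul])
    have h4 := hz (ev a0) (hmem a0) (ev a0) (hmem a0) i
    rw [if_pos rfl, hdiag _ (hmem a0)] at h4
    have h5 : (((Finset.univ.filter (fun p => i p = ev a0)).card : ℝ) *
        (((Finset.univ.filter (fun p => i p = ev a0)).card : ℝ) - 1)) * (φ i) ^ 2 = 0 := by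
      rw [← h4]; ring
    rcases mul_eq_zero.1 h5 with h6 | h6
    · rcases mul_eq_zero.1 h6 with h7 | h7
      · exact_mod_cast h7
      · have h8 : (Finset.univ.filter (fun p => i p = ev a0)).card = 1 := by
          have : ((Finset.univ.filter (fun p => i p = ev a0)).card : ℝ) = 1 := by linarith
          exact_mod_cast this
        rw [h8] at h3
        norm_num at h3
    · exact absurd (pow_eq_zero_iff two_ne_zero |>.1 h6) hne'
  have hna : ∀ p, i p ≠ ev a0 := by
    intro p hp
    have : p ∈ Finset.univ.filter (fun p => i p = ev a0) := by simp [hp]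
    rw [Finset.card_eq_zero.1 hm0] at this
    simp at this
  have hab : ev a0 ≠ ev a := fun h => hna ⟨0, hn⟩ (ha.trans h.symm)
  have h9 := hz (ev a0) (hmem a0) (ev a) (hmem a) (Function.update i ⟨0, hn⟩ (ev a0))
  rw [if_neg hab, sub_zero, der_single, Finset.sum_eq_single ⟨0, hn⟩] at h9
  · rw [Function.update_self, if_pos rfl, Function.update_idem, ← ha,
      Function.update_eq_self] at h9
    exact hne' (pow_eq_zero_iff two_ne_zero |>.1 h9)
  · intro p _ hp
    rw [Function.update_of_ne hp, if_neg (hna p)]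
  · intro h; exact absurd (Finset.mem_univ _) h

end Pool.Agent.Work.T3
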