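import Pool.Agent.Work.MP_298761_T3.Base

/-! T3, block FF2 (helper74): invariants orthogonal to all decomposable tensors vanish. -/

namespace Pool.Agent.Work.T3

open Matrix

namespace FF2

section
variable {A F : Type} [Fintype A] [Fintype F] [DecidableEq A] [DecidableEq F] {g : ℕ}

/-- the 2-tensor of the orthogonal part -/
abbrev bA (A F : Type) [DecidableEq A] [DecidableEq F] (g : ℕ) :
    Matrix (Idx (A ⊕ F) g) (Idx (A ⊕ F) g) ℝ := fromBlocks (fromBlocks 1 0 0 0) 0 0 0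

/-- the 2-tensor of the symplectic part -/
abbrev bJ (A F : Type) (g : ℕ) :
    Matrix (Idx (A ⊕ F) g) (Idx (A ⊕ F) g) ℝ := fromBlocks 0 0 0 (Matrix.J (Fin g) ℝ)

theorem inv_sl (hC : Stmt_CTR) {n : ℕ} (p : Fin (n + 1)) (f : F)
    {φ : Tens ℝ (Idx (A ⊕ F) g) (n + 1)} (h : Inv φ) :
    Inv (sl p (Sum.inl (Sum.inr f)) φ) := by
  obtain ⟨c1, c2, -, -, -, -⟩ := hC ℝ (Idx (A ⊕ F) g) n
  refine ⟨fun a b => ?_, fun X hX => ?_, fun hA => ?_⟩
  · have h1 := c1 (Matrix.single (Sum.inl (Sum.inl a)) (Sum.inl (Sum.inl b)) (1 : ℝ) -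
      Matrix.single (Sum.inl (Sum.inl b)) (Sum.inl (Sum.inl a)) (1 : ℝ)) p
      (Sum.inl (Sum.inr f)) φ
    rw [h.1 a b] at h1
    have h2 : ∑ l, (Matrix.single (Sum.inl (Sum.inl a)) (Sum.inl (Sum.inl b)) (1 : ℝ) -
        Matrix.single (Sum.inl (Sum.inl b)) (Sum.inl (Sum.inl a)) (1 : ℝ) :
        Matrix (Idx (A ⊕ F) g) (Idx (A ⊕ F) g) ℝ)
        (Sum.inl (Sum.inr f)) l • sl p l φ = 0 := by
      refine Finset.sum_eq_zero fun l _ => ?_
      rw [Matrix.sub_apply, Matrix.single_apply_of_ne _ _ _ _ _ (by simp),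
        Matrix.single_apply_of_ne _ _ _ _ _ (by simp), sub_zero, zero_smul]
    rw [h2, add_zero] at h1
    rw [← h1]
    rfl
  · have h1 := c1 (fromBlocks 0 0 0 X) p (Sum.inl (Sum.inr f)) φ
    rw [h.2.1 X hX] at h1
    have h2 : ∑ l, (fromBlocks 0 0 0 X : Matrix (Idx (A ⊕ F) g) (Idx (A ⊕ F) g) ℝ)
        (Sum.inl (Sum.inr f)) l • sl p l φ = 0 := by
      refine Finset.sum_eq_zero fun l _ => ?_
      rcases l with l | l
      · rw [fromBlocks_apply₁₁, Matrix.zero_apply, zero_smul]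
      · rw [fromBlocks_apply₁₂, Matrix.zero_apply, zero_smul]
    rw [h2, add_zero] at h1
    rw [← h1]
    rfl
  · obtain ⟨a, ha⟩ := h.2.2 hA
    refine ⟨a, ?_⟩
    have h1 := c2 (fun k : Idx (A ⊕ F) g => if k = Sum.inl (Sum.inl a) then (-1 : ℝ) else 1) p
      (Sum.inl (Sum.inr f)) φ
    rw [ha] at h1
    have h2 : (if (Sum.inl (Sum.inr f) : Idx (A ⊕ F) g) = Sum.inl (Sum.inl a)
      then (-1 : ℝ) else 1) = 1 := by
      rw [if_neg]
      simp
    rw [h2, one_smul] at h1
    exact h1.symm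

theorem inv_ctr (hC : Stmt_CTR) {n : ℕ} (b : Matrix (Idx (A ⊕ F) g) (Idx (A ⊕ F) g) ℝ)
    (p : Fin (n + 2)) (q : Fin (n + 1))
    (hb1 : ∀ a c : A, (Matrix.single (Sum.inl (Sum.inl a)) (Sum.inl (Sum.inl c)) (1 : ℝ) -
        Matrix.single (Sum.inl (Sum.inl c)) (Sum.inl (Sum.inl a)) (1 : ℝ) :
        Matrix (Idx (A ⊕ F) g) (Idx (A ⊕ F) g) ℝ)ᵀ * b + b *
        (Matrix.single (Sum.inl (Sum.inl a)) (Sum.inl (Sum.inl c)) (1 : ℝ) -
        Matrix.single (Sum.inl (Sum.inl c)) (Sum.inl (Sum.inl a)) (1 : ℝ)) = 0)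
    (hb2 : ∀ X : Matrix (Fin g ⊕ Fin g) (Fin g ⊕ Fin g) ℝ,
      Xᵀ * Matrix.J (Fin g) ℝ + Matrix.J (Fin g) ℝ * X = 0 →
      (fromBlocks 0 0 0 X : Matrix (Idx (A ⊕ F) g) (Idx (A ⊕ F) g) ℝ)ᵀ * b +
        b * fromBlocks 0 0 0 X = 0)
    (hb3 : ∀ (a : A) (k l : Idx (A ⊕ F) g),
      (if k = Sum.inl (Sum.inl a) then (-1 : ℝ) else 1) * b k l *
        (if l = Sum.inl (Sum.inl a) then (-1 : ℝ) else 1) = b k l)
    {φ : Tens ℝ (Idx (A ⊕ F) g) (n + 2)} (h : Inv φ) : Inv (ctr b p q φ) := by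
  obtain ⟨-, -, c3, c4, -, -⟩ := hC ℝ (Idx (A ⊕ F) g) n
  have h0 : ctr b p q (0 : Tens ℝ (Idx (A ⊕ F) g) (n + 2)) = 0 := by
    funext j
    simp [ctr]
  refine ⟨fun a c => ?_, fun X hX => ?_, fun hA => ?_⟩
  · rw [← c3 _ b p q φ (hb1 a c), h.1 a c, h0]
  · rw [← c3 _ b p q φ (hb2 X hX), h.2.1 X hX, h0]
  · obtain ⟨a, ha⟩ := h.2.2 hA
    refine ⟨a, ?_⟩
    rw [← c4 _ b p q φ (hb3 a), ha]

theorem inv_ctrA (hC : Stmt_CTR) {n : ℕ} (p : Fin (n + 2)) (q : Fin (n + 1))
    {φ : Tens ℝ (Idx (A ⊕ F) g) (n + 2)} (h : Inv φ) : Inv (ctr (bA A F g) p q φ) := by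
  refine inv_ctr hC (bA A F g) p q ?_ ?_ ?_ h
  · intro a c
    have h1 : (Matrix.single (Sum.inl (Sum.inl a)) (Sum.inl (Sum.inl c)) (1 : ℝ) -
        Matrix.single (Sum.inl (Sum.inl c)) (Sum.inl (Sum.inl a)) (1 : ℝ) :
        Matrix (Idx (A ⊕ F) g) (Idx (A ⊕ F) g) ℝ) =
        fromBlocks (fromBlocks (Matrix.single a c 1 - Matrix.single c a 1) 0 0 0) 0 0 0 := by
      ext i j
      rcases i with (i | i) | i <;> rcases j with (j | j) | j <;>
        simp [Matrix.single_apply]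
    rw [h1, fromBlocks_transpose, fromBlocks_multiply, fromBlocks_multiply,
      fromBlocks_transpose, fromBlocks_multiply, fromBlocks_multiply]
    simp only [Matrix.transpose_zero, Matrix.transpose_sub, Matrix.transpose_single,
      Matrix.mul_one, Matrix.one_mul, Matrix.mul_zero, Matrix.zero_mul, add_zero,
      fromBlocks_add]
    rw [show Matrix.single c a (1 : ℝ) - Matrix.single a c 1 +
      (Matrix.single a c 1 - Matrix.single c a 1) = 0 by abel]
    simp only [fromBlocks_zero]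
  · intro X _
    rw [fromBlocks_transpose, fromBlocks_multiply, fromBlocks_multiply]
    simp only [Matrix.transpose_zero, Matrix.mul_zero, Matrix.zero_mul, add_zero,
      fromBlocks_add, fromBlocks_zero]
  · intro a k l
    rcases k with (k | k) | k <;> rcases l with (l | l) | l <;>
      simp [Matrix.one_apply]
    by_cases hkl : k = l
    · subst hkl
      by_cases hka : k = a
      · simp [hka]
      · simp [hka]
    · simp [hkl]

theorem inv_ctrJ (hC : Stmt_CTR) {n : ℕ} (p : Fin (n + 2)) (q : Fin (n + 1))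
    {φ : Tens ℝ (Idx (A ⊕ F) g) (n + 2)} (h : Inv φ) : Inv (ctr (bJ A F g) p q φ) := by
  refine inv_ctr hC (bJ A F g) p q ?_ ?_ ?_ h
  · intro a c
    have h1 : (Matrix.single (Sum.inl (Sum.inl a)) (Sum.inl (Sum.inl c)) (1 : ℝ) -
        Matrix.single (Sum.inl (Sum.inl c)) (Sum.inl (Sum.inl a)) (1 : ℝ) :
        Matrix (Idx (A ⊕ F) g) (Idx (A ⊕ F) g) ℝ) =
        fromBlocks (fromBlocks (Matrix.single a c 1 - Matrix.single c a 1) 0 0 0) 0 0 0 := by
      ext i j
      rcases i with (i | i) | i <;> rcases j with (j | j) | j <;>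
        simp [Matrix.single_apply]
    rw [h1, fromBlocks_transpose, fromBlocks_multiply, fromBlocks_multiply]
    simp only [Matrix.transpose_zero, Matrix.mul_zero, Matrix.zero_mul, add_zero,
      fromBlocks_add, fromBlocks_zero]
  · intro X hX
    rw [fromBlocks_transpose, fromBlocks_multiply, fromBlocks_multiply]
    simp only [Matrix.transpose_zero, Matrix.mul_zero, Matrix.zero_mul, add_zero, zero_add,
      fromBlocks_add]
    rw [hX, fromBlocks_zero]
  · intro a k l
    rcases k with (k | k) | k <;> rcases l with (l | l) | l <;> simp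

end

theorem ins_upd {κ : Type} {n : ℕ} (p : Fin (n + 2)) (q : Fin (n + 1)) (i : Fin (n + 2) → κ)
    (k l : κ) : (p.insertNth k (q.insertNth l (q.removeNth (p.removeNth i)) : Fin (n + 1) → κ) :
      Fin (n + 2) → κ) = Function.update (Function.update i p k) (p.succAbove q) l := by
  rw [Fin.insertNth_removeNth, Fin.insertNth_update, Fin.insertNth_removeNth]

end FF2

theorem stmt_FF2 (hC : Stmt_CTR) (hF : Stmt_FF1) : Stmt_FF2 := by
  intro A F _ _ _ _ g n
  induction n using Nat.strong_induction_on with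
  | _ n ih =>
    intro φ hI hO
    rcases Nat.eq_zero_or_pos n with h0 | hpos
    · subst h0
      have h1 := hO _ Dec.one
      rw [Fintype.sum_unique] at h1
      funext i
      rw [Subsingleton.elim i default]
      simpa using h1
    · have hm : ∀ p q : Fin n, p ≠ q → ∃ m, n = m + 2 := by
        intro p q hpq
        refine ⟨n - 2, ?_⟩
        have := p.2
        have := q.2
        have : (p : ℕ) ≠ q := fun h => hpq (Fin.ext h)
        omega
      refine hF A F g n φ hI hpos ?_ ?_ ?_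
      · rintro i ⟨p, f, hp⟩
        obtain ⟨m, rfl⟩ : ∃ m, n = m + 1 := ⟨n - 1, by omega⟩
        obtain ⟨-, -, -, -, c5, -⟩ := hC ℝ (Idx (A ⊕ F) g) m
        have h1 : sl p (Sum.inl (Sum.inr f)) φ = 0 := by
          refine ih m (by omega) _ (FF2.inv_sl hC p f hI) fun ψ hψ => ?_
          rw [c5]
          have hmem : (Pi.single (Sum.inl (Sum.inr f)) 1 : Idx (A ⊕ F) g → ℝ) ∈ NF A F ℝ g :=
            ⟨f, rfl⟩
          exact hO _ (Dec.vec hmem p hψ)
        have h2 := congrFun h1 (p.removeNth i)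
        simp only [sl, Pi.zero_apply] at h2
        rw [← hp, Fin.insertNth_self_removeNth] at h2
        exact h2
      · intro p q hpq i
        obtain ⟨m, rfl⟩ := hm p q hpq
        obtain ⟨-, -, -, -, -, c6⟩ := hC ℝ (Idx (A ⊕ F) g) m
        obtain ⟨q', rfl⟩ := Fin.exists_succAbove_eq hpq.symm
        have h1 : ctr (FF2.bA A F g) p q' φ = 0 := by
          refine ih m (by omega) _ (FF2.inv_ctrA hC p q' hI) fun ψ hψ => ?_
          rw [c6]
          have hmem : FF2.bA A F g ∈ NP A F ℝ g := Or.inl rfl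
          exact hO _ (Dec.pair hmem p q' hψ)
        have h2 := congrFun h1 (q'.removeNth (p.removeNth i))
        simp only [ctr, Pi.zero_apply, FF2.ins_upd] at h2
        simp only [Fintype.sum_sum_type, fromBlocks_apply₁₁, fromBlocks_apply₁₂,
          fromBlocks_apply₂₁, fromBlocks_apply₂₂, Matrix.zero_apply, zero_mul,
          Finset.sum_const_zero, add_zero, Matrix.one_apply, ite_mul, one_mul] at h2
        simp only [Finset.sum_ite_eq, Finset.mem_univ, if_true] at h2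
        exact h2
      · intro p q hpq i
        obtain ⟨m, rfl⟩ := hm p q hpq
        obtain ⟨-, -, -, -, -, c6⟩ := hC ℝ (Idx (A ⊕ F) g) m
        obtain ⟨q', rfl⟩ := Fin.exists_succAbove_eq hpq.symm
        have h1 : ctr (FF2.bJ A F g) p q' φ = 0 := by
          refine ih m (by omega) _ (FF2.inv_ctrJ hC p q' hI) fun ψ hψ => ?_
          rw [c6]
          have hmem : FF2.bJ A F g ∈ NP A F ℝ g := Or.inr rfl
          exact hO _ (Dec.pair hmem p q' hψ)
        have h2 := congrFun h1 (q'.removeNth (p.removeNth i))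
        simp only [ctr, Pi.zero_apply, FF2.ins_upd] at h2
        simp only [Fintype.sum_sum_type, fromBlocks_apply₁₁, fromBlocks_apply₁₂,
          fromBlocks_apply₂₁, fromBlocks_apply₂₂, Matrix.zero_apply, zero_mul,
          Finset.sum_const_zero, add_zero, zero_add, Matrix.J, Matrix.neg_apply,
          Matrix.one_apply, ite_mul, one_mul, neg_mul] at h2
        simp only [Finset.sum_neg_distrib, Finset.sum_ite_eq, Finset.mem_univ, if_true] at h2
        rw [Finset.sum_sub_distrib]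
        linarith

end Pool.Agent.Work.T3
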