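import Pool.Agent.Work.MP_298761_T3.Base

/-! T3, block FFT: the first fundamental theorem over `ℝ` from FF2 and INV. -/

namespace Pool.Agent.Work.T3

open Matrix

namespace FFT

/-- decomposition along a subspace, for the dot product -/
theorem exists_decomp {ι : Type} [Fintype ι] (W : Submodule ℝ (ι → ℝ)) (φ : ι → ℝ) :
    ∃ β ∈ W, ∀ ψ ∈ W, ∑ i, (φ - β) i * ψ i = 0 := by
  classical
  let e : EuclideanSpace ℝ ι ≃ₗ[ℝ] (ι → ℝ) := WithLp.linearEquiv 2 ℝ (ι → ℝ)
  let W' : Submodule ℝ (EuclideanSpace ℝ ι) := W.comap e.toLinearMap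
  obtain ⟨y, hy, z, hz, hyz⟩ := W'.exists_add_mem_mem_orthogonal (e.symm φ)
  refine ⟨e y, hy, fun ψ hψ => ?_⟩
  have h1 : φ - e y = e z := by
    have : φ = e y + e z := by
      rw [← map_add, ← hyz]; exact (e.apply_symm_apply φ).symm
    rw [this]; abel
  have h2 : e.symm ψ ∈ W' := by
    show e (e.symm ψ) ∈ W
    rw [e.apply_symm_apply]; exact hψ
  have h3 := (Submodule.mem_orthogonal' W' z).mp hz _ h2
  rw [h1]
  rw [PiLp.inner_apply] at h3
  rw [← h3]
  refine Finset.sum_congr rfl fun i _ => ?_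
  simp only [RCLike.inner_apply, conj_trivial]
  rw [mul_comm]
  rfl

variable {A F : Type} [Fintype A] [Fintype F] [DecidableEq A] [DecidableEq F] {g n : ℕ}

theorem map_id_mat {κ : Type} (b : Matrix κ κ ℝ) : b.map (RingHom.id ℝ) = b := by
  ext i j; rfl

theorem inv_of_dec (hINV : Stmt_INV) (β : Tens ℝ (Idx (A ⊕ F) g) n)
    (hβ : Dec (NF A F ℝ g) (NP A F ℝ g) n β) :
    (∀ a b : A, der (Matrix.single (Sum.inl (Sum.inl a)) (Sum.inl (Sum.inl b)) (1 : ℝ) -
      Matrix.single (Sum.inl (Sum.inl b)) (Sum.inl (Sum.inl a)) (1 : ℝ)) β = 0) ∧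
    (∀ X : Matrix (Fin g ⊕ Fin g) (Fin g ⊕ Fin g) ℝ,
      Xᵀ * Matrix.J (Fin g) ℝ + Matrix.J (Fin g) ℝ * X = 0 →
      der (fromBlocks 0 0 0 X) β = 0) ∧
    (∀ a : A, act (Matrix.diagonal
      (fun k : Idx (A ⊕ F) g => if k = Sum.inl (Sum.inl a) then (-1 : ℝ) else 1)) β = β) := by
  obtain ⟨h1, h2⟩ := hINV ℝ ℝ (Idx (A ⊕ F) g) (RingHom.id ℝ) _ _ n β hβ
  have hβ' : (fun i => (RingHom.id ℝ) (β i)) = β := rfl
  simp only [hβ'] at h1 h2
  refine ⟨fun a b => h2 _ ?_ ?_, fun X hX => h2 _ ?_ ?_, fun a => h1 _ ?_ ?_⟩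
  · rintro v ⟨f, rfl⟩
    funext k
    simp only [RingHom.id_apply, sub_mulVec, Pi.sub_apply, Pi.zero_apply]
    rw [show (fun i => (Pi.single (Sum.inl (Sum.inr f)) (1:ℝ) : Idx (A ⊕ F) g → ℝ) i)
      = Pi.single (Sum.inl (Sum.inr f)) (1:ℝ) from rfl]
    rw [mulVec_single_one, mulVec_single_one]
    simp [Matrix.col_apply, Matrix.single_apply]
  · intro b' hb'
    rw [map_id_mat]
    rcases hb' with rfl | rfl
    · have hs : ∀ a b : A, (Matrix.single (Sum.inl (Sum.inl a)) (Sum.inl (Sum.inl b)) (1 : ℝ) :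
          Matrix (Idx (A ⊕ F) g) (Idx (A ⊕ F) g) ℝ) =
          fromBlocks (fromBlocks (Matrix.single a b 1) 0 0 0) 0 0 0 := by
        intro a b
        ext i j
        rcases i with (i | i) | i <;> rcases j with (j | j) | j <;>
          simp [Matrix.single_apply]
      rw [hs, hs]
      simp [sub_eq_add_neg, fromBlocks_neg, fromBlocks_transpose, fromBlocks_multiply,
        fromBlocks_add, Matrix.add_mul, Matrix.mul_add]
    · have hs : ∀ a b : A, (Matrix.single (Sum.inl (Sum.inl a)) (Sum.inl (Sum.inl b)) (1 : ℝ) :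
          Matrix (Idx (A ⊕ F) g) (Idx (A ⊕ F) g) ℝ) =
          fromBlocks (fromBlocks (Matrix.single a b 1) 0 0 0) 0 0 0 := by
        intro a b
        ext i j
        rcases i with (i | i) | i <;> rcases j with (j | j) | j <;>
          simp [Matrix.single_apply]
      rw [hs, hs]
      simp [sub_eq_add_neg, fromBlocks_neg, fromBlocks_transpose, fromBlocks_multiply,
        fromBlocks_add, Matrix.add_mul, Matrix.mul_add]
  · rintro v ⟨f, rfl⟩
    rw [show (fun i => (RingHom.id ℝ) ((Pi.single (Sum.inl (Sum.inr f)) (1:ℝ) :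
      Idx (A ⊕ F) g → ℝ) i)) = Pi.single (Sum.inl (Sum.inr f)) (1:ℝ) from rfl]
    rw [mulVec_single_one]
    funext k
    rcases k with k | k <;> simp [Matrix.col_apply]
  · intro b' hb'
    rw [map_id_mat]
    rcases hb' with rfl | rfl
    · simp [fromBlocks_transpose, fromBlocks_multiply, fromBlocks_add]
    · have hJ : Matrix.J (Fin g) ℝ * Matrix.J (Fin g) ℝ = -1 := Matrix.J_squared (Fin g) ℝ
      have h3 : X * Matrix.J (Fin g) ℝ + Matrix.J (Fin g) ℝ * Xᵀ = 0 := by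
        have h4 : Matrix.J (Fin g) ℝ * (Xᵀ * Matrix.J (Fin g) ℝ + Matrix.J (Fin g) ℝ * X) *
            Matrix.J (Fin g) ℝ = 0 := by rw [hX]; simp
        have h5 : Matrix.J (Fin g) ℝ * (Xᵀ * Matrix.J (Fin g) ℝ + Matrix.J (Fin g) ℝ * X) *
            Matrix.J (Fin g) ℝ =
            Matrix.J (Fin g) ℝ * Xᵀ * (Matrix.J (Fin g) ℝ * Matrix.J (Fin g) ℝ) +
            (Matrix.J (Fin g) ℝ * Matrix.J (Fin g) ℝ) * X * Matrix.J (Fin g) ℝ := by
          simp only [Matrix.mul_add, Matrix.add_mul, Matrix.mul_assoc]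
        rw [h5, hJ] at h4
        simp only [Matrix.mul_neg, Matrix.mul_one, Matrix.neg_mul, Matrix.one_mul] at h4
        have h6 : -(X * Matrix.J (Fin g) ℝ + Matrix.J (Fin g) ℝ * Xᵀ) = 0 := by
          rw [← h4]; abel
        exact neg_eq_zero.mp h6
      simp only [fromBlocks_transpose, fromBlocks_multiply, fromBlocks_add, transpose_zero,
        Matrix.zero_mul, Matrix.mul_zero, add_zero, zero_add, h3, fromBlocks_zero]
  · rintro v ⟨f, rfl⟩
    rw [show (fun i => (RingHom.id ℝ) ((Pi.single (Sum.inl (Sum.inr f)) (1:ℝ) :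
      Idx (A ⊕ F) g → ℝ) i)) = Pi.single (Sum.inl (Sum.inr f)) (1:ℝ) from rfl]
    rw [mulVec_single_one]
    funext k
    rw [Matrix.col_apply, Matrix.diagonal_apply]
    by_cases hk : k = Sum.inl (Sum.inr f)
    · subst hk; simp
    · rw [if_neg hk, Pi.single_eq_of_ne hk]
  · intro b' hb'
    rw [map_id_mat]
    rcases hb' with rfl | rfl
    · ext i j
      rw [Matrix.diagonal_transpose, Matrix.mul_diagonal, Matrix.diagonal_mul]
      rcases i with (i | i) | i <;> rcases j with (j | j) | j <;> simp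
      by_cases hij : i = j
      · subst hij
        by_cases hi : i = a <;> simp [hi]
      · simp [Matrix.one_apply_ne hij]
    · ext i j
      rw [Matrix.diagonal_transpose, Matrix.mul_diagonal, Matrix.diagonal_mul]
      rcases i with i | i <;> rcases j with j | j <;> simp

end FFT

open FFT in
theorem stmt_FFT (hFF2 : Stmt_FF2) (hINV : Stmt_INV) : Stmt_FFT := by
  intro A F _ _ _ _ g n φ hφ
  obtain ⟨β, hβ, hort⟩ := exists_decomp (decSub (NF A F ℝ g) (NP A F ℝ g) n) φ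
  have hβ' : Dec (NF A F ℝ g) (NP A F ℝ g) n β := hβ
  obtain ⟨i1, i2, i3⟩ := inv_of_dec hINV β hβ'
  have h0 : φ - β = 0 := by
    refine hFF2 A F g n (φ - β) ⟨fun a b => ?_, fun X hX => ?_, fun hA => ?_⟩ ?_
    · rw [der_sub_right, hφ.1 a b, i1 a b, sub_zero]
    · rw [der_sub_right, hφ.2.1 X hX, i2 X hX, sub_zero]
    · obtain ⟨a, ha⟩ := hφ.2.2 hA
      refine ⟨a, ?_⟩
      have h1 : act (Matrix.diagonal
        (fun k : Idx (A ⊕ F) g => if k = Sum.inl (Sum.inl a) then (-1 : ℝ) else 1)) (-β) = -β := by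
        have h2 := act_smul (-1 : ℝ) (Matrix.diagonal
          (fun k : Idx (A ⊕ F) g => if k = Sum.inl (Sum.inl a) then (-1 : ℝ) else 1)) β
        rw [i3 a] at h2
        simpa using h2
      rw [sub_eq_add_neg, act_add, ha, h1]
    · intro ψ hψ
      exact hort ψ hψ
  have h1 : φ = β := sub_eq_zero.mp h0
  rw [h1]; exact hβ'

end Pool.Agent.Work.T3
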