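import Pool.Agent.Work.MP_298761_T3.Base

/-! T3 (MP_298761_ag): block INS, the four insertion formulas. -/

namespace Pool.Agent.Work.T3

open Matrix

namespace INS

variable {R κ κ' : Type} [CommRing R] {n : ℕ}

/-- `act` as a linear map -/
def actL [Fintype κ'] (g : Matrix κ κ' R) : Tens R κ' n →ₗ[R] Tens R κ n where
  toFun := act g
  map_add' := act_add g
  map_smul' c φ := act_smul c g φ

/-- `der` as a linear map -/
def derL [Fintype κ] (X : Matrix κ κ R) : Tens R κ n →ₗ[R] Tens R κ n where
  toFun := der X
  map_add' := der_add_right X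
  map_smul' c φ := der_smul_right c X φ

theorem act_insVec [Fintype κ'] (g : Matrix κ κ' R) (v : κ' → R) (p : Fin (n + 1))
    (ψ : Tens R κ' n) : act g (insVec v p ψ) = insVec (g *ᵥ v) p (act g ψ) := by
  funext i
  simp only [act, insVec]
  rw [← (Fin.insertNthEquiv (fun _ => κ') p).sum_comp, Fintype.sum_prod_type]
  simp only [Fin.insertNthEquiv_apply, Fin.insertNth_apply_same, Matrix.mulVec, dotProduct]
  rw [Finset.sum_mul_sum]
  refine Finset.sum_congr rfl fun k _ => Finset.sum_congr rfl fun j _ => ?_
  rw [Fin.prod_univ_succAbove _ p, show p.removeNth ((Fin.insertNthEquiv (fun _ => κ') p) (k, j)) =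
    j from Fin.removeNth_insertNth (α := fun _ => κ') p k j]
  simp only [Fin.insertNth_apply_same, Fin.insertNth_apply_succAbove, Fin.removeNth]
  ring

theorem der_insVec [Fintype κ] (X : Matrix κ κ R) (v : κ → R) (p : Fin (n + 1))
    (ψ : Tens R κ n) :
    der X (insVec v p ψ) = insVec (X *ᵥ v) p ψ + insVec v p (der X ψ) := by
  funext i
  simp only [der, insVec, Pi.add_apply]
  rw [Fin.sum_univ_succAbove _ p]
  congr 1
  · simp only [Matrix.mulVec, dotProduct, Finset.sum_mul]
    refine Finset.sum_congr rfl fun k _ => ?_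
    rw [Function.update_self, Fin.removeNth_update, mul_assoc]
  · rw [Finset.mul_sum]
    refine Finset.sum_congr rfl fun r _ => ?_
    rw [Finset.mul_sum]
    refine Finset.sum_congr rfl fun k _ => ?_
    rw [Function.update_of_ne (Fin.succAbove_ne p r).symm, Fin.removeNth_update_succAbove]
    simp only [Fin.removeNth]
    ring

theorem insPair_eq [Fintype κ] [DecidableEq κ] (b : Matrix κ κ R) (p : Fin (n + 2))
    (q : Fin (n + 1)) (ψ : Tens R κ n) :
    insPair b p q ψ =
      ∑ k, ∑ l, b k l • insVec (Pi.single k 1) p (insVec (Pi.single l 1) q ψ) := by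
  funext i
  simp only [Finset.sum_apply, Pi.smul_apply, insPair, insVec, smul_eq_mul, Pi.single_apply]
  simp

theorem act_insPair [Fintype κ] [Fintype κ'] (g : Matrix κ κ' R) (b : Matrix κ' κ' R)
    (p : Fin (n + 2)) (q : Fin (n + 1)) (ψ : Tens R κ' n) :
    act g (insPair b p q ψ) = insPair (g * b * gᵀ) p q (act g ψ) := by
  classical
  rw [insPair_eq b p q ψ]
  change actL g _ = _
  simp only [map_sum, map_smul]
  change ∑ k, ∑ l, b k l • act g (insVec (Pi.single k 1) p (insVec (Pi.single l 1) q ψ)) = _
  funext i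
  simp only [act_insVec, Finset.sum_apply, Pi.smul_apply, smul_eq_mul, insVec, insPair,
    Matrix.mulVec_single_one, Matrix.col_apply, Matrix.mul_apply, Matrix.transpose_apply,
    Finset.sum_mul]
  rw [Finset.sum_comm]
  refine Finset.sum_congr rfl fun l _ => Finset.sum_congr rfl fun k _ => by ring

theorem der_insPair [Fintype κ] (X : Matrix κ κ R) (b : Matrix κ κ R) (p : Fin (n + 2))
    (q : Fin (n + 1)) (ψ : Tens R κ n) :
    der X (insPair b p q ψ) =
      insPair (X * b + b * Xᵀ) p q ψ + insPair b p q (der X ψ) := by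
  classical
  rw [insPair_eq b p q ψ, insPair_eq b p q (der X ψ)]
  change derL X _ = _
  simp only [map_sum, map_smul]
  change ∑ k, ∑ l, b k l • der X (insVec (Pi.single k 1) p (insVec (Pi.single l 1) q ψ)) = _
  funext i
  simp only [der_insVec, insVec_add, Finset.sum_apply, Pi.smul_apply, Pi.add_apply, smul_eq_mul,
    mul_add, Finset.sum_add_distrib]
  rw [← add_assoc]
  congr 1
  simp only [insPair, Matrix.add_apply, add_mul]
  congr 1
  · simp only [insVec, Matrix.mulVec_single_one, Matrix.col_apply, Matrix.mul_apply,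
      Pi.single_apply]
    simp [Finset.sum_mul]
    refine Finset.sum_congr rfl fun k _ => by ring
  · simp only [insVec, Matrix.mulVec_single_one, Matrix.col_apply, Matrix.mul_apply,
      Matrix.transpose_apply, Pi.single_apply]
    simp [Finset.sum_mul]
    refine Finset.sum_congr rfl fun k _ => by ring

end INS

theorem stmt_INS : Stmt_INS := by
  intro R κ κ' _ _ _ n
  exact ⟨fun g v p ψ => INS.act_insVec g v p ψ, fun g b p q ψ => INS.act_insPair g b p q ψ,
    fun X v p ψ => INS.der_insVec X v p ψ, fun X b p q ψ => INS.der_insPair X b p q ψ⟩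

end Pool.Agent.Work.T3
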