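import Pool.Agent.Work.MP_298761_T3.Base

namespace Pool.Agent.Work.T3.INT

open Matrix Pool.Agent.Work.T3

variable {R κ κ' : Type} [CommRing R] [Fintype κ] [Fintype κ'] {n : ℕ}

/-- the exchange `(j, k) ↦ (update j p k, j p)` -/
def exch (p : Fin n) : (Fin n → κ') × κ' ≃ (Fin n → κ') × κ' where
  toFun x := (Function.update x.1 p x.2, x.1 p)
  invFun x := (Function.update x.1 p x.2, x.1 p)
  left_inv := by rintro ⟨j, k⟩; simp
  right_inv := by rintro ⟨j, k⟩; simp

theorem prod_split (g : Matrix κ κ' R) (i : Fin n → κ) (j : Fin n → κ') (p : Fin n) :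
    ∏ q, g (i q) (j q) = g (i p) (j p) * ∏ q ∈ Finset.univ.erase p, g (i q) (j q) := by
  rw [Finset.mul_prod_erase Finset.univ (fun q => g (i q) (j q)) (Finset.mem_univ p)]

theorem stmt_INT' (g : Matrix κ κ' R) (X : Matrix κ κ R) (X' : Matrix κ' κ' R)
    (h : X * g = g * X') (ψ : Tens R κ' n) : act g (der X' ψ) = der X (act g ψ) := by
  funext i
  -- both sides are sums over `p`, `j` of `(X g = g X')(i p, j p) ∏_{q ≠ p} g * ψ j`
  have hL : act g (der X' ψ) i =
      ∑ p, ∑ j : Fin n → κ', (g * X') (i p) (j p) *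
        (∏ q ∈ Finset.univ.erase p, g (i q) (j q)) * ψ j := by
    simp only [act, der, Finset.mul_sum]
    rw [Finset.sum_comm]
    refine Finset.sum_congr rfl fun p _ => ?_
    have e1 : ∑ j : Fin n → κ', ∑ k, (∏ q, g (i q) (j q)) *
        (X' (j p) k * ψ (Function.update j p k)) =
        ∑ x : (Fin n → κ') × κ', (∏ q, g (i q) (x.1 q)) *
        (X' (x.1 p) x.2 * ψ (Function.update x.1 p x.2)) := by
      rw [Fintype.sum_prod_type]
    rw [e1, ← (exch (κ' := κ') p).sum_comp, Fintype.sum_prod_type]
    refine Finset.sum_congr rfl fun j _ => ?_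
    rw [Matrix.mul_apply, Finset.sum_mul, Finset.sum_mul]
    refine Finset.sum_congr rfl fun k _ => ?_
    simp only [exch, Equiv.coe_fn_mk, Function.update_self, Function.update_idem,
      Function.update_eq_self]
    rw [prod_split g i _ p, Function.update_self]
    have : ∏ q ∈ Finset.univ.erase p, g (i q) (Function.update j p k q) =
        ∏ q ∈ Finset.univ.erase p, g (i q) (j q) :=
      Finset.prod_congr rfl fun q hq => by
        rw [Function.update_of_ne (Finset.ne_of_mem_erase hq)]
    rw [this]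
    ring
  have hR : der X (act g ψ) i =
      ∑ p, ∑ j : Fin n → κ', (X * g) (i p) (j p) *
        (∏ q ∈ Finset.univ.erase p, g (i q) (j q)) * ψ j := by
    simp only [act, der, Finset.mul_sum]
    refine Finset.sum_congr rfl fun p _ => ?_
    rw [Finset.sum_comm]
    refine Finset.sum_congr rfl fun j _ => ?_
    rw [Matrix.mul_apply, Finset.sum_mul, Finset.sum_mul]
    refine Finset.sum_congr rfl fun k _ => ?_
    rw [prod_split g _ j p, Function.update_self]
    have : ∏ q ∈ Finset.univ.erase p, g (Function.update i p k q) (j q) =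
        ∏ q ∈ Finset.univ.erase p, g (i q) (j q) :=
      Finset.prod_congr rfl fun q hq => by
        rw [Function.update_of_ne (Finset.ne_of_mem_erase hq)]
    rw [this]
    ring
  rw [hL, hR, h]

end Pool.Agent.Work.T3.INT

namespace Pool.Agent.Work.T3

theorem stmt_INT : Stmt_INT := fun _ _ _ _ _ _ _ g X X' h ψ => INT.stmt_INT' g X X' h ψ

end Pool.Agent.Work.T3
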