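import Pool.Agent.Work.MP_298761_T3.Base

/-! T3 (MP_298761_ag): block INV, invariance of decomposable tensors. -/

namespace Pool.Agent.Work.T3

open Matrix

theorem stmt_INV (hINS : Stmt_INS) : Stmt_INV := by
  intro R R' κ _ _ _ f N P n φ h
  induction h with
  | one =>
    refine ⟨fun g _ _ => ?_, fun X _ _ => ?_⟩
    · funext i
      simp [act]
    · funext i
      simp [der]
  | @vec n v hv p ψ _ ih =>
    have e : (fun i => f (insVec v p ψ i)) = insVec (fun i => f (v i)) p (fun i => f (ψ i)) := by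
      funext i
      simp [insVec]
    refine ⟨fun g h1 h2 => ?_, fun X h1 h2 => ?_⟩
    · rw [e, (hINS R' κ κ n).1, h1 v hv, ih.1 g h1 h2]
    · rw [e, (hINS R' κ κ n).2.2.1, h1 v hv, ih.2 X h1 h2, insVec_zero_left, insVec_zero_right,
        add_zero]
  | @pair n b hb p q ψ _ ih =>
    have e : (fun i => f (insPair b p q ψ i)) = insPair (b.map f) p q (fun i => f (ψ i)) := by
      funext i
      simp [insPair]
    refine ⟨fun g h1 h2 => ?_, fun X h1 h2 => ?_⟩
    · rw [e, (hINS R' κ κ n).2.1, h2 b hb, ih.1 g h1 h2]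
    · rw [e, (hINS R' κ κ n).2.2.2, h2 b hb, ih.2 X h1 h2, insPair_zero_left,
        insPair_zero_right, add_zero]
  | zero n =>
    have e : (fun i => f ((0 : Tens R κ n) i)) = (0 : Tens R' κ n) := by
      funext i
      simp
    refine ⟨fun g _ _ => ?_, fun X _ _ => ?_⟩
    · rw [e, act_zero]
    · rw [e, der_zero_right]
  | @add n φ ψ _ _ ih1 ih2 =>
    have e : (fun i => f ((φ + ψ) i)) = (fun i => f (φ i)) + (fun i => f (ψ i)) := by
      funext i
      simp
    refine ⟨fun g h1 h2 => ?_, fun X h1 h2 => ?_⟩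
    · rw [e, act_add, ih1.1 g h1 h2, ih2.1 g h1 h2]
    · rw [e, der_add_right, ih1.2 X h1 h2, ih2.2 X h1 h2, add_zero]
  | @smul n c ψ _ ih =>
    have e : (fun i => f ((c • ψ) i)) = f c • (fun i => f (ψ i)) := by
      funext i
      simp
    refine ⟨fun g h1 h2 => ?_, fun X h1 h2 => ?_⟩
    · rw [e, act_smul, ih.1 g h1 h2]
    · rw [e, der_smul_right, ih.2 X h1 h2, smul_zero]

end Pool.Agent.Work.T3
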