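import Pool.Agent.Work.MP_298761_T3.Base

/-! T3 (MP_298761_ag), block LIE: linear algebra with the Lie algebra of endomorphisms. -/

namespace Pool.Agent.Work.T3

open Matrix

namespace LIE

variable {ι : Type} [Fintype ι] [DecidableEq ι]
set_option linter.unusedSectionVars false
set_option linter.unusedVariables false

theorem wedge_add_right (B : Matrix ι ι ℂ) (x y z : ι → ℂ) :
    wedge B x (y + z) = wedge B x y + wedge B x z := by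
  simp only [wedge, mulVec_add, add_vecMulVec, vecMulVec_add]
  abel

theorem wedge_add_left (B : Matrix ι ι ℂ) (x y z : ι → ℂ) :
    wedge B (x + y) z = wedge B x z + wedge B y z := by
  simp only [wedge, mulVec_add, add_vecMulVec, vecMulVec_add]
  abel

theorem wedge_smul_right (B : Matrix ι ι ℂ) (c : ℂ) (x y : ι → ℂ) :
    wedge B x (c • y) = c • wedge B x y := by
  simp only [wedge, mulVec_smul, smul_vecMulVec, vecMulVec_smul, smul_sub]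

theorem wedge_smul_left (B : Matrix ι ι ℂ) (c : ℂ) (x y : ι → ℂ) :
    wedge B (c • x) y = c • wedge B x y := by
  simp only [wedge, mulVec_smul, smul_vecMulVec, vecMulVec_smul, smul_sub]

theorem wedge_swap (B : Matrix ι ι ℂ) (x y : ι → ℂ) :
    wedge B x y = - wedge B y x := by
  simp only [wedge]
  abel

theorem wedge_self (B : Matrix ι ι ℂ) (x : ι → ℂ) : wedge B x x = 0 := by
  simp only [wedge, sub_self]

theorem wedge_mulVec (B : Matrix ι ι ℂ) (x y z : ι → ℂ) :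
    wedge B x y *ᵥ z = ((B *ᵥ x) ⬝ᵥ z) • y - ((B *ᵥ y) ⬝ᵥ z) • x := by
  rw [wedge, sub_mulVec, vecMulVec_mulVec, vecMulVec_mulVec]
  simp

theorem vecMul_skew {B X : Matrix ι ι ℂ} (hB : Bᵀ = B) (hX : Xᵀ * B + B * X = 0)
    (x : ι → ℂ) : (B *ᵥ x) ᵥ* X = - (B *ᵥ (X *ᵥ x)) := by
  rw [← mulVec_transpose, mulVec_mulVec, mulVec_mulVec, ← neg_mulVec]
  rw [eq_neg_of_add_eq_zero_left hX]

theorem bracket {B X : Matrix ι ι ℂ} (hB : Bᵀ = B) (hX : Xᵀ * B + B * X = 0)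
    (x y : ι → ℂ) : X * wedge B x y - wedge B x y * X =
      wedge B (X *ᵥ x) y + wedge B x (X *ᵥ y) := by
  simp only [wedge, mul_sub, sub_mul, mul_vecMulVec, vecMulVec_mul, vecMul_skew hB hX,
    vecMulVec_neg]
  abel

theorem dot_skew {B X : Matrix ι ι ℂ} (hB : Bᵀ = B) (hX : Xᵀ * B + B * X = 0)
    (x : ι → ℂ) : (B *ᵥ x) ⬝ᵥ (X *ᵥ x) = 0 := by
  have h1 : (B *ᵥ x) ⬝ᵥ (X *ᵥ x) = - ((B *ᵥ (X *ᵥ x)) ⬝ᵥ x) := by
    rw [dotProduct_mulVec, vecMul_skew hB hX, neg_dotProduct]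
  have h2 : (B *ᵥ (X *ᵥ x)) ⬝ᵥ x = (B *ᵥ x) ⬝ᵥ (X *ᵥ x) := by
    rw [dotProduct_comm, dotProduct_mulVec, ← mulVec_transpose, hB]
  rw [h2] at h1
  linear_combination (1 / 2 : ℂ) * h1

theorem refl_conj {B X : Matrix ι ι ℂ} (hB : Bᵀ = B) (hX : Xᵀ * B + B * X = 0)
    (x : ι → ℂ) : refl B x * X * refl B x =
      X - (2 / (x ⬝ᵥ B *ᵥ x)) • wedge B x (X *ᵥ x) := by
  set c := 2 / (x ⬝ᵥ B *ᵥ x) with hc
  have h3 : vecMulVec x (B *ᵥ x) * X = - vecMulVec x (B *ᵥ (X *ᵥ x)) := by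
    rw [vecMulVec_mul, vecMul_skew hB hX, vecMulVec_neg]
  have h4 : vecMulVec x (B *ᵥ x) * X * vecMulVec x (B *ᵥ x) = 0 := by
    rw [Matrix.mul_assoc, mul_vecMulVec, vecMulVec_mul_vecMulVec, dot_skew hB hX]
    simp
  have h5 : X * vecMulVec x (B *ᵥ x) = vecMulVec (X *ᵥ x) (B *ᵥ x) := by
    rw [mul_vecMulVec]
  rw [refl, ← hc]
  have h6 : (1 - c • vecMulVec x (B *ᵥ x)) * X * (1 - c • vecMulVec x (B *ᵥ x)) =
      X - c • (vecMulVec x (B *ᵥ x) * X) - c • (X * vecMulVec x (B *ᵥ x)) +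
        (c * c) • (vecMulVec x (B *ᵥ x) * X * vecMulVec x (B *ᵥ x)) := by
    simp only [sub_mul, mul_sub, one_mul, mul_one, smul_mul_assoc, mul_smul_comm, smul_smul,
      smul_sub]
    abel
  rw [h6, h4, h3, h5]
  simp only [wedge, smul_neg, smul_sub, smul_zero]
  abel

/-- claim 1, diagonal version -/
theorem diag_mem {B : Matrix ι ι ℂ} {H : Submodule ℂ (Matrix ι ι ℂ)} {T : Submodule ℂ (ι → ℂ)}
    (hB : Bᵀ = B) (hS : ∀ X ∈ H, Xᵀ * B + B * X = 0)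
    (hR : ∀ x ∈ T, x ⬝ᵥ B *ᵥ x ≠ 0 → ∀ X ∈ H, refl B x * X * refl B x ∈ H)
    {X : Matrix ι ι ℂ} (hX : X ∈ H) {x : ι → ℂ} (hx : x ∈ T) (hq : x ⬝ᵥ B *ᵥ x ≠ 0) :
    wedge B x (X *ᵥ x) ∈ H := by
  have h1 := hR x hx hq X hX
  rw [refl_conj hB (hS X hX)] at h1
  have h2 : (2 / (x ⬝ᵥ B *ᵥ x)) • wedge B x (X *ᵥ x) ∈ H := by
    have := H.sub_mem hX h1
    rwa [sub_sub_cancel] at this
  have h3 : (2 / (x ⬝ᵥ B *ᵥ x)) ≠ 0 := div_ne_zero two_ne_zero hq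
  exact (H.smul_mem_iff h3).1 h2

theorem exists_good (p b q : ℂ) (hq : q ≠ 0) :
    ∃ t : ℂ, p + 2 * t * b + t ^ 2 * q ≠ 0 ∧ p - 2 * t * b + t ^ 2 * q ≠ 0 := by
  have hq' : 0 < ‖q‖ := norm_pos_iff.2 hq
  obtain ⟨s, hs⟩ := exists_nat_gt ((‖p‖ + 2 * ‖b‖) / ‖q‖ + 1)
  have hs1 : (1 : ℝ) < s := lt_of_le_of_lt (by have := div_nonneg (by positivity : (0:ℝ) ≤ ‖p‖ + 2 * ‖b‖) hq'.le; linarith) hs
  have hs2 : ‖p‖ + 2 * ‖b‖ < s * ‖q‖ := by
    have : (‖p‖ + 2 * ‖b‖) / ‖q‖ < s := by linarith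
    rwa [div_lt_iff₀ hq'] at this
  have key : ∀ b' : ℂ, ‖b'‖ = ‖b‖ → p + 2 * s * b' + (s : ℂ) ^ 2 * q ≠ 0 := by
    intro b' hb' h0
    have h1 : (s : ℂ) ^ 2 * q = -(p + 2 * s * b') := by linear_combination h0
    have h2 : (s : ℝ) ^ 2 * ‖q‖ ≤ ‖p‖ + 2 * s * ‖b‖ := by
      have h3 : ‖(s : ℂ) ^ 2 * q‖ = (s : ℝ) ^ 2 * ‖q‖ := by
        rw [norm_mul, norm_pow]; simp
      have h4 : ‖(2 : ℂ) * s * b'‖ = 2 * s * ‖b‖ := by
        rw [norm_mul, norm_mul, hb']; simp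
      rw [← h3, h1, norm_neg, ← h4]
      exact norm_add_le _ _
    nlinarith [norm_nonneg p, norm_nonneg b]
  refine ⟨s, key b rfl, ?_⟩
  have h5 := key (-b) (norm_neg b)
  intro h0
  apply h5
  linear_combination h0

end LIE

theorem stmt_LIE : Stmt_LIE := by
  intro ι _ _ B H T hB hL hS hW hR hE
  obtain ⟨z, hzT, hz⟩ := hE
  have hsym : ∀ x y : ι → ℂ, x ⬝ᵥ B *ᵥ y = y ⬝ᵥ B *ᵥ x := by
    intro x y
    rw [dotProduct_mulVec, ← mulVec_transpose, hB, dotProduct_comm]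
  -- the quadratic map
  have hdiag : ∀ X ∈ H, ∀ x ∈ T, wedge B x (X *ᵥ x) ∈ H := by
    intro X hX x hx
    obtain ⟨t, ht1, ht2⟩ := LIE.exists_good (x ⬝ᵥ B *ᵥ x) (x ⬝ᵥ B *ᵥ z) (z ⬝ᵥ B *ᵥ z) hz
    have e1 : (x + t • z) ⬝ᵥ B *ᵥ (x + t • z) ≠ 0 := by
      have : (x + t • z) ⬝ᵥ B *ᵥ (x + t • z) = (x ⬝ᵥ B *ᵥ x) + 2 * t * (x ⬝ᵥ B *ᵥ z)
          + t ^ 2 * (z ⬝ᵥ B *ᵥ z) := by
        simp only [mulVec_add, mulVec_smul, add_dotProduct, dotProduct_add, smul_dotProduct,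
          dotProduct_smul, smul_eq_mul]
        rw [hsym z x]
        ring
      rw [this]; exact ht1
    have e2 : (x - t • z) ⬝ᵥ B *ᵥ (x - t • z) ≠ 0 := by
      have : (x - t • z) ⬝ᵥ B *ᵥ (x - t • z) = (x ⬝ᵥ B *ᵥ x) - 2 * t * (x ⬝ᵥ B *ᵥ z)
          + t ^ 2 * (z ⬝ᵥ B *ᵥ z) := by
        simp only [mulVec_sub, mulVec_smul, sub_dotProduct, dotProduct_sub, smul_dotProduct,
          dotProduct_smul, smul_eq_mul]
        rw [hsym z x]
        ring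
      rw [this]; exact ht2
    have m1 := LIE.diag_mem hB hS hR hX (T.add_mem hx (T.smul_mem t hzT)) e1
    have m2 := LIE.diag_mem hB hS hR hX (T.sub_mem hx (T.smul_mem t hzT)) e2
    have m3 := LIE.diag_mem hB hS hR hX hzT hz
    have e3 : (2 : ℂ) • wedge B x (X *ᵥ x) =
        wedge B (x + t • z) (X *ᵥ (x + t • z)) + wedge B (x - t • z) (X *ᵥ (x - t • z))
          - (2 * t ^ 2) • wedge B z (X *ᵥ z) := by
      have s1 : x - t • z = x + (-t) • z := by rw [neg_smul, sub_eq_add_neg]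
      rw [s1]
      simp only [mulVec_add, mulVec_smul, LIE.wedge_add_left, LIE.wedge_add_right,
        LIE.wedge_smul_left, LIE.wedge_smul_right]
      module
    have m4 : (2 : ℂ) • wedge B x (X *ᵥ x) ∈ H := by
      rw [e3]
      exact H.sub_mem (H.add_mem m1 m2) (H.smul_mem _ m3)
    exact (H.smul_mem_iff two_ne_zero).1 m4
  -- claim 1
  have c1 : ∀ X ∈ H, ∀ x ∈ T, ∀ y ∈ T, wedge B x (X *ᵥ y) ∈ H := by
    intro X hX x hx y hy
    have m1 := hdiag X hX (x + y) (T.add_mem hx hy)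
    have m2 := hdiag X hX x hx
    have m3 := hdiag X hX y hy
    have m4 := hL X hX _ (hW x hx y hy)
    rw [LIE.bracket hB (hS X hX)] at m4
    have e : (2 : ℂ) • wedge B x (X *ᵥ y) =
        wedge B (x + y) (X *ᵥ (x + y)) - wedge B x (X *ᵥ x) - wedge B y (X *ᵥ y)
          + (wedge B (X *ᵥ x) y + wedge B x (X *ᵥ y)) := by
      rw [LIE.wedge_swap B (X *ᵥ x) y]
      simp only [mulVec_add, LIE.wedge_add_left, LIE.wedge_add_right]
      module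
    have m5 : (2 : ℂ) • wedge B x (X *ᵥ y) ∈ H := by
      rw [e]
      exact H.add_mem (H.sub_mem (H.sub_mem m1 m2) m3) m4
    exact (H.smul_mem_iff two_ne_zero).1 m5
  -- claim 2
  have c2 : ∀ w w' : ι → ℂ, (∀ x ∈ T, wedge B x w ∈ H) → (∀ x ∈ T, wedge B x w' ∈ H) →
      wedge B w w' ∈ H := by
    intro w w' h1 h2
    have m1 := h1 z hzT
    have m2 := h2 z hzT
    have m3 := hL _ m1 _ m2
    rw [LIE.bracket hB (hS _ m1), LIE.wedge_mulVec, LIE.wedge_mulVec] at m3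
    have e : ((B *ᵥ z) ⬝ᵥ z) • wedge B w w' =
        (wedge B (((B *ᵥ z) ⬝ᵥ z) • w - ((B *ᵥ w) ⬝ᵥ z) • z) w' +
          wedge B z (((B *ᵥ z) ⬝ᵥ w') • w - ((B *ᵥ w) ⬝ᵥ w') • z))
        + ((B *ᵥ w) ⬝ᵥ z) • wedge B z w' - ((B *ᵥ z) ⬝ᵥ w') • wedge B z w := by
      have s1 : ∀ (c d : ℂ) (u v : ι → ℂ), c • u - d • v = c • u + (-d) • v := by
        intro c d u v; rw [neg_smul, sub_eq_add_neg]
      rw [s1, s1]
      simp only [LIE.wedge_add_left, LIE.wedge_add_right, LIE.wedge_smul_left,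
        LIE.wedge_smul_right, LIE.wedge_self]
      module
    have m4 : ((B *ᵥ z) ⬝ᵥ z) • wedge B w w' ∈ H := by
      rw [e]
      exact H.sub_mem (H.add_mem m3 (H.smul_mem _ m2)) (H.smul_mem _ m1)
    have h0 : (B *ᵥ z) ⬝ᵥ z ≠ 0 := by rwa [dotProduct_comm]
    exact (H.smul_mem_iff h0).1 m4
  refine ⟨c1, c2, ?_⟩
  intro X hX w hw x hx
  have m1 := hL X hX _ (hw x hx)
  rw [LIE.bracket hB (hS X hX)] at m1
  have m2 : wedge B (X *ᵥ x) w ∈ H := c2 _ _ (fun y hy => c1 X hX y hy x hx) hw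
  have := H.sub_mem m1 m2
  rwa [add_sub_cancel_left] at this

end Pool.Agent.Work.T3
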