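import Pool.Agent.Work.MP_298761_T3.Base

/-! Block MUL: the tensor power of matrices is multiplicative. -/

namespace Pool.Agent.Work.T3

open Matrix

theorem stmt_MUL : Stmt_MUL := by
  classical
  intro R κ κ' κ'' _ _ _ _ _ n
  refine ⟨?_, ?_⟩
  · intro φ
    funext i
    unfold act
    rw [Finset.sum_eq_single i]
    · simp [Matrix.one_apply_eq]
    · intro j _ hj
      obtain ⟨p, hp⟩ := Function.ne_iff.1 hj
      rw [Finset.prod_eq_zero (Finset.mem_univ p), zero_mul]
      exact Matrix.one_apply_ne (Ne.symm hp)
    · intro h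
      exact absurd (Finset.mem_univ i) h
  · intro g h φ
    funext i
    unfold act
    have h1 : ∀ l : Fin n → κ'', (∏ p, (g * h) (i p) (l p)) =
        ∑ j : Fin n → κ', (∏ p, g (i p) (j p)) * ∏ p, h (j p) (l p) := by
      intro l
      simp only [Matrix.mul_apply]
      rw [Finset.prod_univ_sum, Fintype.piFinset_univ]
      refine Finset.sum_congr rfl fun j _ => ?_
      rw [Finset.prod_mul_distrib]
    simp only [h1, Finset.sum_mul, Finset.mul_sum]
    rw [Finset.sum_comm]
    refine Finset.sum_congr rfl fun j _ => Finset.sum_congr rfl fun l _ => ?_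
    rw [mul_assoc]

end Pool.Agent.Work.T3
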