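import Pool.Agent.Work.MP_298761_T3.Base

/-! T3: block POS (helper92): a sum of squares identity. -/

namespace Pool.Agent.Work.T3

open Matrix

namespace POS

section
variable {κ : Type} [Fintype κ] [DecidableEq κ] {n : ℕ}

/-- fibrewise equality of sums (over the value in position `p`) implies equality of sums -/
theorem sum_fib (p : Fin n) (x0 : κ) (F : (Fin n → κ) → ℝ) :
    ∑ i, F i = ∑ i ∈ Finset.univ.filter (fun i : Fin n → κ => i p = x0), ∑ k : κ,
      F (Function.update i p k) := by
  rw [← Finset.sum_product']
  refine Finset.sum_bij' (fun i _ => (Function.update i p x0, i p))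
    (fun z _ => Function.update z.1 p z.2) ?_ ?_ ?_ ?_ ?_
  · intro i _
    simp
  · intro z _
    simp
  · intro i _
    simp
  · intro z hz
    rw [Finset.mem_product, Finset.mem_filter] at hz
    obtain ⟨⟨_, h⟩, _⟩ := hz
    ext1
    · simp only [Function.update_idem]
      rw [← h]
      exact Function.update_eq_self _ _
    · simp
  · intro i _
    simp

theorem sum_fib_congr (p : Fin n) (F G : (Fin n → κ) → ℝ)
    (h : ∀ i : Fin n → κ, ∑ k : κ, F (Function.update i p k) =
      ∑ k : κ, G (Function.update i p k)) : ∑ i, F i = ∑ i, G i := by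
  rcases isEmpty_or_nonempty κ with hk | ⟨⟨x0⟩⟩
  · have : IsEmpty (Fin n → κ) := ⟨fun f => hk.false (f p)⟩
    simp
  · rw [sum_fib p x0 F, sum_fib p x0 G]
    exact Finset.sum_congr rfl fun i _ => h i

theorem diag (φ : Tens ℝ κ n) (D : Finset κ) (θ : κ → κ) (s : κ → ℝ) (ε : ℝ)
    (hD : ∀ a ∈ D, θ a ∈ D) (hθ : ∀ a, θ (θ a) = a) (hε : ∀ a ∈ D, s (θ a) * s a = ε)
    (p : Fin n) :
    ∑ i : Fin n → κ, ∑ a ∈ D, ∑ b ∈ D, (s a * s b) *
      ((if i p = a then φ (Function.update i p b) else 0) *
        (if i p = θ b then φ (Function.update i p (θ a)) else 0)) =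
    ∑ i : Fin n → κ, ε * (if i p ∈ D then (φ i) ^ 2 else 0) := by
  apply sum_fib_congr p
  intro i
  simp only [Function.update_self, Function.update_idem]
  have h1 : ∀ k : κ, ∑ a ∈ D, ∑ b ∈ D, (s a * s b) *
      ((if k = a then φ (Function.update i p b) else 0) *
        (if k = θ b then φ (Function.update i p (θ a)) else 0)) =
      if k ∈ D then ε * (φ (Function.update i p (θ k))) ^ 2 else 0 := by
    intro k
    by_cases hk : k ∈ D
    · rw [if_pos hk, Finset.sum_eq_single_of_mem k hk, Finset.sum_eq_single_of_mem (θ k) (hD k hk)]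
      · rw [if_pos rfl, hθ, if_pos rfl, ← hε k hk]
        ring
      · intro b _ hb
        rw [if_neg (c := k = θ b)]
        · ring
        · intro h
          apply hb
          rw [h, hθ]
      · intro a _ ha
        apply Finset.sum_eq_zero
        intro b _
        rw [if_neg (fun h => ha h.symm)]
        ring
    · rw [if_neg hk]
      apply Finset.sum_eq_zero
      intro a ha
      apply Finset.sum_eq_zero
      intro b _
      rw [if_neg (show ¬ (k = a) from fun h => hk (by rw [h]; exact ha))]
      ring
  rw [Finset.sum_congr rfl (fun k _ => h1 k)]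
  have e : Function.Involutive θ := hθ
  rw [← Equiv.sum_comp e.toPerm (fun k => ε * (if k ∈ D then
    (φ (Function.update i p k)) ^ 2 else 0))]
  apply Finset.sum_congr rfl
  intro k _
  show _ = ε * (if θ k ∈ D then (φ (Function.update i p (θ k))) ^ 2 else 0)
  by_cases hk : k ∈ D
  · rw [if_pos hk, if_pos (hD k hk)]
  · rw [if_neg hk, if_neg (fun h => hk (by have := hD _ h; rwa [hθ] at this)), mul_zero]

theorem offdiag (φ : Tens ℝ κ n) (D : Finset κ) (θ : κ → κ) (s : κ → ℝ)
    (hz : ∀ p q : Fin n, p ≠ q → ∀ i : Fin n → κ,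
      ∑ a ∈ D, s a * φ (Function.update (Function.update i p a) q (θ a)) = 0)
    (p q : Fin n) (hpq : p ≠ q) :
    ∑ i : Fin n → κ, ∑ a ∈ D, ∑ b ∈ D, (s a * s b) *
      ((if i p = a then φ (Function.update i p b) else 0) *
        (if i q = θ b then φ (Function.update i q (θ a)) else 0)) = 0 := by
  rw [sum_fib_congr p _ (fun _ => 0)]
  · simp
  intro i
  simp only [Function.update_self, Function.update_idem, Finset.sum_const_zero,
    Function.update_of_ne hpq.symm]
  rw [Finset.sum_comm]
  have h1 : ∀ a ∈ D, ∑ k : κ, ∑ b ∈ D, (s a * s b) *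
      ((if k = a then φ (Function.update i p b) else 0) *
        (if i q = θ b then φ (Function.update (Function.update i p k) q (θ a)) else 0)) =
      ∑ b ∈ D, (s b * (if i q = θ b then φ (Function.update i p b) else 0)) *
        (s a * φ (Function.update (Function.update i p a) q (θ a))) := by
    intro a _
    rw [Finset.sum_eq_single a]
    · apply Finset.sum_congr rfl
      intro b _
      rw [if_pos rfl]
      by_cases h : i q = θ b
      · rw [if_pos h, if_pos h]; ring
      · rw [if_neg h, if_neg h]; ring
    · intro k _ hk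
      apply Finset.sum_eq_zero
      intro b _
      rw [if_neg hk]
      ring
    · intro h; exact absurd (Finset.mem_univ _) h
  rw [Finset.sum_congr rfl h1, Finset.sum_comm]
  apply Finset.sum_eq_zero
  intro b _
  rw [← Finset.mul_sum, hz p q hpq i, mul_zero]

end

end POS

theorem stmt_POS : Stmt_POS := by
  intro κ _ _ n φ D θ s ε hD hθ hs hε h1 hz
  have e1 : ∑ a ∈ D, ∑ b ∈ D, ∑ i : Fin n → κ, (der (Matrix.single a b (1 : ℝ)) φ i) ^ 2 =
      ∑ a ∈ D, ∑ b ∈ D, ∑ i : Fin n → κ, ∑ p : Fin n, ∑ q : Fin n, (s a * s b) *
      ((if i p = a then φ (Function.update i p b) else 0) *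
        (if i q = θ b then φ (Function.update i q (θ a)) else 0)) := by
    apply Finset.sum_congr rfl
    intro a ha
    apply Finset.sum_congr rfl
    intro b hb
    apply Finset.sum_congr rfl
    intro i _
    have h2 : (der (Matrix.single a b (1 : ℝ)) φ i) ^ 2 = (s a * s b) *
        ((der (Matrix.single a b (1 : ℝ)) φ i) *
          (der (Matrix.single (θ b) (θ a) (1 : ℝ)) φ i)) := by
      have := congrFun (h1 a ha b hb) i
      rw [Pi.smul_apply, smul_eq_mul] at this
      rw [sq]
      nth_rewrite 2 [this]
      ring
    rw [h2, der_single, der_single, Finset.sum_mul_sum, Finset.mul_sum]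
    apply Finset.sum_congr rfl
    intro p _
    rw [Finset.mul_sum]
  rw [e1]
  have e2 : ∑ a ∈ D, ∑ b ∈ D, ∑ i : Fin n → κ, ∑ p : Fin n, ∑ q : Fin n, (s a * s b) *
      ((if i p = a then φ (Function.update i p b) else 0) *
        (if i q = θ b then φ (Function.update i q (θ a)) else 0)) =
      ∑ p : Fin n, ∑ q : Fin n, ∑ i : Fin n → κ, ∑ a ∈ D, ∑ b ∈ D, (s a * s b) *
      ((if i p = a then φ (Function.update i p b) else 0) *
        (if i q = θ b then φ (Function.update i q (θ a)) else 0)) := by
    calc _ = ∑ a ∈ D, ∑ b ∈ D, ∑ p : Fin n, ∑ q : Fin n, ∑ i : Fin n → κ, (s a * s b) *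
      ((if i p = a then φ (Function.update i p b) else 0) *
        (if i q = θ b then φ (Function.update i q (θ a)) else 0)) := by
          apply Finset.sum_congr rfl
          intro a _
          apply Finset.sum_congr rfl
          intro b _
          rw [Finset.sum_comm]
          apply Finset.sum_congr rfl
          intro p _
          rw [Finset.sum_comm]
      _ = ∑ a ∈ D, ∑ p : Fin n, ∑ b ∈ D, ∑ q : Fin n, ∑ i : Fin n → κ, (s a * s b) *
      ((if i p = a then φ (Function.update i p b) else 0) *
        (if i q = θ b then φ (Function.update i q (θ a)) else 0)) := by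
          apply Finset.sum_congr rfl
          intro a _
          rw [Finset.sum_comm]
      _ = ∑ p : Fin n, ∑ a ∈ D, ∑ q : Fin n, ∑ b ∈ D, ∑ i : Fin n → κ, (s a * s b) *
      ((if i p = a then φ (Function.update i p b) else 0) *
        (if i q = θ b then φ (Function.update i q (θ a)) else 0)) := by
          rw [Finset.sum_comm]
          apply Finset.sum_congr rfl
          intro p _
          apply Finset.sum_congr rfl
          intro a _
          rw [Finset.sum_comm]
      _ = ∑ p : Fin n, ∑ q : Fin n, ∑ a ∈ D, ∑ i : Fin n → κ, ∑ b ∈ D, (s a * s b) *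
      ((if i p = a then φ (Function.update i p b) else 0) *
        (if i q = θ b then φ (Function.update i q (θ a)) else 0)) := by
          apply Finset.sum_congr rfl
          intro p _
          rw [Finset.sum_comm]
          apply Finset.sum_congr rfl
          intro q _
          apply Finset.sum_congr rfl
          intro a _
          rw [Finset.sum_comm]
      _ = _ := by
          apply Finset.sum_congr rfl
          intro p _
          apply Finset.sum_congr rfl
          intro q _
          rw [Finset.sum_comm]
  rw [e2]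
  have e3 : ∀ p : Fin n, ∑ q : Fin n, ∑ i : Fin n → κ, ∑ a ∈ D, ∑ b ∈ D, (s a * s b) *
      ((if i p = a then φ (Function.update i p b) else 0) *
        (if i q = θ b then φ (Function.update i q (θ a)) else 0)) =
      ∑ i : Fin n → κ, ε * (if i p ∈ D then (φ i) ^ 2 else 0) := by
    intro p
    rw [Finset.sum_eq_single p]
    · exact POS.diag φ D θ s ε hD hθ hε p
    · intro q _ hq
      exact POS.offdiag φ D θ s hz p q hq.symm
    · intro h; exact absurd (Finset.mem_univ _) h
  rw [Finset.sum_congr rfl (fun p _ => e3 p), Finset.sum_comm, Finset.mul_sum]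
  apply Finset.sum_congr rfl
  intro i _
  rw [← Finset.mul_sum, Finset.card_filter, Nat.cast_sum, Finset.sum_mul]
  congr 1
  apply Finset.sum_congr rfl
  intro p _
  by_cases h : i p ∈ D
  · rw [if_pos h, if_pos h]; push_cast; ring
  · rw [if_neg h, if_neg h]; push_cast; ring

end Pool.Agent.Work.T3
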