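import Pool.Agent.Work.MP_298761_T3.Base

set_option autoImplicit false

/-! RAT: complex solutions of rational linear equations are spanned by rational ones (helper45). -/

namespace Pool.Agent.Work.T3

open Matrix

theorem stmt_RAT : Stmt_RAT := by
  classical
  intro ι _ A v hv
  let B := Module.Basis.ofVectorSpace ℚ ℂ
  let S := Finset.univ.biUnion (fun i : ι => (B.repr (v i)).support)
  have h1 : v = ∑ k ∈ S, (B k) • vC (fun i => B.repr (v i) k) := by
    funext i
    rw [Finset.sum_apply]
    have h2 := B.linearCombination_repr (v i)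
    rw [Finsupp.linearCombination_apply, Finsupp.sum] at h2
    conv_lhs => rw [← h2]
    have h3 : (B.repr (v i)).support ⊆ S := by
      intro k hk
      exact Finset.mem_biUnion.2 ⟨i, Finset.mem_univ _, hk⟩
    rw [Finset.sum_subset h3]
    · refine Finset.sum_congr rfl fun k _ => ?_
      simp only [Pi.smul_apply, vC, smul_eq_mul]
      rw [Algebra.smul_def, mul_comm]
      rfl
    · intro k _ hk
      rw [Finsupp.notMem_support_iff.1 hk, zero_smul]
  rw [h1]
  refine Submodule.sum_mem _ fun k _ => Submodule.smul_mem _ _ (Submodule.subset_span ?_)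
  refine ⟨fun i => B.repr (v i) k, ?_, rfl⟩
  intro a ha
  have h4 := hv a ha
  have h5 : vC a ⬝ᵥ v = ∑ i, (a i) • v i := by
    simp only [dotProduct, vC]
    refine Finset.sum_congr rfl fun i _ => ?_
    rw [Algebra.smul_def]
    rfl
  rw [h5] at h4
  have h6 := congrArg (fun z => B.repr z k) h4
  simp only [map_sum, map_smul, map_zero, Finsupp.coe_zero, Pi.zero_apply, Finsupp.finsetSum_apply,
    Finsupp.smul_apply, smul_eq_mul] at h6
  exact h6

end Pool.Agent.Work.T3
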