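import Pool.Agent.Work.MP_298761_T3.Base

/-! T3 (MP_298761_ag): block REF (helper64). -/

namespace Pool.Agent.Work.T3

open Matrix

namespace REF

section
variable {R κ : Type} [CommRing R] [Fintype κ] [DecidableEq κ] {n : ℕ}

/-- the tensor power of `M` with one factor replaced by `N`, summed over the positions -/
def actp (M N : Matrix κ κ R) (ψ : Tens R κ n) : Tens R κ n :=
  fun i => ∑ p, ∑ j : Fin n → κ,
    N (i p) (j p) * (∏ r ∈ Finset.univ.erase p, M (i r) (j r)) * ψ j

omit [Fintype κ] [DecidableEq κ] in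
theorem prod_split (M : Matrix κ κ R) (i j : Fin n → κ) (p : Fin n) :
    ∏ r, M (i r) (j r) = M (i p) (j p) * ∏ r ∈ Finset.univ.erase p, M (i r) (j r) :=
  (Finset.mul_prod_erase _ (fun r => M (i r) (j r)) (Finset.mem_univ p)).symm

omit [DecidableEq κ] in
theorem actp_left (X M : Matrix κ κ R) (ψ : Tens R κ n) :
    actp M (X * M) ψ = der X (act M ψ) := by
  funext i
  simp only [actp, der, act]
  refine Finset.sum_congr rfl fun p _ => ?_
  simp only [Finset.mul_sum]
  rw [Finset.sum_comm]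
  refine Finset.sum_congr rfl fun j _ => ?_
  rw [Matrix.mul_apply, Finset.sum_mul, Finset.sum_mul]
  refine Finset.sum_congr rfl fun k _ => ?_
  have h1 : ∏ r ∈ Finset.univ.erase p, M (Function.update i p k r) (j r) =
      ∏ r ∈ Finset.univ.erase p, M (i r) (j r) := by
    refine Finset.prod_congr rfl fun r hr => ?_
    rw [Function.update_of_ne (Finset.ne_of_mem_erase hr)]
  rw [prod_split M (Function.update i p k) j p, Function.update_self, h1]
  ring

/-- exchange of the index in position `p` -/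
def exch (p : Fin n) : (Fin n → κ) × κ ≃ (Fin n → κ) × κ where
  toFun z := (Function.update z.1 p z.2, z.1 p)
  invFun z := (Function.update z.1 p z.2, z.1 p)
  left_inv z := by simp
  right_inv z := by simp

omit [DecidableEq κ] in
theorem actp_right (X M : Matrix κ κ R) (ψ : Tens R κ n) :
    actp M (M * X) ψ = act M (der X ψ) := by
  funext i
  simp only [actp, der, act, Finset.mul_sum]
  conv_rhs => rw [Finset.sum_comm]
  refine Finset.sum_congr rfl fun p _ => ?_
  have h1 : ∑ j : Fin n → κ, (M * X) (i p) (j p) *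
        (∏ r ∈ Finset.univ.erase p, M (i r) (j r)) * ψ j =
      ∑ z : (Fin n → κ) × κ, M (i p) z.2 * X z.2 (z.1 p) *
        (∏ r ∈ Finset.univ.erase p, M (i r) (z.1 r)) * ψ z.1 := by
    rw [Fintype.sum_prod_type]
    refine Finset.sum_congr rfl fun j _ => ?_
    rw [Matrix.mul_apply, Finset.sum_mul, Finset.sum_mul]
  have h2 : ∑ j : Fin n → κ, ∑ k, (∏ r, M (i r) (j r)) *
        (X (j p) k * ψ (Function.update j p k)) =
      ∑ z : (Fin n → κ) × κ, (∏ r, M (i r) (z.1 r)) *
        (X (z.1 p) z.2 * ψ (Function.update z.1 p z.2)) := by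
    rw [Fintype.sum_prod_type]
  rw [h1, h2]
  refine (Fintype.sum_equiv (exch p) _ _ ?_).symm
  rintro ⟨j, k⟩
  simp only [exch, Equiv.coe_fn_mk, Function.update_self]
  have h3 : ∏ r ∈ Finset.univ.erase p, M (i r) (Function.update j p k r) =
      ∏ r ∈ Finset.univ.erase p, M (i r) (j r) := by
    refine Finset.prod_congr rfl fun r hr => ?_
    rw [Function.update_of_ne (Finset.ne_of_mem_erase hr)]
  rw [prod_split M i j p, h3]
  ring

omit [DecidableEq κ] in
theorem actp_self (M : Matrix κ κ R) (ψ : Tens R κ n) :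
    actp M M ψ = (n : R) • act M ψ := by
  funext i
  simp only [actp, act, Pi.smul_apply, smul_eq_mul]
  rw [Finset.sum_congr rfl (g := fun _ => ∑ j : Fin n → κ, (∏ r, M (i r) (j r)) * ψ j)]
  · rw [Finset.sum_const, Finset.card_univ, Fintype.card_fin, nsmul_eq_mul]
  · intro p _
    exact Finset.sum_congr rfl fun j _ => by rw [← prod_split]

omit [DecidableEq κ] in
theorem actp_add (M N N' : Matrix κ κ R) (ψ : Tens R κ n) :
    actp M (N + N') ψ = actp M N ψ + actp M N' ψ := by
  funext i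
  simp only [actp, Pi.add_apply, Matrix.add_apply, add_mul, Finset.sum_add_distrib]

omit [DecidableEq κ] in
theorem actp_smul (c : R) (M N : Matrix κ κ R) (ψ : Tens R κ n) :
    actp M (c • N) ψ = c • actp M N ψ := by
  funext i
  simp only [actp, Pi.smul_apply, Matrix.smul_apply, smul_eq_mul, Finset.mul_sum, mul_assoc]

omit [DecidableEq κ] in
theorem act_smul_left (c : R) (M : Matrix κ κ R) (ψ : Tens R κ n) :
    act (c • M) ψ = c ^ n • act M ψ := by
  funext i
  simp only [act, Pi.smul_apply, Matrix.smul_apply, smul_eq_mul, Finset.mul_sum]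
  refine Finset.sum_congr rfl fun j _ => ?_
  rw [Finset.prod_mul_distrib, Finset.prod_const, Finset.card_univ, Fintype.card_fin, mul_assoc]

end

section
open Polynomial

variable {κ : Type} [Fintype κ] [DecidableEq κ] {n : ℕ}

/-- constant tensor -/
noncomputable def tP (φ : Tens ℂ κ n) : Tens ℂ[X] κ n := fun i => C (φ i)

omit [DecidableEq κ] in
theorem deriv_act (M : Matrix κ κ ℂ[X]) (φ : Tens ℂ κ n) (i : Fin n → κ) :
    derivative (act M (tP φ) i) = actp M (M.map (fun f => derivative f)) (tP φ) i := by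
  simp only [act, actp, tP, map_sum, derivative_mul, derivative_C, mul_zero, add_zero,
    derivative_prod_finset, Finset.sum_mul, Matrix.map_apply]
  rw [Finset.sum_comm]
  exact Finset.sum_congr rfl fun p _ => Finset.sum_congr rfl fun j _ => by ring

omit [DecidableEq κ] in
theorem eval_act (M : Matrix κ κ ℂ[X]) (φ : Tens ℂ κ n) (t : ℂ) (i : Fin n → κ) :
    eval t (act M (tP φ) i) = act (M.map (fun f => eval t f)) φ i := by
  simp only [act, tP, eval_finsetSum, eval_mul, eval_prod, eval_C, Matrix.map_apply]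

omit [DecidableEq κ] in
theorem der_tP (X : Matrix κ κ ℂ) (φ : Tens ℂ κ n) :
    der (X.map (fun c => (C c : ℂ[X]))) (tP φ) = tP (der X φ) := by
  funext i
  simp only [der, tP, Matrix.map_apply, map_sum, map_mul]

omit [DecidableEq κ] in
theorem unique (X : Matrix κ κ ℂ) (q r : ℂ[X]) (hq : q.coeff 0 ≠ 0) (f : Tens ℂ[X] κ n)
    (h0 : ∀ i, (f i).coeff 0 = 0)
    (h : ∀ i, q * derivative (f i) = der (X.map (fun c => (C c : ℂ[X]))) f i + r * f i) :
    ∀ m i, (f i).coeff m = 0 := by
  intro m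
  induction m using Nat.strong_induction_on with
  | _ m ih =>
    intro i
    cases m with
    | zero => exact h0 i
    | succ m =>
      have h1 := congrArg (fun g => coeff g m) (h i)
      simp only [coeff_add] at h1
      have hL : (q * derivative (f i)).coeff m =
          q.coeff 0 * ((f i).coeff (m + 1) * ((m : ℂ) + 1)) := by
        rw [coeff_mul, Finset.sum_eq_single (0, m)]
        · rw [coeff_derivative]
        · rintro ⟨a, b⟩ hab hne
          have hab' : a + b = m := Finset.HasAntidiagonal.mem_antidiagonal.1 hab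
          have hb : b < m := by
            rcases Nat.eq_zero_or_pos a with ha | ha
            · exfalso
              apply hne
              subst ha
              rw [Prod.mk.injEq]
              exact ⟨rfl, by omega⟩
            · omega
          rw [coeff_derivative, ih (b + 1) (by omega) i, zero_mul, mul_zero]
        · intro hmem
          exact absurd (Finset.HasAntidiagonal.mem_antidiagonal.2 (Nat.zero_add m)) hmem
      have hR1 : (der (X.map (fun c => (C c : ℂ[X]))) f i).coeff m = 0 := by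
        simp only [der, finsetSum_coeff]
        refine Finset.sum_eq_zero fun p _ => Finset.sum_eq_zero fun k _ => ?_
        rw [Matrix.map_apply, coeff_C_mul, ih m (by omega), mul_zero]
      have hR2 : (r * f i).coeff m = 0 := by
        rw [coeff_mul]
        refine Finset.sum_eq_zero fun z hz => ?_
        have hz' : z.1 + z.2 = m := Finset.HasAntidiagonal.mem_antidiagonal.1 hz
        rw [ih z.2 (by omega), mul_zero]
      rw [hL, hR1, hR2, add_zero] at h1
      have h2 : (m : ℂ) + 1 ≠ 0 := Nat.cast_add_one_ne_zero m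
      rcases mul_eq_zero.1 h1 with h3 | h3
      · exact absurd h3 hq
      · rcases mul_eq_zero.1 h3 with h4 | h4
        · exact h4
        · exact absurd h4 h2

end

section
open Polynomial

variable {ι : Type} [Fintype ι] [DecidableEq ι]

/-- the segment from `x` to `y` -/
noncomputable def seg (x y : ι → ℂ) : ι → ℂ[X] := fun a => C (x a) + X * (C (y a) - C (x a))

/-- the values of the form on the segment -/
noncomputable def fA (B : Matrix ι ι ℂ) (x y : ι → ℂ) : ℂ[X] :=
  C (x ⬝ᵥ B *ᵥ x) + X * (C (x ⬝ᵥ B *ᵥ y) - C (x ⬝ᵥ B *ᵥ x))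

noncomputable def fG (B : Matrix ι ι ℂ) (x y : ι → ℂ) : ℂ[X] :=
  C (x ⬝ᵥ B *ᵥ y) + X * (C (y ⬝ᵥ B *ᵥ y) - C (x ⬝ᵥ B *ᵥ y))

noncomputable def fq (B : Matrix ι ι ℂ) (x y : ι → ℂ) : ℂ[X] :=
  (1 - X) * fA B x y + X * fG B x y

omit [DecidableEq ι] in
theorem seg_dot (x y z : ι → ℂ) :
    ∑ c, seg x y c * C (z c) = C (x ⬝ᵥ z) + X * (C (y ⬝ᵥ z) - C (x ⬝ᵥ z)) := by
  simp only [seg, dotProduct, map_sum, map_mul, add_mul, Finset.sum_add_distrib, mul_assoc,
    ← Finset.mul_sum, sub_mul, Finset.sum_sub_distrib]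

omit [DecidableEq ι] in
theorem symm_dot {B : Matrix ι ι ℂ} (hB : Bᵀ = B) (x y : ι → ℂ) :
    (B *ᵥ x) ⬝ᵥ y = x ⬝ᵥ B *ᵥ y := by
  rw [Matrix.dotProduct_mulVec, ← Matrix.mulVec_transpose, hB]

/-- the block of `M` on `V₀` -/
noncomputable def M0 (B : Matrix ι ι ℂ) (x y : ι → ℂ) : Matrix ι ι ℂ[X] :=
  fq B x y • (1 : Matrix ι ι ℂ[X]) -
    (2 : ℂ[X]) • vecMulVec (seg x y) (seg (B *ᵥ x) (B *ᵥ y))

omit [Fintype ι] [DecidableEq ι] in
theorem deriv_seg (x y : ι → ℂ) (a : ι) :
    derivative (seg x y a) = C (y a) - C (x a) := by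
  simp only [seg, derivative_add, derivative_mul, derivative_C, derivative_X, derivative_sub]
  ring

omit [DecidableEq ι] in
theorem deriv_fq (B : Matrix ι ι ℂ) (x y : ι → ℂ) :
    derivative (fq B x y) = 2 * (fG B x y - fA B x y) := by
  simp only [fq, fA, fG, derivative_add, derivative_mul, derivative_C, derivative_X,
    derivative_sub, derivative_one]
  ring

theorem key0 {B : Matrix ι ι ℂ} (hB : Bᵀ = B) (x y : ι → ℂ) :
    fq B x y • (M0 B x y).map (fun f => derivative f) +
        M0 B x y * (wedge B x y).map (fun c => (C c : ℂ[X])) =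
      (wedge B x y).map (fun c => (C c : ℂ[X])) * M0 B x y +
        derivative (fq B x y) • M0 B x y := by
  have s1 : ∑ c, seg (B *ᵥ x) (B *ᵥ y) c * C (y c) = fG B x y := by
    rw [seg_dot, symm_dot hB, symm_dot hB]; rfl
  have s2 : ∑ c, seg (B *ᵥ x) (B *ᵥ y) c * C (x c) = fA B x y := by
    rw [seg_dot, symm_dot hB, symm_dot hB, ← symm_dot hB y x, dotProduct_comm (B *ᵥ y) x]; rfl
  have s3 : ∑ c, seg x y c * C ((B *ᵥ x) c) = fA B x y := by
    rw [seg_dot, ← symm_dot hB y x, dotProduct_comm (B *ᵥ y) x]; rfl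
  have s4 : ∑ c, seg x y c * C ((B *ᵥ y) c) = fG B x y := by
    rw [seg_dot]; rfl
  have h1 : ∀ a b, (M0 B x y * (wedge B x y).map (fun c => (C c : ℂ[X]))) a b =
      fq B x y * (C (y a) * C ((B *ᵥ x) b) - C (x a) * C ((B *ᵥ y) b)) -
        2 * seg x y a * (fG B x y * C ((B *ᵥ x) b) - fA B x y * C ((B *ᵥ y) b)) := by
    intro a b
    rw [Matrix.mul_apply, ← s1, ← s2]
    have e1 : ∀ c, M0 B x y a c * ((wedge B x y).map (fun c => (C c : ℂ[X]))) c b =
        (if a = c then fq B x y * (C (y c) * C ((B *ᵥ x) b) - C (x c) * C ((B *ᵥ y) b)) else 0) -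
        (2 * seg x y a * C ((B *ᵥ x) b) * (seg (B *ᵥ x) (B *ᵥ y) c * C (y c)) -
          2 * seg x y a * C ((B *ᵥ y) b) * (seg (B *ᵥ x) (B *ᵥ y) c * C (x c))) := by
      intro c
      simp only [M0, wedge, Matrix.sub_apply, Matrix.smul_apply, Matrix.map_apply,
        Matrix.vecMulVec_apply, smul_eq_mul, map_sub, map_mul, Matrix.one_apply]
      split_ifs <;> ring
    rw [Finset.sum_congr rfl fun c _ => e1 c, Finset.sum_sub_distrib, Finset.sum_sub_distrib,
      ← Finset.mul_sum, ← Finset.mul_sum, Finset.sum_ite_eq, if_pos (Finset.mem_univ a)]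
    ring
  have h2 : ∀ a b, ((wedge B x y).map (fun c => (C c : ℂ[X])) * M0 B x y) a b =
      fq B x y * (C (y a) * C ((B *ᵥ x) b) - C (x a) * C ((B *ᵥ y) b)) -
        2 * seg (B *ᵥ x) (B *ᵥ y) b * (fA B x y * C (y a) - fG B x y * C (x a)) := by
    intro a b
    rw [Matrix.mul_apply, ← s3, ← s4]
    have e1 : ∀ c, ((wedge B x y).map (fun c => (C c : ℂ[X]))) a c * M0 B x y c b =
        (if b = c then fq B x y * (C (y a) * C ((B *ᵥ x) c) - C (x a) * C ((B *ᵥ y) c)) else 0) -
        (2 * seg (B *ᵥ x) (B *ᵥ y) b * C (y a) * (seg x y c * C ((B *ᵥ x) c)) -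
          2 * seg (B *ᵥ x) (B *ᵥ y) b * C (x a) * (seg x y c * C ((B *ᵥ y) c))) := by
      intro c
      simp only [M0, wedge, Matrix.sub_apply, Matrix.smul_apply, Matrix.map_apply,
        Matrix.vecMulVec_apply, smul_eq_mul, map_sub, map_mul, Matrix.one_apply]
      by_cases hbc : b = c
      · rw [if_pos hbc.symm, if_pos hbc]; ring
      · rw [if_neg (fun h => hbc h.symm), if_neg hbc]; ring
    rw [Finset.sum_congr rfl fun c _ => e1 c, Finset.sum_sub_distrib, Finset.sum_sub_distrib,
      ← Finset.mul_sum, ← Finset.mul_sum, Finset.sum_ite_eq, if_pos (Finset.mem_univ b)]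
    ring
  ext1 a b
  rw [Matrix.add_apply, Matrix.add_apply, h1, h2, Matrix.smul_apply, Matrix.smul_apply,
    Matrix.map_apply, smul_eq_mul, smul_eq_mul]
  simp only [M0, Matrix.sub_apply, Matrix.smul_apply, Matrix.vecMulVec_apply, smul_eq_mul,
    Matrix.one_apply, derivative_sub, derivative_mul, deriv_seg, deriv_fq]
  have h3 : derivative (2 : ℂ[X]) = 0 := by
    have : (2 : ℂ[X]) = C 2 := (map_ofNat C 2).symm
    rw [this, derivative_C]
  have h4 : derivative (if a = b then (1 : ℂ[X]) else 0) = 0 := by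
    split_ifs <;> simp
  rw [h3, h4]
  have h5 : fq B x y = (1 - X) * fA B x y + X * fG B x y := rfl
  rw [h5]
  simp only [seg]
  ring

/-- the matrix on `V` -/
noncomputable def MM (g : ℕ) (B : Matrix ι ι ℂ) (x y : ι → ℂ) : Matrix (Idx ι g) (Idx ι g) ℂ[X] :=
  fromBlocks (M0 B x y) 0 0 (fq B x y • (1 : Matrix (Fin g ⊕ Fin g) (Fin g ⊕ Fin g) ℂ[X]))

theorem key (g : ℕ) {B : Matrix ι ι ℂ} (hB : Bᵀ = B) (x y : ι → ℂ) :
    fq B x y • (MM g B x y).map (fun f => derivative f) +
        MM g B x y * (ext0 g (wedge B x y)).map (fun c => (C c : ℂ[X])) =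
      (ext0 g (wedge B x y)).map (fun c => (C c : ℂ[X])) * MM g B x y +
        derivative (fq B x y) • MM g B x y := by
  have e1 : (ext0 g (wedge B x y)).map (fun c => (C c : ℂ[X])) =
      fromBlocks ((wedge B x y).map (fun c => (C c : ℂ[X]))) 0 0 0 := by
    rw [ext0, Matrix.fromBlocks_map]
    refine Matrix.fromBlocks_inj.2 ⟨rfl, ?_, ?_, ?_⟩ <;> (ext1 a b; simp)
  have e2 : (MM g B x y).map (fun f => derivative f) =
      fromBlocks ((M0 B x y).map (fun f => derivative f)) 0 0
        (derivative (fq B x y) • (1 : Matrix (Fin g ⊕ Fin g) (Fin g ⊕ Fin g) ℂ[X])) := by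
    rw [MM, Matrix.fromBlocks_map]
    refine Matrix.fromBlocks_inj.2 ⟨rfl, ?_, ?_, ?_⟩
    · ext1 a b; simp
    · ext1 a b; simp
    · ext1 a b
      simp only [Matrix.map_apply, Matrix.smul_apply, smul_eq_mul, Matrix.one_apply]
      split_ifs <;> simp
  rw [e1, e2, MM, Matrix.fromBlocks_multiply, Matrix.fromBlocks_multiply,
    Matrix.fromBlocks_smul, Matrix.fromBlocks_smul, Matrix.fromBlocks_add, Matrix.fromBlocks_add]
  refine Matrix.fromBlocks_inj.2 ⟨?_, ?_, ?_, ?_⟩
  · simpa using key0 hB x y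
  · simp
  · simp
  · simp only [Matrix.mul_zero, Matrix.zero_mul, add_zero, zero_add, smul_smul]
    rw [mul_comm]

theorem eval_MM_zero (g : ℕ) (B : Matrix ι ι ℂ) (x y : ι → ℂ) (hx : x ⬝ᵥ B *ᵥ x ≠ 0) :
    (MM g B x y).map (fun f => eval 0 f) = (x ⬝ᵥ B *ᵥ x) • ext1 g (refl B x) := by
  rw [MM, Matrix.fromBlocks_map, ext1, Matrix.fromBlocks_smul]
  refine Matrix.fromBlocks_inj.2 ⟨?_, ?_, ?_, ?_⟩
  · ext1 a b
    simp only [M0, fq, fA, fG, seg, refl, Matrix.map_apply, Matrix.sub_apply, Matrix.smul_apply,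
      Matrix.vecMulVec_apply, smul_eq_mul, Matrix.one_apply]
    split_ifs <;> simp <;> field_simp
  · ext1 a b; simp
  · ext1 a b; simp
  · ext1 a b
    simp only [fq, fA, fG, Matrix.map_apply, Matrix.smul_apply, smul_eq_mul, Matrix.one_apply]
    split_ifs <;> simp

theorem eval_MM_one (g : ℕ) (B : Matrix ι ι ℂ) (x y : ι → ℂ) (hy : y ⬝ᵥ B *ᵥ y ≠ 0) :
    (MM g B x y).map (fun f => eval 1 f) = (y ⬝ᵥ B *ᵥ y) • ext1 g (refl B y) := by
  rw [MM, Matrix.fromBlocks_map, ext1, Matrix.fromBlocks_smul]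
  refine Matrix.fromBlocks_inj.2 ⟨?_, ?_, ?_, ?_⟩
  · ext1 a b
    simp only [M0, fq, fA, fG, seg, refl, Matrix.map_apply, Matrix.sub_apply, Matrix.smul_apply,
      Matrix.vecMulVec_apply, smul_eq_mul, Matrix.one_apply]
    split_ifs <;> simp <;> field_simp
  · ext1 a b; simp
  · ext1 a b; simp
  · ext1 a b
    simp only [fq, fA, fG, Matrix.map_apply, Matrix.smul_apply, smul_eq_mul, Matrix.one_apply]
    split_ifs <;> simp

end

end REF

open Polynomial in
theorem stmt_REF : Stmt_REF := by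
  intro ι _ _ g n B hB φ x y hx hy hder hact
  obtain ⟨q, hq⟩ : ∃ q, q = REF.fq B x y := ⟨_, rfl⟩
  obtain ⟨M, hM⟩ : ∃ M, M = REF.MM g B x y := ⟨_, rfl⟩
  obtain ⟨W, hW⟩ : ∃ W, W = ext0 g (wedge B x y) := ⟨_, rfl⟩
  have hq0 : q.coeff 0 = x ⬝ᵥ B *ᵥ x := by
    rw [hq, coeff_zero_eq_eval_zero]
    simp [REF.fq, REF.fA, REF.fG]
  have hq1 : eval 1 q = y ⬝ᵥ B *ᵥ y := by
    rw [hq]
    simp [REF.fq, REF.fA, REF.fG]
  have hkey := REF.key g hB x y
  rw [← hq, ← hM, ← hW] at hkey
  rw [← hW] at hder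
  obtain ⟨f, hf⟩ : ∃ f : Tens ℂ[X] (Idx ι g) n,
      f = fun i => act M (REF.tP φ) i - q ^ n * C (φ i) := ⟨_, rfl⟩
  have hderP : der (W.map (fun c => (C c : ℂ[X]))) (REF.tP φ) = 0 := by
    rw [REF.der_tP, hder]
    funext i
    simp [REF.tP]
  have h0 : ∀ i, (f i).coeff 0 = 0 := by
    intro i
    rw [coeff_zero_eq_eval_zero, hf]
    simp only [eval_sub, eval_mul, eval_pow, eval_C]
    rw [REF.eval_act, hM, REF.eval_MM_zero g B x y hx, REF.act_smul_left, hact,
      ← coeff_zero_eq_eval_zero, hq0, Pi.smul_apply, smul_eq_mul, sub_self]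
  have hmain : ∀ i, q * derivative (f i) =
      der (W.map (fun c => (C c : ℂ[X]))) f i + ((n : ℂ[X]) * derivative q) * f i := by
    intro i
    have e1 : REF.actp M (q • M.map (fun f => derivative f)) (REF.tP φ) +
        act M (der (W.map (fun c => (C c : ℂ[X]))) (REF.tP φ)) =
        der (W.map (fun c => (C c : ℂ[X]))) (act M (REF.tP φ)) +
        derivative q • ((n : ℂ[X]) • act M (REF.tP φ)) := by
      rw [← REF.actp_right, ← REF.actp_add, hkey, REF.actp_add, REF.actp_left, REF.actp_smul,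
        REF.actp_self]
    rw [hderP, act_zero, add_zero, REF.actp_smul] at e1
    have e2 := congrFun e1 i
    simp only [Pi.add_apply, Pi.smul_apply, smul_eq_mul] at e2
    have e3 : der (W.map (fun c => (C c : ℂ[X]))) f =
        der (W.map (fun c => (C c : ℂ[X]))) (act M (REF.tP φ)) := by
      have h1 : f = act M (REF.tP φ) - q ^ n • REF.tP φ := by
        rw [hf]
        funext i
        simp [REF.tP]
      rw [h1, der_sub_right, der_smul_right, hderP, smul_zero, sub_zero]
    have e4 : q * derivative (q ^ n * C (φ i)) = (n : ℂ[X]) * derivative q * (q ^ n * C (φ i)) := by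
      rw [derivative_mul, derivative_C, mul_zero, add_zero, derivative_pow]
      cases n with
      | zero => simp
      | succ n =>
        simp only [Nat.add_sub_cancel, pow_succ]
        push_cast
        simp only [map_add, map_natCast, map_one]
        ring
    rw [e3]
    have e5 : f i = act M (REF.tP φ) i - q ^ n * C (φ i) := by rw [hf]
    rw [e5, derivative_sub, mul_sub, e4, REF.deriv_act, e2]
    ring
  have hz := REF.unique W q _ (by rw [hq0]; exact hx) f h0 hmain
  have hfz : ∀ i, f i = 0 := fun i => by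
    ext m
    rw [hz m i, coeff_zero]
  have hfin : ∀ i, (y ⬝ᵥ B *ᵥ y) ^ n * act (ext1 g (refl B y)) φ i =
      (y ⬝ᵥ B *ᵥ y) ^ n * φ i := by
    intro i
    have e1 := congrArg (fun p => eval 1 p) (hfz i)
    rw [hf] at e1
    simp only [eval_sub, eval_mul, eval_pow, eval_C, eval_zero] at e1
    rw [REF.eval_act, hM, REF.eval_MM_one g B x y hy, REF.act_smul_left, hq1, Pi.smul_apply,
      smul_eq_mul] at e1
    exact sub_eq_zero.1 e1
  funext i
  exact mul_left_cancel₀ (pow_ne_zero n hy) (hfin i)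

end Pool.Agent.Work.T3
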