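import Pool.Agent.Work.MP_298761_T3.Base

/-! T3: block RIG (rigidity: a subspace killed at one point is killed everywhere). -/

namespace Pool.Agent.Work.T3

open Matrix

namespace RIG

set_option linter.unusedSectionVars false

variable {ι : Type} [Fintype ι] [DecidableEq ι]

/-- the complexification of a real matrix -/
noncomputable def cm (A : Matrix ι ι ℝ) : Matrix ι ι ℂ := A.map (fun x : ℝ => (x : ℂ))

theorem cm_eq (A : Matrix ι ι ℝ) : cm A = A.map Complex.ofRealHom := rfl

theorem cm_mul (A B : Matrix ι ι ℝ) : cm (A * B) = cm A * cm B := by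
  rw [cm_eq, cm_eq, cm_eq, Matrix.map_mul]

theorem cm_add (A B : Matrix ι ι ℝ) : cm (A + B) = cm A + cm B := by
  ext i j
  simp [cm]

theorem cm_zero : cm (0 : Matrix ι ι ℝ) = 0 := by
  ext i j
  simp [cm]

theorem cm_smul_one (c : ℝ) : cm (c • (1 : Matrix ι ι ℝ)) = (c : ℂ) • (1 : Matrix ι ι ℂ) := by
  ext i j
  by_cases h : i = j
  · subst h; simp [cm]
  · simp [cm, h]

theorem continuous_cm : Continuous (cm : Matrix ι ι ℝ → Matrix ι ι ℂ) :=
  Continuous.matrix_map continuous_id Complex.continuous_ofReal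

/-- the second factor of the polynomial -/
noncomputable def G (m : ℕ) : Polynomial ℝ :=
  ∏ k ∈ Finset.range m, (Polynomial.X ^ 2 + Polynomial.C (((k : ℝ) + 1) ^ 2))

theorem coeff_ne (m : ℕ) : (G m).coeff 0 ≠ 0 := by
  rw [Polynomial.coeff_zero_eq_eval_zero, G, Polynomial.eval_prod]
  refine Finset.prod_ne_zero_iff.mpr fun k _ => ?_
  simp only [Polynomial.eval_add, Polynomial.eval_pow, Polynomial.eval_X, Polynomial.eval_C]
  positivity

/-- a stable subspace is stable under polynomials -/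
theorem stable (A : Matrix ι ι ℝ) (W : Submodule ℂ (ι → ℂ)) (h : ∀ w ∈ W, cm A *ᵥ w ∈ W)
    (p : Polynomial ℝ) : ∀ w ∈ W, cm (Polynomial.aeval A p) *ᵥ w ∈ W := by
  induction p using Polynomial.induction_on' with
  | add p q hp hq =>
    intro w hw
    rw [map_add, cm_add, Matrix.add_mulVec]
    exact W.add_mem (hp w hw) (hq w hw)
  | monomial k a =>
    have hpow : ∀ k : ℕ, ∀ w ∈ W, cm (A ^ k) *ᵥ w ∈ W := by
      intro k
      induction k with
      | zero =>
        intro w hw
        have : cm (A ^ 0) = 1 := by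
          have := cm_smul_one (ι := ι) 1
          simpa using this
        rw [this, Matrix.one_mulVec]
        exact hw
      | succ k ih =>
        intro w hw
        rw [pow_succ, cm_mul, ← Matrix.mulVec_mulVec]
        exact ih _ (h w hw)
    intro w hw
    have e : Polynomial.aeval A (Polynomial.monomial k a) = (a • (1 : Matrix ι ι ℝ)) * A ^ k := by
      rw [Polynomial.aeval_monomial, Algebra.algebraMap_eq_smul_one]
    rw [e, cm_mul, cm_smul_one, ← Matrix.mulVec_mulVec, Matrix.smul_mulVec, Matrix.one_mulVec]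
    exact W.smul_mem _ (hpow k w hw)

/-- where `A` vanishes, a polynomial in `A` acts as its constant term -/
theorem poly_of_zero (A : Matrix ι ι ℝ) (p : Polynomial ℝ) (w : ι → ℂ) (h : cm A *ᵥ w = 0) :
    cm (Polynomial.aeval A p) *ᵥ w = (p.coeff 0 : ℂ) • w := by
  conv_lhs => rw [← Polynomial.divX_mul_X_add p]
  rw [map_add, map_mul, Polynomial.aeval_X, Polynomial.aeval_C, Algebra.algebraMap_eq_smul_one,
    cm_add, cm_mul, cm_smul_one, Matrix.add_mulVec, ← Matrix.mulVec_mulVec, h, Matrix.mulVec_zero,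
    zero_add, Matrix.smul_mulVec, Matrix.one_mulVec]

end RIG

theorem stmt_RIG : Stmt_RIG := by
  intro S ι _ _ _ _ J m hJ hpoly o W hstab ho
  have key : ∀ s, RIG.cm (J s) * RIG.cm (Polynomial.aeval (J s) (RIG.G m)) = 0 := by
    intro s
    have := hpoly s
    rw [map_mul, Polynomial.aeval_X] at this
    rw [← RIG.cm_mul]
    have h2 : J s * Polynomial.aeval (J s) (RIG.G m) = 0 := this
    rw [h2, RIG.cm_zero]
  obtain ⟨f, hf⟩ := LinearMap.exists_leftInverse_of_injective W.subtype (by simp)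
  set Pm : Matrix ι ι ℂ := LinearMap.toMatrix' (W.subtype ∘ₗ f) with hPm
  have hPmmem : ∀ v, Pm *ᵥ v ∈ W := by
    intro v
    rw [hPm, LinearMap.toMatrix'_mulVec]
    exact (f v).2
  have hPmid : ∀ w ∈ W, Pm *ᵥ w = w := by
    intro w hw
    rw [hPm, LinearMap.toMatrix'_mulVec]
    have h2 := congrArg (fun F => F ⟨w, hw⟩) hf
    simp only [LinearMap.coe_comp, Function.comp_apply, Submodule.coe_subtype,
      LinearMap.id_coe, id_eq] at h2 ⊢
    rw [h2]
  set c : ℂ := ((RIG.G m).coeff 0 : ℂ) with hc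
  have hc0 : c ≠ 0 := by
    rw [hc]
    exact_mod_cast RIG.coeff_ne m
  set P : S → Matrix ι ι ℂ := fun s => RIG.cm (Polynomial.aeval (J s) (RIG.G m)) with hP
  set M : S → Matrix ι ι ℂ := fun s => P s * Pm + c • (1 - Pm) with hM
  have hPcont : Continuous P :=
    RIG.continuous_cm.comp ((Polynomial.continuous_aeval (A := Matrix ι ι ℝ) (RIG.G m)).comp hJ)
  have hMcont : Continuous M := (hPcont.matrix_mul continuous_const).add continuous_const
  have hJc : Continuous fun s => RIG.cm (J s) := RIG.continuous_cm.comp hJ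
  set U : Set S := {s | ∀ w ∈ W, RIG.cm (J s) *ᵥ w = 0} with hU
  have h1 : ∀ s ∈ U, (M s).det ≠ 0 := by
    intro s hs
    have : M s = c • 1 := by
      have h3 : P s * Pm = c • Pm := by
        apply Matrix.toLin'.injective
        apply LinearMap.ext
        intro v
        rw [Matrix.toLin'_apply, Matrix.toLin'_apply, ← Matrix.mulVec_mulVec, Matrix.smul_mulVec]
        exact RIG.poly_of_zero (J s) (RIG.G m) _ (hs _ (hPmmem v))
      rw [hM]
      simp only
      rw [h3, smul_sub]
      abel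
    rw [this, Matrix.det_smul, Matrix.det_one, mul_one]
    exact pow_ne_zero _ hc0
  have h2 : ∀ s, (M s).det ≠ 0 → s ∈ U := by
    intro s hs w hw
    have hu : IsUnit (M s).det := isUnit_iff_ne_zero.mpr hs
    set v := (M s)⁻¹ *ᵥ w with hv
    have hw2 : M s *ᵥ v = w := by
      rw [hv, Matrix.mulVec_mulVec, Matrix.mul_nonsing_inv _ hu, Matrix.one_mulVec]
    have hexp : M s *ᵥ v = P s *ᵥ (Pm *ᵥ v) + c • (v - Pm *ᵥ v) := by
      rw [hM]
      simp only
      rw [Matrix.add_mulVec, ← Matrix.mulVec_mulVec, Matrix.smul_mulVec, Matrix.sub_mulVec,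
        Matrix.one_mulVec]
    have hPW : P s *ᵥ (Pm *ᵥ v) ∈ W := RIG.stable (J s) W (hstab s) (RIG.G m) _ (hPmmem v)
    have hcW : c • (v - Pm *ᵥ v) ∈ W := by
      have : c • (v - Pm *ᵥ v) = w - P s *ᵥ (Pm *ᵥ v) := by
        rw [← hw2, hexp]
        abel
      rw [this]
      exact W.sub_mem hw hPW
    have hvW : v - Pm *ᵥ v ∈ W := by
      have := W.smul_mem c⁻¹ hcW
      rwa [smul_smul, inv_mul_cancel₀ hc0, one_smul] at this
    have hvW2 : v ∈ W := by
      have := W.add_mem hvW (hPmmem v)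
      rwa [sub_add_cancel] at this
    have hz : v - Pm *ᵥ v = 0 := by rw [hPmid v hvW2, sub_self]
    have hfin : w = P s *ᵥ (Pm *ᵥ v) := by
      rw [← hw2, hexp, hz, smul_zero, add_zero]
    rw [hfin, Matrix.mulVec_mulVec, key s, Matrix.zero_mulVec]
  have hUeq : U = {s | (M s).det ≠ 0} := Set.ext fun s => ⟨h1 s, h2 s⟩
  have hopen : IsOpen U := by
    rw [hUeq]
    exact isOpen_ne.preimage hMcont.matrix_det
  have hclosed : IsClosed U := by
    have : U = ⋂ w ∈ W, {s | RIG.cm (J s) *ᵥ w = 0} := by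
      ext s
      simp [hU]
    rw [this]
    refine isClosed_biInter fun w _ => ?_
    exact isClosed_eq (hJc.matrix_mulVec continuous_const) continuous_const
  have huniv : U = Set.univ := IsClopen.eq_univ ⟨hclosed, hopen⟩ ⟨o, ho⟩
  intro s
  have : s ∈ U := by rw [huniv]; exact Set.mem_univ s
  exact this

end Pool.Agent.Work.T3
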