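import Pool.Agent.Work.MP_298761_T3.Base

/-! T3 (MP_298761_ag): block TRA (helper79). The first fundamental theorem in the coordinates of
`V`. -/

namespace Pool.Agent.Work.T3

open Matrix

namespace TRA

/-! ### linear algebra -/

section
variable {κ κ' : Type} [Fintype κ] [Fintype κ'] [DecidableEq κ] [DecidableEq κ']

theorem conj {P : Matrix κ κ' ℂ} {Q : Matrix κ' κ ℂ} (hPQ : P * Q = 1) (hQP : Q * P = 1)
    {W : Matrix κ κ ℂ} {X : Matrix κ' κ' ℂ} (h : W * P = P * X) : X * Q = Q * W := by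
  calc X * Q = (Q * P) * X * Q := by rw [hQP, Matrix.one_mul]
    _ = Q * (P * X) * Q := by rw [Matrix.mul_assoc Q P X]
    _ = Q * (W * P) * Q := by rw [h]
    _ = Q * (W * (P * Q)) := by rw [Matrix.mul_assoc Q, Matrix.mul_assoc W]
    _ = Q * W := by rw [hPQ, Matrix.mul_one]

end

/-! ### real linear forms -/

section
variable {κ : Type} [Fintype κ] {n : ℕ}

theorem lin_mul (L : ℂ →ₗ[ℝ] ℝ) (x : ℝ) (z : ℂ) : L ((x : ℂ) * z) = x * L z := by
  rw [← Complex.real_smul, map_smul, smul_eq_mul]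

theorem lin_der (L : ℂ →ₗ[ℝ] ℝ) (X : Matrix κ κ ℝ) (φ : Tens ℂ κ n)
    (h : der (X.map (fun x : ℝ => (x : ℂ))) φ = 0) : der X (fun i => L (φ i)) = 0 := by
  funext i
  have h1 := congrFun h i
  have h2 : L (der (X.map (fun x : ℝ => (x : ℂ))) φ i) = 0 := by
    rw [h1]
    exact map_zero L
  have h3 : L (der (X.map (fun x : ℝ => (x : ℂ))) φ i) = der X (fun i => L (φ i)) i := by
    simp only [der]
    rw [map_sum]
    refine Finset.sum_congr rfl fun p _ => ?_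
    rw [map_sum]
    refine Finset.sum_congr rfl fun k _ => ?_
    rw [Matrix.map_apply, lin_mul]
  rw [← h3, h2]
  rfl

theorem lin_diag [DecidableEq κ] (L : ℂ →ₗ[ℝ] ℝ) (d : κ → ℝ) (φ : Tens ℂ κ n)
    (h : act (Matrix.diagonal (fun k => (d k : ℂ))) φ = φ) :
    act (Matrix.diagonal d) (fun i => L (φ i)) = (fun i => L (φ i)) := by
  funext i
  have h1 := congrFun h i
  rw [act_diagonal] at h1 ⊢
  have h2 : (∏ p, (d (i p) : ℂ)) = ((∏ p, d (i p) : ℝ) : ℂ) := by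
    rw [Complex.ofReal_prod]
  rw [h2] at h1
  have h3 := congrArg L h1
  rw [lin_mul] at h3
  exact h3

omit [Fintype κ] in
theorem decomp (φ : Tens ℂ κ n) :
    φ = (fun i => ((Complex.reLm (φ i) : ℝ) : ℂ)) +
      Complex.I • (fun i => ((Complex.imLm (φ i) : ℝ) : ℂ)) := by
  funext i
  rw [Pi.add_apply, Pi.smul_apply, smul_eq_mul]
  show φ i = ((φ i).re : ℂ) + Complex.I * ((φ i).im : ℂ)
  rw [mul_comm]
  exact (Complex.re_add_im (φ i)).symm

end

/-! ### the matrices -/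

section
variable {ι : Type} [Fintype ι] [DecidableEq ι] {m r : ℕ}

/-- the data of the basis -/
structure Dat (B : Matrix ι ι ℚ) (N : Submodule ℚ (ι → ℚ))
    (P : Matrix ι (Fin m ⊕ Fin r) ℂ) (Q : Matrix (Fin m ⊕ Fin r) ι ℂ)
    (G : Matrix (Fin r) (Fin r) ℂ) (v : Fin r → ι → ℚ) : Prop where
  pq : P * Q = 1
  qp : Q * P = 1
  vN : ∀ f, v f ∈ N
  pv : ∀ f i, P i (Sum.inr f) = (v f i : ℂ)
  eN : ∀ a, ∀ w ∈ N, vC w ⬝ᵥ mC B *ᵥ (fun i => P i (Sum.inl a)) = 0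
  ee : ∀ a b, (fun i => P i (Sum.inl a)) ⬝ᵥ mC B *ᵥ (fun i => P i (Sum.inl b)) =
        if a = b then 1 else 0
  gg : P * (fromBlocks 1 0 0 G : Matrix (Fin m ⊕ Fin r) (Fin m ⊕ Fin r) ℂ) * Pᵀ = mC (B⁻¹)

variable {B : Matrix ι ι ℚ} {N : Submodule ℚ (ι → ℚ)} {P : Matrix ι (Fin m ⊕ Fin r) ℂ}
  {Q : Matrix (Fin m ⊕ Fin r) ι ℂ} {G : Matrix (Fin r) (Fin r) ℂ} {v : Fin r → ι → ℚ}

theorem row (D : Dat B N P Q G v) (a : Fin m) :
    (mC B *ᵥ (fun i => P i (Sum.inl a))) ᵥ* P = Pi.single (Sum.inl a) 1 := by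
  funext k
  rcases k with c | f
  · have h1 := D.ee c a
    have h2 : ((mC B *ᵥ (fun i => P i (Sum.inl a))) ᵥ* P) (Sum.inl c) =
        (fun i => P i (Sum.inl c)) ⬝ᵥ mC B *ᵥ (fun i => P i (Sum.inl a)) := by
      rw [dotProduct_comm]
      rfl
    rw [h2, h1]
    by_cases h : c = a
    · subst h
      rw [if_pos rfl, Pi.single_eq_same]
    · rw [if_neg h, Pi.single_eq_of_ne]
      intro h'
      exact h (Sum.inl_injective h')
  · have h1 := D.eN a (v f) (D.vN f)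
    have h2 : ((mC B *ᵥ (fun i => P i (Sum.inl a))) ᵥ* P) (Sum.inr f) =
        vC (v f) ⬝ᵥ mC B *ᵥ (fun i => P i (Sum.inl a)) := by
      rw [dotProduct_comm]
      show (mC B *ᵥ (fun i => P i (Sum.inl a))) ⬝ᵥ (fun i => P i (Sum.inr f)) = _
      have h3 : (fun i => P i (Sum.inr f)) = vC (v f) := by
        funext i
        exact D.pv f i
      rw [h3]
    rw [h2, h1, Pi.single_eq_of_ne]
    exact fun h => nomatch h

theorem wedge_mul (D : Dat B N P Q G v) (a b : Fin m) :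
    wedge (mC B) (fun i => P i (Sum.inl b)) (fun i => P i (Sum.inl a)) * P =
      P * (Matrix.single (Sum.inl a) (Sum.inl b) (1 : ℂ) -
        Matrix.single (Sum.inl b) (Sum.inl a) (1 : ℂ)) := by
  unfold wedge
  rw [Matrix.sub_mul, vecMulVec_mul, vecMulVec_mul, row D, row D]
  refine Eq.trans ?_ (Matrix.mul_sub P _ _).symm
  have h1 : ∀ a b : Fin m, vecMulVec (fun i => P i (Sum.inl a)) (Pi.single (Sum.inl b) 1) =
      P * (Matrix.single (Sum.inl a : Fin m ⊕ Fin r) (Sum.inl b : Fin m ⊕ Fin r) (1 : ℂ)) := by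
    intro a b
    ext i k
    rw [vecMulVec_apply]
    by_cases h : k = Sum.inl b
    · subst h
      rw [Pi.single_eq_same, mul_one, mul_single_apply_same, mul_one]
    · rw [Pi.single_eq_of_ne h, mul_zero, mul_single_apply_of_ne _ _ _ _ _ h]
  exact congrArg₂ (fun x y : Matrix ι (Fin m ⊕ Fin r) ℂ => x - y) (h1 a b) (h1 b a)

theorem refl_mul (D : Dat B N P Q G v) (a : Fin m) :
    refl (mC B) (fun i => P i (Sum.inl a)) * P =
      P * Matrix.diagonal (fun k : Fin m ⊕ Fin r => if k = Sum.inl a then (-1 : ℂ) else 1) := by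
  unfold refl
  rw [D.ee a a, if_pos rfl, div_one, Matrix.sub_mul, Matrix.one_mul, Matrix.smul_mul,
    vecMulVec_mul, row D]
  ext i k
  rw [Matrix.mul_diagonal, Matrix.sub_apply, Matrix.smul_apply, vecMulVec_apply, smul_eq_mul]
  by_cases h : k = Sum.inl a
  · subst h
    rw [Pi.single_eq_same, if_pos rfl]
    ring
  · rw [Pi.single_eq_of_ne h, if_neg h]
    ring

end

/-! ### the pieces of the invariance -/

section
variable {ι : Type} [Fintype ι] [DecidableEq ι] {m r g n : ℕ}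
variable {B : Matrix ι ι ℚ} {N : Submodule ℚ (ι → ℚ)} {P : Matrix ι (Fin m ⊕ Fin r) ℂ}
  {Q : Matrix (Fin m ⊕ Fin r) ι ℂ} {G : Matrix (Fin r) (Fin r) ℂ} {v : Fin r → ι → ℚ}

/-- `P` on `V₀`, the identity on `V₁` -/
def hat (g : ℕ) (P : Matrix ι (Fin m ⊕ Fin r) ℂ) : Matrix (Idx ι g) (Idx (Fin m ⊕ Fin r) g) ℂ :=
  fromBlocks P 0 0 1

def hat' (g : ℕ) (Q : Matrix (Fin m ⊕ Fin r) ι ℂ) : Matrix (Idx (Fin m ⊕ Fin r) g) (Idx ι g) ℂ :=
  fromBlocks Q 0 0 1

theorem hat_mul (D : Dat B N P Q G v) : hat g P * hat' g Q = 1 := by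
  unfold hat hat'
  rw [fromBlocks_multiply, D.pq]
  simp only [Matrix.zero_mul, Matrix.mul_zero, add_zero, zero_add, Matrix.mul_one]
  exact fromBlocks_one

theorem map_single_sub (a b : Fin m) :
    (Matrix.single (Sum.inl (Sum.inl a)) (Sum.inl (Sum.inl b)) (1 : ℝ) -
      Matrix.single (Sum.inl (Sum.inl b)) (Sum.inl (Sum.inl a)) (1 : ℝ) :
        Matrix (Idx (Fin m ⊕ Fin r) g) (Idx (Fin m ⊕ Fin r) g) ℝ).map (fun x : ℝ => (x : ℂ)) =
    fromBlocks (Matrix.single (Sum.inl a) (Sum.inl b) (1 : ℂ) -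
      Matrix.single (Sum.inl b) (Sum.inl a) (1 : ℂ)) 0 0 0 := by
  ext i j
  rcases i with (i | i) | i <;> rcases j with (j | j) | j <;>
    simp [Matrix.single_apply, Matrix.map_apply] <;> split_ifs <;> simp

theorem diag_eq (R : Type) [CommRing R] (a : Fin m) :
    (Matrix.diagonal (fun k : Idx (Fin m ⊕ Fin r) g =>
      if k = Sum.inl (Sum.inl a) then (-1 : R) else 1) :
        Matrix (Idx (Fin m ⊕ Fin r) g) (Idx (Fin m ⊕ Fin r) g) R) =
    fromBlocks (Matrix.diagonal (fun k : Fin m ⊕ Fin r => if k = Sum.inl a then (-1 : R) else 1))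
      0 0 1 := by
  have h1 : (1 : Matrix (Fin g ⊕ Fin g) (Fin g ⊕ Fin g) R) = Matrix.diagonal (fun _ => 1) := rfl
  rw [h1, fromBlocks_diagonal]
  refine congrArg Matrix.diagonal ?_
  funext k
  rcases k with k | k
  · by_cases h : k = Sum.inl a
    · subst h
      rw [if_pos rfl]
      show (-1 : R) = if (Sum.inl a : Fin m ⊕ Fin r) = Sum.inl a then (-1 : R) else 1
      rw [if_pos rfl]
    · rw [if_neg (fun h' => h (Sum.inl_injective h'))]
      show (1 : R) = if k = Sum.inl a then (-1 : R) else 1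
      rw [if_neg h]
  · rw [if_neg (fun h => nomatch h)]
    rfl

/-- invariance of the real and imaginary parts -/
theorem inv_lin (hMUL : Stmt_MUL) (hINT : Stmt_INT) (D : Dat B N P Q G v)
    (φ : Tens ℂ (Idx ι g) n)
    (h1 : ∀ x y : ι → ℂ, (∀ w ∈ N, vC w ⬝ᵥ mC B *ᵥ x = 0) → (∀ w ∈ N, vC w ⬝ᵥ mC B *ᵥ y = 0) →
      der (ext0 g (wedge (mC B) x y)) φ = 0)
    (h2 : ∀ x : ι → ℂ, (∀ w ∈ N, vC w ⬝ᵥ mC B *ᵥ x = 0) → x ⬝ᵥ mC B *ᵥ x ≠ 0 →
      act (ext1 g (refl (mC B) x)) φ = φ)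
    (h3 : ∀ X : Matrix (Fin g ⊕ Fin g) (Fin g ⊕ Fin g) ℂ,
      Xᵀ * Matrix.J (Fin g) ℂ + Matrix.J (Fin g) ℂ * X = 0 →
      der (fromBlocks 0 0 0 X) φ = 0) (L : ℂ →ₗ[ℝ] ℝ) :
    Inv (A := Fin m) (F := Fin r) (fun i => L (act (hat' g Q) φ i)) := by
  refine ⟨fun a b => ?_, fun X hX => ?_, fun hne => ?_⟩
  · apply lin_der
    rw [map_single_sub]
    have h4 := hINT ℂ (Idx (Fin m ⊕ Fin r) g) (Idx ι g) n (hat' g Q)
      (fromBlocks (Matrix.single (Sum.inl a) (Sum.inl b) (1 : ℂ) -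
        Matrix.single (Sum.inl b) (Sum.inl a) (1 : ℂ)) 0 0 0)
      (ext0 g (wedge (mC B) (fun i => P i (Sum.inl b)) (fun i => P i (Sum.inl a)))) (by
        unfold hat' ext0
        rw [fromBlocks_multiply, fromBlocks_multiply, conj D.pq D.qp (wedge_mul D a b)]
        simp only [Matrix.zero_mul, Matrix.mul_zero, add_zero, zero_add]) φ
    rw [← h4, h1 _ _ (D.eN b) (D.eN a), act_zero]
  · apply lin_der
    have h5 : (fromBlocks 0 0 0 X :
        Matrix (Idx (Fin m ⊕ Fin r) g) (Idx (Fin m ⊕ Fin r) g) ℝ).map (fun x : ℝ => (x : ℂ)) =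
        fromBlocks 0 0 0 (X.map (fun x : ℝ => (x : ℂ))) := by
      rw [fromBlocks_map]
      refine fromBlocks_inj.2 ⟨?_, ?_, ?_, rfl⟩ <;> ext i j <;> simp
    rw [h5]
    have h6 : (X.map (fun x : ℝ => (x : ℂ)))ᵀ * Matrix.J (Fin g) ℂ +
        Matrix.J (Fin g) ℂ * X.map (fun x : ℝ => (x : ℂ)) = 0 := by
      have h7 : (Xᵀ * Matrix.J (Fin g) ℝ + Matrix.J (Fin g) ℝ * X).map Complex.ofRealHom =
          (0 : Matrix (Fin g ⊕ Fin g) (Fin g ⊕ Fin g) ℝ).map Complex.ofRealHom := by rw [hX]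
      have h8 : (Matrix.J (Fin g) ℝ).map Complex.ofRealHom = Matrix.J (Fin g) ℂ :=
        Matrix.map_J (Fin g) Complex.ofRealHom
      rw [Matrix.map_add _ (map_add _), Matrix.map_mul, Matrix.map_mul, h8,
        Matrix.map_zero _ (map_zero _)] at h7
      exact h7
    have h4 := hINT ℂ (Idx (Fin m ⊕ Fin r) g) (Idx ι g) n (hat' g Q)
      (fromBlocks 0 0 0 (X.map (fun x : ℝ => (x : ℂ))))
      (fromBlocks 0 0 0 (X.map (fun x : ℝ => (x : ℂ)))) (by
        unfold hat'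
        rw [fromBlocks_multiply, fromBlocks_multiply]
        simp only [Matrix.zero_mul, Matrix.mul_zero, add_zero, zero_add, Matrix.one_mul,
          Matrix.mul_one]) φ
    rw [← h4, h3 _ h6, act_zero]
  · obtain ⟨a⟩ := hne
    refine ⟨a, ?_⟩
    apply lin_diag
    have h5 : (fun k : Idx (Fin m ⊕ Fin r) g =>
        (((if k = Sum.inl (Sum.inl a) then (-1 : ℝ) else 1) : ℝ) : ℂ)) =
        (fun k => if k = Sum.inl (Sum.inl a) then (-1 : ℂ) else 1) := by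
      funext k
      split_ifs
      · rw [Complex.ofReal_neg, Complex.ofReal_one]
      · rw [Complex.ofReal_one]
    rw [h5, diag_eq, ← (hMUL ℂ _ _ _ n).2]
    have h6 : (fromBlocks (Matrix.diagonal (fun k : Fin m ⊕ Fin r =>
        if k = Sum.inl a then (-1 : ℂ) else 1)) 0 0 1 :
          Matrix (Idx (Fin m ⊕ Fin r) g) (Idx (Fin m ⊕ Fin r) g) ℂ) * hat' g Q =
        hat' g Q * ext1 g (refl (mC B) (fun i => P i (Sum.inl a))) := by
      unfold hat' ext1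
      rw [fromBlocks_multiply, fromBlocks_multiply, conj D.pq D.qp (refl_mul D a)]
      simp only [Matrix.zero_mul, Matrix.mul_zero, add_zero, zero_add, Matrix.one_mul]
    rw [h6, (hMUL ℂ _ _ _ n).2, h2 _ (D.eN a)]
    rw [D.ee a a, if_pos rfl]
    exact one_ne_zero

end

/-! ### the image of decomposable tensors -/

section
variable {ι : Type} [Fintype ι] [DecidableEq ι] {m r g : ℕ}
variable {B : Matrix ι ι ℚ} {N : Submodule ℚ (ι → ℚ)} {P : Matrix ι (Fin m ⊕ Fin r) ℂ}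
  {Q : Matrix (Fin m ⊕ Fin r) ι ℂ} {G : Matrix (Fin r) (Fin r) ℂ} {v : Fin r → ι → ℚ}

/-- the rational vectors -/
def NT (g : ℕ) (N : Submodule ℚ (ι → ℚ)) : Set (Idx ι g → ℂ) :=
  vC '' ((fun v : ι → ℚ => (Sum.elim v 0 : Idx ι g → ℚ)) '' (N : Set (ι → ℚ)))

/-- the rational 2-tensors -/
def PT (g : ℕ) (B : Matrix ι ι ℚ) : Set (Matrix (Idx ι g) (Idx ι g) ℂ) :=
  mC '' {fromBlocks (B⁻¹) 0 0 0, fromBlocks 0 0 0 (Matrix.J (Fin g) ℚ)}

theorem memA : mC (fromBlocks (B⁻¹) 0 0 0 : Matrix (Idx ι g) (Idx ι g) ℚ) ∈ PT g B :=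
  Set.mem_image_of_mem _ (Or.inl rfl)

theorem memJ : mC (fromBlocks 0 0 0 (Matrix.J (Fin g) ℚ) : Matrix (Idx ι g) (Idx ι g) ℚ) ∈
    PT g B :=
  Set.mem_image_of_mem _ (Or.inr rfl)

theorem dec_sum {κ : Type} {M : Set (κ → ℂ)} {S : Set (Matrix κ κ ℂ)} {n : ℕ} {α : Type}
    (s : Finset α) (f : α → Tens ℂ κ n) (h : ∀ a ∈ s, Dec M S n (f a)) :
    Dec M S n (∑ a ∈ s, f a) :=
  (decSub M S n).sum_mem h

theorem insPair_sum {κ : Type} {n : ℕ} {α : Type} (s : Finset α) (b : α → Matrix κ κ ℂ)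
    (p : Fin (n + 2)) (q : Fin (n + 1)) (ψ : Tens ℂ κ n) :
    insPair (∑ a ∈ s, b a) p q ψ = ∑ a ∈ s, insPair (b a) p q ψ := by
  classical
  induction s using Finset.induction_on with
  | empty => rw [Finset.sum_empty, Finset.sum_empty, insPair_zero_left]
  | insert a s ha ih =>
    rw [Finset.sum_insert ha, Finset.sum_insert ha, insPair_add_left, ih]

theorem insPair_smul_left {κ : Type} {n : ℕ} (c : ℂ) (b : Matrix κ κ ℂ)
    (p : Fin (n + 2)) (q : Fin (n + 1)) (ψ : Tens ℂ κ n) :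
    insPair (c • b) p q ψ = c • insPair b p q ψ := by
  funext i
  simp only [insPair, Matrix.smul_apply, Pi.smul_apply, smul_eq_mul]
  ring

theorem col_mem (D : Dat B N P Q G v) (f : Fin r) :
    (fun i => hat g P i (Sum.inl (Sum.inr f))) ∈ NT g N := by
  refine ⟨Sum.elim (v f) 0, ⟨v f, D.vN f, rfl⟩, ?_⟩
  funext i
  rcases i with i | i
  · show ((v f i : ℚ) : ℂ) = P i (Sum.inr f)
    rw [D.pv]
  · show (((0 : Fin g ⊕ Fin g → ℚ) i : ℚ) : ℂ) = 0
    rw [Pi.zero_apply, Rat.cast_zero]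

/-- the pairing of the `A`-part -/
theorem pairA (D : Dat B N P Q G v) :
    hat g P * (fromBlocks (fromBlocks 1 0 0 0) 0 0 0 :
      Matrix (Idx (Fin m ⊕ Fin r) g) (Idx (Fin m ⊕ Fin r) g) ℂ) * (hat g P)ᵀ =
    mC (fromBlocks (B⁻¹) 0 0 0 : Matrix (Idx ι g) (Idx ι g) ℚ) +
      ∑ f : Fin r, ∑ f' : Fin r, (-G f f') • vecMulVec (fun i => hat g P i (Sum.inl (Sum.inr f)))
        (fun i => hat g P i (Sum.inl (Sum.inr f'))) := by
  have h1 : (fromBlocks (fromBlocks 1 0 0 0) 0 0 0 :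
      Matrix (Idx (Fin m ⊕ Fin r) g) (Idx (Fin m ⊕ Fin r) g) ℂ) =
      fromBlocks (fromBlocks 1 0 0 G) 0 0 0 +
        ∑ f : Fin r, ∑ f' : Fin r, (-G f f') • vecMulVec
          (Pi.single (Sum.inl (Sum.inr f)) 1) (Pi.single (Sum.inl (Sum.inr f')) 1) := by
    ext i j
    rw [Matrix.add_apply, Matrix.sum_apply]
    simp only [Matrix.sum_apply, Matrix.smul_apply, vecMulVec_apply, smul_eq_mul]
    rcases i with (i | i) | i <;> rcases j with (j | j) | j
    · simp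
    · simp
    · simp
    · simp
    · simp [Pi.single_apply]
    · simp
    · simp
    · simp
    · simp
  have h2 : hat g P * (fromBlocks (fromBlocks 1 0 0 G) 0 0 0 :
      Matrix (Idx (Fin m ⊕ Fin r) g) (Idx (Fin m ⊕ Fin r) g) ℂ) * (hat g P)ᵀ =
      mC (fromBlocks (B⁻¹) 0 0 0 : Matrix (Idx ι g) (Idx ι g) ℚ) := by
    unfold hat
    rw [fromBlocks_transpose, fromBlocks_multiply, fromBlocks_multiply]
    simp only [Matrix.zero_mul, Matrix.mul_zero, add_zero, zero_add, Matrix.transpose_zero]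
    rw [D.gg]
    unfold mC
    rw [fromBlocks_map]
    refine fromBlocks_inj.2 ⟨rfl, ?_, ?_, ?_⟩ <;> ext i j <;> simp
  have h3 : ∀ k : Idx (Fin m ⊕ Fin r) g, hat g P *ᵥ Pi.single k 1 = fun i => hat g P i k := by
    intro k
    rw [Matrix.mulVec_single_one]
    rfl
  rw [h1, Matrix.mul_add, Matrix.add_mul, h2]
  refine congrArg _ ?_
  rw [Matrix.mul_sum, Matrix.sum_mul]
  refine Finset.sum_congr rfl fun f _ => ?_
  rw [Matrix.mul_sum, Matrix.sum_mul]
  refine Finset.sum_congr rfl fun f' _ => ?_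
  rw [Matrix.mul_smul, Matrix.smul_mul, mul_vecMulVec, vecMulVec_mul, Matrix.vecMul_transpose,
    h3, h3]

theorem pairJ :
    hat g P * (fromBlocks 0 0 0 (Matrix.J (Fin g) ℂ) :
      Matrix (Idx (Fin m ⊕ Fin r) g) (Idx (Fin m ⊕ Fin r) g) ℂ) * (hat g P)ᵀ =
    mC (fromBlocks 0 0 0 (Matrix.J (Fin g) ℚ) : Matrix (Idx ι g) (Idx ι g) ℚ) := by
  unfold hat
  rw [fromBlocks_transpose, fromBlocks_multiply, fromBlocks_multiply]
  simp only [Matrix.zero_mul, Matrix.mul_zero, add_zero, zero_add, Matrix.transpose_zero,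
    Matrix.transpose_one, Matrix.mul_one, Matrix.one_mul]
  unfold mC
  rw [fromBlocks_map]
  refine fromBlocks_inj.2 ⟨?_, ?_, ?_, ?_⟩
  · ext i j; simp
  · ext i j; simp
  · ext i j; simp
  · exact (Matrix.map_J (Fin g) (Rat.castHom ℂ)).symm

theorem map_NP (b : Matrix (Idx (Fin m ⊕ Fin r) g) (Idx (Fin m ⊕ Fin r) g) ℝ)
    (hb : b ∈ NP (Fin m) (Fin r) ℝ g) :
    b.map (fun x : ℝ => (x : ℂ)) = fromBlocks (fromBlocks 1 0 0 0) 0 0 0 ∨
    b.map (fun x : ℝ => (x : ℂ)) = fromBlocks 0 0 0 (Matrix.J (Fin g) ℂ) := by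
  unfold NP at hb
  rcases hb with h | h
  · left
    rw [h]
    rw [fromBlocks_map, fromBlocks_map]
    refine fromBlocks_inj.2 ⟨fromBlocks_inj.2 ⟨?_, ?_, ?_, ?_⟩, ?_, ?_, ?_⟩
    · exact Matrix.map_one _ Complex.ofReal_zero Complex.ofReal_one
    all_goals
      ext i j
      simp
  · right
    rw [Set.mem_singleton_iff.1 h]
    rw [fromBlocks_map]
    refine fromBlocks_inj.2 ⟨?_, ?_, ?_, ?_⟩
    · ext i j; simp
    · ext i j; simp
    · ext i j; simp
    · exact Matrix.map_J (Fin g) Complex.ofRealHom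

theorem dec_image (hINS : Stmt_INS) (D : Dat B N P Q G v) :
    ∀ {n : ℕ} {ψ : Tens ℝ (Idx (Fin m ⊕ Fin r) g) n},
      Dec (NF (Fin m) (Fin r) ℝ g) (NP (Fin m) (Fin r) ℝ g) n ψ →
      Dec (NT g N) (PT g B) n (act (hat g P) (fun i => (ψ i : ℂ))) := by
  intro n ψ h
  induction h with
  | one =>
    have h1 : act (hat g P) (fun _ : Fin 0 → Idx (Fin m ⊕ Fin r) g => ((1 : ℝ) : ℂ)) =
        (fun _ => 1) := by
      funext i
      simp [act]
    rw [h1]
    exact Dec.one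
  | @vec n w hw p ψ _ ih =>
    obtain ⟨f, rfl⟩ := hw
    have h1 : (fun i => ((insVec (Pi.single (Sum.inl (Sum.inr f)) 1 :
          Idx (Fin m ⊕ Fin r) g → ℝ) p ψ i : ℝ) : ℂ)) =
        insVec (Pi.single (Sum.inl (Sum.inr f)) 1 : Idx (Fin m ⊕ Fin r) g → ℂ) p
          (fun i => (ψ i : ℂ)) := by
      funext i
      simp only [insVec]
      rw [Complex.ofReal_mul]
      refine congrArg (fun x : ℂ => x * _) ?_
      by_cases h : i p = Sum.inl (Sum.inr f)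
      · rw [h, Pi.single_eq_same, Pi.single_eq_same, Complex.ofReal_one]
      · rw [Pi.single_eq_of_ne h, Pi.single_eq_of_ne h, Complex.ofReal_zero]
    show Dec (NT g N) (PT g B) (n + 1) (act (hat g P) (fun i =>
      ((insVec (Pi.single (Sum.inl (Sum.inr f)) 1 :
          Idx (Fin m ⊕ Fin r) g → ℝ) p ψ i : ℝ) : ℂ)))
    rw [h1, (hINS ℂ _ _ n).1]
    refine Dec.vec ?_ p ih
    rw [Matrix.mulVec_single_one]
    exact col_mem D f
  | @pair n b hb p q ψ _ ih =>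
    have h1 : (fun i => ((insPair b p q ψ i : ℝ) : ℂ)) =
        insPair (b.map (fun x : ℝ => (x : ℂ))) p q (fun i => (ψ i : ℂ)) := by
      funext i
      simp only [insPair]
      rw [Complex.ofReal_mul, Matrix.map_apply]
    rw [h1, (hINS ℂ _ _ n).2.1]
    rcases map_NP b hb with h2 | h2
    · rw [h2, pairA D, insPair_add_left]
      refine Dec.add (Dec.pair memA p q ih) ?_
      rw [insPair_sum]
      refine dec_sum _ _ fun f _ => ?_
      rw [insPair_sum]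
      refine dec_sum _ _ fun f' _ => ?_
      rw [insPair_smul_left, insPair_vecMulVec]
      exact Dec.smul _ (Dec.vec (col_mem D f) p (Dec.vec (col_mem D f') q ih))
    · rw [h2, pairJ]
      exact Dec.pair memJ p q ih
  | zero n =>
    have h1 : (fun i => (((0 : Tens ℝ (Idx (Fin m ⊕ Fin r) g) n) i : ℝ) : ℂ)) = 0 := by
      funext i
      simp
    rw [h1, act_zero]
    exact Dec.zero n
  | @add n φ ψ _ _ ih1 ih2 =>
    have h1 : (fun i => (((φ + ψ) i : ℝ) : ℂ)) =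
        (fun i => (φ i : ℂ)) + (fun i => (ψ i : ℂ)) := by
      funext i
      simp
    rw [h1, act_add]
    exact Dec.add ih1 ih2
  | @smul n c ψ _ ih =>
    have h1 : (fun i => (((c • ψ) i : ℝ) : ℂ)) = (c : ℂ) • (fun i => (ψ i : ℂ)) := by
      funext i
      simp
    rw [h1, act_smul]
    exact Dec.smul _ ih

end

end TRA

open TRA in
theorem stmt_TRA (hFFT : Stmt_FFT) (hBAS : Stmt_BAS) (hMUL : Stmt_MUL) (hINT : Stmt_INT)
    (hINS : Stmt_INS) : Stmt_TRA := by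
  intro ι _ _ g n B hB hdet N hN φ h1 h2 h3
  obtain ⟨m, r, P, Q, G, v, hPQ, hQP, hvN, hPv, hT, hon, hG⟩ := hBAS ι B hB hdet N hN
  have D : Dat B N P Q G v := ⟨hPQ, hQP, hvN, hPv, hT, hon, hG⟩
  have hdec : ∀ L : ℂ →ₗ[ℝ] ℝ, Dec (NT g N) (PT g B) n
      (act (hat g P) (fun i => ((L (act (hat' g Q) φ i) : ℝ) : ℂ))) := fun L =>
    dec_image hINS D (hFFT (Fin m) (Fin r) g n _ (inv_lin hMUL hINT D φ h1 h2 h3 L))
  have h4 : φ = act (hat g P) (act (hat' g Q) φ) := by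
    rw [← (hMUL ℂ _ _ _ n).2, hat_mul D]
    exact ((hMUL ℂ (Idx ι g) (Idx ι g) (Idx ι g) n).1 φ).symm
  have h5 := decomp (act (hat' g Q) φ)
  have h6 : φ = act (hat g P) (fun i => ((Complex.reLm (act (hat' g Q) φ i) : ℝ) : ℂ)) +
      Complex.I • act (hat g P) (fun i => ((Complex.imLm (act (hat' g Q) φ i) : ℝ) : ℂ)) := by
    rw [← act_smul, ← act_add, ← h5]
    exact h4
  rw [h6]
  exact Dec.add (hdec Complex.reLm) (Dec.smul _ (hdec Complex.imLm))

end Pool.Agent.Work.T3
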