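import Pool.Agent.Work.MP_298761_T3.FinD
import Pool.Agent.Work.MP_298761_T3.MUL
import Pool.Agent.Work.MP_298761_T3.INT
import Pool.Agent.Work.MP_298761_T3.BRK
import Pool.Agent.Work.MP_298761_T3.INS
import Pool.Agent.Work.MP_298761_T3.INV
import Pool.Agent.Work.MP_298761_T3.LIE
import Pool.Agent.Work.MP_298761_T3.RAT
import Pool.Agent.Work.MP_298761_T3.RIG
import Pool.Agent.Work.MP_298761_T3.REF
import Pool.Agent.Work.MP_298761_T3.POS
import Pool.Agent.Work.MP_298761_T3.CTR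
import Pool.Agent.Work.MP_298761_T3.FF1
import Pool.Agent.Work.MP_298761_T3.FF2
import Pool.Agent.Work.MP_298761_T3.FFT
import Pool.Agent.Work.MP_298761_T3.BAS
import Pool.Agent.Work.MP_298761_T3.TRA
import Pool.Agent.Work.MP_298761_T3.DSC

/-! T3: everything together. -/

namespace Pool.Agent.Work.T3

theorem main : Stmt_Main :=
  have hFFT : Stmt_FFT := stmt_FFT (stmt_FF2 stmt_CTR (stmt_FF1 stmt_POS)) (stmt_INV stmt_INS)
  FIN.stmt_FIN stmt_INT stmt_BRK (stmt_INV stmt_INS) stmt_LIE stmt_RAT stmt_RIG stmt_REF stmt_BAS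
    (stmt_TRA hFFT stmt_BAS stmt_MUL stmt_INT stmt_INS) stmt_DSC

end Pool.Agent.Work.T3
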