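import Pool.Agent.Work.MP_298761_T3.Interface

/-! T3: basic lemmas for all blocks. -/

namespace Pool.Agent.Work.T3

open Matrix

section
variable {R κ κ' : Type} [CommRing R] {n : ℕ}

section der
variable [Fintype κ]

theorem der_add_right (X : Matrix κ κ R) (φ ψ : Tens R κ n) :
    der X (φ + ψ) = der X φ + der X ψ := by
  funext i
  simp only [der, Pi.add_apply, mul_add, Finset.sum_add_distrib]

theorem der_smul_right (c : R) (X : Matrix κ κ R) (φ : Tens R κ n) :
    der X (c • φ) = c • der X φ := by
  funext i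
  simp only [der, Pi.smul_apply, smul_eq_mul, Finset.mul_sum]
  refine Finset.sum_congr rfl fun p _ => Finset.sum_congr rfl fun k _ => by ring

theorem der_zero_right (X : Matrix κ κ R) : der X (0 : Tens R κ n) = 0 := by
  funext i
  simp [der]

theorem der_neg_right (X : Matrix κ κ R) (φ : Tens R κ n) : der X (-φ) = -der X φ := by
  funext i
  simp [der, Finset.sum_neg_distrib]

theorem der_sub_right (X : Matrix κ κ R) (φ ψ : Tens R κ n) :
    der X (φ - ψ) = der X φ - der X ψ := by
  rw [sub_eq_add_neg, der_add_right, der_neg_right, sub_eq_add_neg]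

theorem der_add_left (X Y : Matrix κ κ R) (φ : Tens R κ n) :
    der (X + Y) φ = der X φ + der Y φ := by
  funext i
  simp only [der, Pi.add_apply, Matrix.add_apply, add_mul, Finset.sum_add_distrib]

theorem der_smul_left (c : R) (X : Matrix κ κ R) (φ : Tens R κ n) :
    der (c • X) φ = c • der X φ := by
  funext i
  simp only [der, Pi.smul_apply, Matrix.smul_apply, smul_eq_mul, Finset.mul_sum, mul_assoc]

theorem der_zero_left (φ : Tens R κ n) : der (0 : Matrix κ κ R) φ = 0 := by
  funext i
  simp [der]

theorem der_neg_left (X : Matrix κ κ R) (φ : Tens R κ n) : der (-X) φ = -der X φ := by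
  funext i
  simp [der, Finset.sum_neg_distrib]

theorem der_sub_left (X Y : Matrix κ κ R) (φ : Tens R κ n) :
    der (X - Y) φ = der X φ - der Y φ := by
  rw [sub_eq_add_neg, der_add_left, der_neg_left, sub_eq_add_neg]

theorem der_single [DecidableEq κ] (a b : κ) (φ : Tens R κ n) (i : Fin n → κ) :
    der (Matrix.single a b (1 : R)) φ i =
      ∑ p, if i p = a then φ (Function.update i p b) else 0 := by
  simp only [der]
  refine Finset.sum_congr rfl fun p _ => ?_
  by_cases h : i p = a
  · rw [if_pos h, Finset.sum_eq_single b]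
    · simp [h]
    · intro k _ hk
      rw [h, Matrix.single_apply_of_ne _ _ _ _ _ (by rintro ⟨-, h2⟩; exact hk h2.symm), zero_mul]
    · intro h2; exact absurd (Finset.mem_univ _) h2
  · rw [if_neg h]
    refine Finset.sum_eq_zero fun k _ => ?_
    rw [Matrix.single_apply_of_ne _ _ _ _ _ (by rintro ⟨h1, -⟩; exact h h1.symm), zero_mul]

end der

section act
variable [Fintype κ']

theorem act_add (g : Matrix κ κ' R) (φ ψ : Tens R κ' n) : act g (φ + ψ) = act g φ + act g ψ := by
  funext i
  simp only [act, Pi.add_apply, mul_add, Finset.sum_add_distrib]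

theorem act_smul (c : R) (g : Matrix κ κ' R) (φ : Tens R κ' n) :
    act g (c • φ) = c • act g φ := by
  funext i
  simp only [act, Pi.smul_apply, smul_eq_mul, Finset.mul_sum]
  refine Finset.sum_congr rfl fun p _ => by ring

theorem act_zero (g : Matrix κ κ' R) : act g (0 : Tens R κ' n) = 0 := by
  funext i
  simp [act]

theorem act_diagonal [Fintype κ] [DecidableEq κ] (d : κ → R) (φ : Tens R κ n) (i : Fin n → κ) :
    act (Matrix.diagonal d) φ i = (∏ p, d (i p)) * φ i := by
  simp only [act]
  rw [Finset.sum_eq_single i]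
  · simp
  · intro j _ hj
    obtain ⟨p, hp⟩ := Function.ne_iff.mp hj
    rw [Finset.prod_eq_zero (Finset.mem_univ p), zero_mul]
    exact Matrix.diagonal_apply_ne _ (fun h => hp h.symm)
  · intro h; exact absurd (Finset.mem_univ _) h

end act

/-- `Dec` as a submodule -/
def decSub (N : Set (κ → R)) (P : Set (Matrix κ κ R)) (n : ℕ) : Submodule R (Tens R κ n) where
  carrier := {φ | Dec N P n φ}
  zero_mem' := Dec.zero n
  add_mem' := fun ha hb => Dec.add ha hb
  smul_mem' := fun c _ ha => Dec.smul c ha

theorem mem_decSub {N : Set (κ → R)} {P : Set (Matrix κ κ R)} {n : ℕ} {φ : Tens R κ n} :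
    φ ∈ decSub N P n ↔ Dec N P n φ := Iff.rfl

theorem insVec_add (v : κ → R) (p : Fin (n + 1)) (φ ψ : Tens R κ n) :
    insVec v p (φ + ψ) = insVec v p φ + insVec v p ψ := by
  funext i; simp [insVec, mul_add]

theorem insVec_smul (c : R) (v : κ → R) (p : Fin (n + 1)) (φ : Tens R κ n) :
    insVec v p (c • φ) = c • insVec v p φ := by
  funext i; simp [insVec]; ring

theorem insVec_zero_right (v : κ → R) (p : Fin (n + 1)) :
    insVec v p (0 : Tens R κ n) = 0 := by
  funext i; simp [insVec]

theorem insVec_zero_left (p : Fin (n + 1)) (ψ : Tens R κ n) :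
    insVec (0 : κ → R) p ψ = 0 := by
  funext i; simp [insVec]

theorem insPair_add (b : Matrix κ κ R) (p : Fin (n + 2)) (q : Fin (n + 1)) (φ ψ : Tens R κ n) :
    insPair b p q (φ + ψ) = insPair b p q φ + insPair b p q ψ := by
  funext i; simp [insPair, mul_add]

theorem insPair_smul (c : R) (b : Matrix κ κ R) (p : Fin (n + 2)) (q : Fin (n + 1))
    (φ : Tens R κ n) : insPair b p q (c • φ) = c • insPair b p q φ := by
  funext i; simp [insPair]; ring

theorem insPair_zero_right (b : Matrix κ κ R) (p : Fin (n + 2)) (q : Fin (n + 1)) :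
    insPair b p q (0 : Tens R κ n) = 0 := by
  funext i; simp [insPair]

theorem insPair_zero_left (p : Fin (n + 2)) (q : Fin (n + 1)) (ψ : Tens R κ n) :
    insPair (0 : Matrix κ κ R) p q ψ = 0 := by
  funext i; simp [insPair]

theorem insPair_add_left (b c : Matrix κ κ R) (p : Fin (n + 2)) (q : Fin (n + 1))
    (ψ : Tens R κ n) : insPair (b + c) p q ψ = insPair b p q ψ + insPair c p q ψ := by
  funext i; simp [insPair, add_mul]

theorem insPair_vecMulVec (v w : κ → R) (p : Fin (n + 2)) (q : Fin (n + 1)) (ψ : Tens R κ n) :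
    insPair (vecMulVec v w) p q ψ = insVec v p (insVec w q ψ) := by
  funext i
  simp only [insPair, insVec, vecMulVec_apply, mul_assoc]

end

end Pool.Agent.Work.T3
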