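import Pool.Agent.Work.MP_298761_T3.Base

/-! T3, block CTR (helper74): slices and contractions. -/

namespace Pool.Agent.Work.T3

open Matrix

namespace CTR

section
variable {R κ : Type} [CommRing R] {n : ℕ}

theorem sum_ins [Fintype κ] (p : Fin (n + 1)) (f : (Fin (n + 1) → κ) → R) :
    ∑ i, f i = ∑ k, ∑ j : Fin n → κ, f (p.insertNth k j) := by
  rw [← Fintype.sum_prod_type' (f := fun (k : κ) (j : Fin n → κ) => f (p.insertNth k j))]
  exact (Equiv.sum_comp (Fin.insertNthEquiv (fun _ => κ) p) f).symm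

theorem sl_der [Fintype κ] (X : Matrix κ κ R) (p : Fin (n + 1)) (k : κ)
    (φ : Tens R κ (n + 1)) :
    sl p k (der X φ) = der X (sl p k φ) + ∑ l, X k l • sl p l φ := by
  funext j
  simp only [sl, der, Pi.add_apply, Finset.sum_apply, Pi.smul_apply, smul_eq_mul]
  rw [Fin.sum_univ_succAbove _ p, add_comm]
  congr 1
  · refine Finset.sum_congr rfl fun r _ => Finset.sum_congr rfl fun l _ => ?_
    rw [Fin.insertNth_apply_succAbove, ← Fin.insertNth_update]
  · refine Finset.sum_congr rfl fun l _ => ?_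
    rw [Fin.insertNth_apply_same, Fin.update_insertNth]

theorem sl_diag [Fintype κ] [DecidableEq κ] (d : κ → R) (p : Fin (n + 1)) (k : κ)
    (φ : Tens R κ (n + 1)) :
    sl p k (act (Matrix.diagonal d) φ) = d k • act (Matrix.diagonal d) (sl p k φ) := by
  funext j
  simp only [sl, act_diagonal, Pi.smul_apply, smul_eq_mul]
  rw [Fin.prod_univ_succAbove _ p, Fin.insertNth_apply_same, mul_assoc]
  congr 2
  refine Finset.prod_congr rfl fun r _ => ?_
  rw [Fin.insertNth_apply_succAbove]

theorem ctr_eq [Fintype κ] (b : Matrix κ κ R) (p : Fin (n + 2)) (q : Fin (n + 1))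
    (φ : Tens R κ (n + 2)) :
    ctr b p q φ = ∑ k, ∑ l, b k l • sl q l (sl p k φ) := by
  funext j
  simp only [ctr, sl, Finset.sum_apply, Pi.smul_apply, smul_eq_mul]

theorem der_sum [Fintype κ] {α : Type} (s : Finset α) (X : Matrix κ κ R)
    (f : α → Tens R κ n) : der X (∑ a ∈ s, f a) = ∑ a ∈ s, der X (f a) := by
  classical
  induction s using Finset.induction_on with
  | empty => simp [der_zero_right]
  | insert a s ha ih =>
    rw [Finset.sum_insert ha, Finset.sum_insert ha, der_add_right, ih]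

theorem act_sum [Fintype κ] {α : Type} (s : Finset α) (X : Matrix κ κ R)
    (f : α → Tens R κ n) : act X (∑ a ∈ s, f a) = ∑ a ∈ s, act X (f a) := by
  classical
  induction s using Finset.induction_on with
  | empty => simp [act_zero]
  | insert a s ha ih =>
    rw [Finset.sum_insert ha, Finset.sum_insert ha, act_add, ih]

theorem sl_add (p : Fin (n + 1)) (k : κ) (φ ψ : Tens R κ (n + 1)) :
    sl p k (φ + ψ) = sl p k φ + sl p k ψ := rfl

theorem sl_smul (p : Fin (n + 1)) (k : κ) (c : R) (φ : Tens R κ (n + 1)) :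
    sl p k (c • φ) = c • sl p k φ := rfl

theorem sl_sum {α : Type} (s : Finset α) (p : Fin (n + 1)) (k : κ)
    (f : α → Tens R κ (n + 1)) : sl p k (∑ a ∈ s, f a) = ∑ a ∈ s, sl p k (f a) := by
  funext j
  simp only [sl, Finset.sum_apply]

theorem ctr_der [Fintype κ] (X b : Matrix κ κ R) (p : Fin (n + 2)) (q : Fin (n + 1))
    (φ : Tens R κ (n + 2)) (h : Xᵀ * b + b * X = 0) :
    ctr b p q (der X φ) = der X (ctr b p q φ) := by
  have h1 : ∀ k l, b k l • sl q l (sl p k (der X φ)) =
      b k l • der X (sl q l (sl p k φ)) + (∑ m, (b k l * X l m) • sl q m (sl p k φ) +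
        ∑ m, (b k l * X k m) • sl q l (sl p m φ)) := by
    intro k l
    rw [sl_der, sl_add, sl_der, sl_sum]
    simp only [sl_smul, smul_add, Finset.smul_sum, smul_smul]
    rw [add_assoc]
  rw [ctr_eq, ctr_eq, der_sum]
  have h2 : ∀ k, der X (∑ l, b k l • sl q l (sl p k φ)) =
      ∑ l, b k l • der X (sl q l (sl p k φ)) := by
    intro k
    rw [der_sum]
    exact Finset.sum_congr rfl fun l _ => der_smul_right _ _ _
  simp only [h1, h2, Finset.sum_add_distrib]
  have h3 : ∑ k, ∑ l, ∑ m, (b k l * X l m) • sl q m (sl p k φ) =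
      ∑ k, ∑ m, (b * X) k m • sl q m (sl p k φ) := by
    refine Finset.sum_congr rfl fun k _ => ?_
    rw [Finset.sum_comm]
    refine Finset.sum_congr rfl fun m _ => ?_
    rw [← Finset.sum_smul, Matrix.mul_apply]
  have h4 : ∑ k, ∑ l, ∑ m, (b k l * X k m) • sl q l (sl p m φ) =
      ∑ m, ∑ l, (Xᵀ * b) m l • sl q l (sl p m φ) := by
    rw [Finset.sum_comm]
    have h5 : ∀ l, ∑ k, ∑ m, (b k l * X k m) • sl q l (sl p m φ) =
        ∑ m, (Xᵀ * b) m l • sl q l (sl p m φ) := by
      intro l
      rw [Finset.sum_comm]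
      refine Finset.sum_congr rfl fun m _ => ?_
      rw [← Finset.sum_smul, Matrix.mul_apply]
      congr 1
      refine Finset.sum_congr rfl fun k _ => ?_
      rw [Matrix.transpose_apply, mul_comm]
    simp only [h5]
    rw [Finset.sum_comm]
  rw [h3, h4, ← Finset.sum_add_distrib]
  have h6 : ∀ k, ∑ m, (b * X) k m • sl q m (sl p k φ) + ∑ l, (Xᵀ * b) k l • sl q l (sl p k φ) =
      0 := by
    intro k
    rw [← Finset.sum_add_distrib]
    refine Finset.sum_eq_zero fun m _ => ?_
    rw [← add_smul]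
    have h7 : (b * X) k m + (Xᵀ * b) k m = 0 := by
      have h8 := congrFun (congrFun h k) m
      rw [Matrix.add_apply, Matrix.zero_apply, add_comm] at h8
      exact h8
    rw [h7, zero_smul]
  simp only [h6, Finset.sum_const_zero, add_zero]

theorem ctr_diag [Fintype κ] [DecidableEq κ] (d : κ → R) (b : Matrix κ κ R)
    (p : Fin (n + 2)) (q : Fin (n + 1)) (φ : Tens R κ (n + 2))
    (h : ∀ k l, d k * b k l * d l = b k l) :
    ctr b p q (act (Matrix.diagonal d) φ) = act (Matrix.diagonal d) (ctr b p q φ) := by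
  rw [ctr_eq, ctr_eq, act_sum]
  refine Finset.sum_congr rfl fun k _ => ?_
  rw [act_sum]
  refine Finset.sum_congr rfl fun l _ => ?_
  rw [sl_diag, sl_smul, sl_diag, act_smul, smul_smul, smul_smul]
  congr 1
  calc b k l * d k * d l = d k * b k l * d l := by ring
    _ = b k l := h k l

theorem adj_vec [Fintype κ] [DecidableEq κ] (p : Fin (n + 1)) (k : κ) (φ : Tens R κ (n + 1))
    (ψ : Tens R κ n) :
    ∑ j, sl p k φ j * ψ j = ∑ i, φ i * insVec (Pi.single k 1) p ψ i := by
  rw [sum_ins p]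
  rw [Finset.sum_eq_single k]
  · refine Finset.sum_congr rfl fun j _ => ?_
    simp only [sl, insVec, Fin.insertNth_apply_same, Pi.single_eq_same, one_mul,
      Fin.removeNth_insertNth]
  · intro k' _ hk
    refine Finset.sum_eq_zero fun j _ => ?_
    simp only [insVec, Fin.insertNth_apply_same]
    rw [Pi.single_eq_of_ne hk, zero_mul, mul_zero]
  · intro h
    exact absurd (Finset.mem_univ _) h

theorem adj_pair [Fintype κ] (b : Matrix κ κ R) (p : Fin (n + 2)) (q : Fin (n + 1))
    (φ : Tens R κ (n + 2)) (ψ : Tens R κ n) :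
    ∑ j, ctr b p q φ j * ψ j = ∑ i, φ i * insPair b p q ψ i := by
  rw [sum_ins p]
  have h1 : ∀ k, ∑ j : Fin (n + 1) → κ, φ (p.insertNth k j) * insPair b p q ψ (p.insertNth k j) =
      ∑ l, ∑ j : Fin n → κ, b k l * φ (p.insertNth k (q.insertNth l j)) * ψ j := by
    intro k
    rw [sum_ins q]
    refine Finset.sum_congr rfl fun l _ => Finset.sum_congr rfl fun j _ => ?_
    simp only [insPair, Fin.insertNth_apply_same, Fin.removeNth_insertNth]
    ring
  simp only [h1, ctr, Finset.sum_mul]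
  rw [Finset.sum_comm]
  refine Finset.sum_congr rfl fun k _ => ?_
  rw [Finset.sum_comm]

end

end CTR

theorem stmt_CTR : Stmt_CTR := by
  intro R κ _ _ _ n
  exact ⟨CTR.sl_der, CTR.sl_diag, CTR.ctr_der, CTR.ctr_diag, CTR.adj_vec, CTR.adj_pair⟩

end Pool.Agent.Work.T3
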