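import Mathlib

/-! T3 (MP_298761_ag): decomposable Hodge classes on fibre powers stay decomposable. Definitions. -/

namespace Pool.Agent.Work.T3

open Matrix

/-- Tensors with `n` indices in `κ`: the coordinates of an element of `(R^κ)^{⊗ n}`. -/
abbrev Tens (R κ : Type) (n : ℕ) := (Fin n → κ) → R

section
variable {R κ κ' : Type} [CommRing R] {n : ℕ}

/-- the derivation of the tensor power given by a matrix -/
def der [Fintype κ] (X : Matrix κ κ R) (φ : Tens R κ n) : Tens R κ n :=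
  fun i => ∑ p, ∑ k, X (i p) k * φ (Function.update i p k)

/-- the `n`-th tensor power of a (rectangular) matrix -/
def act [Fintype κ'] (g : Matrix κ κ' R) (φ : Tens R κ' n) : Tens R κ n :=
  fun i => ∑ j : Fin n → κ', (∏ p, g (i p) (j p)) * φ j

/-- `v` in position `p`, `ψ` in the others -/
def insVec (v : κ → R) (p : Fin (n + 1)) (ψ : Tens R κ n) : Tens R κ (n + 1) :=
  fun i => v (i p) * ψ (p.removeNth i)

/-- the 2-tensor `b` in the positions `p` and `p.succAbove q`, `ψ` in the others -/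
def insPair (b : Matrix κ κ R) (p : Fin (n + 2)) (q : Fin (n + 1)) (ψ : Tens R κ n) :
    Tens R κ (n + 2) :=
  fun i => b (i p) (p.removeNth i q) * ψ (q.removeNth (p.removeNth i))

/-- linear combinations of products of vectors of `N` and 2-tensors of `P`, in any positions -/
inductive Dec (N : Set (κ → R)) (P : Set (Matrix κ κ R)) : (n : ℕ) → Tens R κ n → Prop
  | one : Dec N P 0 (fun _ => 1)
  | vec {n : ℕ} {v : κ → R} (hv : v ∈ N) (p : Fin (n + 1)) {ψ : Tens R κ n} :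
      Dec N P n ψ → Dec N P (n + 1) (insVec v p ψ)
  | pair {n : ℕ} {b : Matrix κ κ R} (hb : b ∈ P) (p : Fin (n + 2)) (q : Fin (n + 1))
      {ψ : Tens R κ n} : Dec N P n ψ → Dec N P (n + 2) (insPair b p q ψ)
  | zero (n : ℕ) : Dec N P n 0
  | add {n : ℕ} {φ ψ : Tens R κ n} : Dec N P n φ → Dec N P n ψ → Dec N P n (φ + ψ)
  | smul {n : ℕ} (c : R) {ψ : Tens R κ n} : Dec N P n ψ → Dec N P n (c • ψ)

end

/-- the index set of `V = V₀ ⊕ V₁` -/
abbrev Idx (ι : Type) (g : ℕ) := ι ⊕ (Fin g ⊕ Fin g)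

/-- A continuous family, over a topological space `S`, of polarisable rational Hodge structures on
`V = V₀ ⊕ V₁`, `V₀ = ℚ^ι` with the flat symmetric form `B`, `V₁ = ℚ^{2g}` with the standard
symplectic form; the Hodge structure at `s` is the generator `J₀ s ⊕ J₁ s` of the circle
(it is `i(p-q)` on `V^{p,q}`). -/
structure HodgeFamily (S : Type) [TopologicalSpace S] (ι : Type) [Fintype ι] [DecidableEq ι]
    (g : ℕ) where
  B : Matrix ι ι ℚ
  symm : Bᵀ = B
  nonsing : B.det ≠ 0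
  J₀ : S → Matrix ι ι ℝ
  J₁ : S → Matrix (Fin g ⊕ Fin g) (Fin g ⊕ Fin g) ℝ
  cont : Continuous J₀
  inv₀ : ∀ s, (J₀ s)ᵀ * B.map (fun x : ℚ => (x : ℝ)) + B.map (fun x : ℚ => (x : ℝ)) * J₀ s = 0
  inv₁ : ∀ s, (J₁ s)ᵀ * Matrix.J (Fin g) ℝ + Matrix.J (Fin g) ℝ * J₁ s = 0
  wt : ℕ
  types : ∀ s, Polynomial.aeval (J₀ s) ((Polynomial.X : Polynomial ℝ) *
    ∏ k ∈ Finset.range wt, (Polynomial.X ^ 2 + Polynomial.C (((k : ℝ) + 1) ^ 2))) = 0

namespace HodgeFamily

variable {S ι : Type} [TopologicalSpace S] [Fintype ι] [DecidableEq ι] {g : ℕ}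
  (X : HodgeFamily S ι g)

/-- the rational Hodge classes in `V₀` at `s` -/
def N (s : S) : Submodule ℚ (ι → ℚ) where
  carrier := {v | X.J₀ s *ᵥ (fun i => (v i : ℝ)) = 0}
  zero_mem' := by
    have : (fun i : ι => ((0 : ι → ℚ) i : ℝ)) = 0 := by ext; simp
    show X.J₀ s *ᵥ (fun i => ((0 : ι → ℚ) i : ℝ)) = 0
    rw [this, Matrix.mulVec_zero]
  add_mem' := by
    intro a b ha hb
    have : (fun i : ι => ((a + b) i : ℝ)) = (fun i => (a i : ℝ)) + (fun i => (b i : ℝ)) := by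
      ext; simp
    simp only [Set.mem_setOf_eq] at *
    rw [this, Matrix.mulVec_add, ha, hb, add_zero]
  smul_mem' := by
    intro c a ha
    have : (fun i : ι => ((c • a) i : ℝ)) = (c : ℝ) • (fun i => (a i : ℝ)) := by
      ext; simp
    simp only [Set.mem_setOf_eq] at *
    rw [this, Matrix.mulVec_smul, ha, smul_zero]

/-- the form `B` is nondegenerate on `N` -/
def NonDeg (N : Submodule ℚ (ι → ℚ)) : Prop :=
  ∀ v ∈ N, (∀ w ∈ N, v ⬝ᵥ X.B *ᵥ w = 0) → v = 0

/-- Hodge tensors at `s` -/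
def IsHodge (s : S) {n : ℕ} (φ : Tens ℚ (Idx ι g) n) : Prop :=
  der (fromBlocks (X.J₀ s) 0 0 (X.J₁ s)) (fun i => (φ i : ℝ)) = 0

/-- combinations of products of classes in `N` and the two halves of the diagonal -/
def Decomposable (N : Submodule ℚ (ι → ℚ)) {n : ℕ} (φ : Tens ℚ (Idx ι g) n) : Prop :=
  Dec ((fun v : ι → ℚ => (Sum.elim v 0 : Idx ι g → ℚ)) '' (N : Set (ι → ℚ)))
    {fromBlocks (X.B⁻¹) 0 0 0, fromBlocks 0 0 0 (Matrix.J (Fin g) ℚ)} n φ

end HodgeFamily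

/-- MAIN THEOREM -/
def Stmt_Main : Prop :=
  ∀ (S ι : Type) [TopologicalSpace S] [ConnectedSpace S] [Fintype ι] [DecidableEq ι] (g : ℕ)
    (X : HodgeFamily S ι g) (n : ℕ) (φ : Tens ℚ (Idx ι g) n),
    (∀ s, X.IsHodge s φ) → ∀ o : S, X.NonDeg (X.N o) → X.Decomposable (X.N o) φ →
    ∀ N : Submodule ℚ (ι → ℚ), (⨅ s, X.N s) ≤ N → X.NonDeg N → X.Decomposable N φ

end Pool.Agent.Work.T3
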