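import Pool.Agent.Work.MP_298761_T3.Base

/-! T3: assembly, part A (matrix identities). -/

namespace Pool.Agent.Work.T3.FIN

open Matrix Pool.Agent.Work.T3

section
variable {K ι : Type} [Field K] [Fintype ι] [DecidableEq ι] {g : ℕ}

theorem vmv_mulVec (u v z : ι → K) : vecMulVec u v *ᵥ z = (v ⬝ᵥ z) • u := by
  funext i
  simp only [Matrix.mulVec, vecMulVec_apply, dotProduct, Pi.smul_apply, smul_eq_mul,
    Finset.sum_mul]
  refine Finset.sum_congr rfl fun j _ => by ring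

theorem wedge_mulVec (B : Matrix ι ι K) (x y z : ι → K) :
    wedge B x y *ᵥ z = ((B *ᵥ x) ⬝ᵥ z) • y - ((B *ᵥ y) ⬝ᵥ z) • x := by
  rw [wedge, Matrix.sub_mulVec, vmv_mulVec, vmv_mulVec]

theorem refl_mulVec (B : Matrix ι ι K) (x z : ι → K) :
    refl B x *ᵥ z = z - (2 / (x ⬝ᵥ B *ᵥ x) * ((B *ᵥ x) ⬝ᵥ z)) • x := by
  rw [refl, Matrix.sub_mulVec, Matrix.one_mulVec, Matrix.smul_mulVec, vmv_mulVec, smul_smul]

theorem dot_symm {B : Matrix ι ι K} (hB : Bᵀ = B) (x y : ι → K) :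
    x ⬝ᵥ B *ᵥ y = y ⬝ᵥ B *ᵥ x := by
  rw [Matrix.dotProduct_mulVec, ← Matrix.mulVec_transpose, hB, dotProduct_comm]

theorem dot_symm' {B : Matrix ι ι K} (hB : Bᵀ = B) (x y : ι → K) :
    (B *ᵥ x) ⬝ᵥ y = x ⬝ᵥ B *ᵥ y := by
  rw [dotProduct_comm, dot_symm hB]

theorem mulVec_ext {A C : Matrix ι ι K} (h : ∀ z, A *ᵥ z = C *ᵥ z) : A = C := by
  apply Matrix.toLin'.injective
  apply LinearMap.ext
  intro v
  simpa only [Matrix.toLin'_apply] using h v

theorem refl_sq {B : Matrix ι ι K} (hB : Bᵀ = B) {x : ι → K} (hx : x ⬝ᵥ B *ᵥ x ≠ 0) :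
    refl B x * refl B x = 1 := by
  apply mulVec_ext
  intro z
  rw [← Matrix.mulVec_mulVec, Matrix.one_mulVec, refl_mulVec, refl_mulVec, dotProduct_sub,
    dotProduct_smul, dot_symm' hB x x, smul_eq_mul]
  have : 2 / (x ⬝ᵥ B *ᵥ x) * (B *ᵥ x ⬝ᵥ z - 2 / (x ⬝ᵥ B *ᵥ x) * (B *ᵥ x ⬝ᵥ z) * (x ⬝ᵥ B *ᵥ x)) =
      -(2 / (x ⬝ᵥ B *ᵥ x) * (B *ᵥ x ⬝ᵥ z)) := by
    field_simp
    ring
  rw [this]
  module

/-- `wedge` is skew -/
theorem wedge_skew {B : Matrix ι ι K} (hB : Bᵀ = B) (x y : ι → K) :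
    (wedge B x y)ᵀ * B + B * wedge B x y = 0 := by
  have h1 : (wedge B x y)ᵀ * B = vecMulVec (B *ᵥ x) (B *ᵥ y) - vecMulVec (B *ᵥ y) (B *ᵥ x) := by
    rw [wedge, Matrix.transpose_sub, Matrix.transpose_vecMulVec, Matrix.transpose_vecMulVec,
      Matrix.sub_mul, Matrix.vecMulVec_mul, Matrix.vecMulVec_mul, ← Matrix.mulVec_transpose,
      ← Matrix.mulVec_transpose, hB]
  have h2 : B * wedge B x y = vecMulVec (B *ᵥ y) (B *ᵥ x) - vecMulVec (B *ᵥ x) (B *ᵥ y) := by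
    rw [wedge, Matrix.mul_sub, Matrix.mul_vecMulVec, Matrix.mul_vecMulVec]
  rw [h1, h2]
  abel

/-- the dual version: `wedge` preserves `B⁻¹` -/
theorem wedge_skew' {B Bi : Matrix ι ι K} (hB : Bᵀ = B) (hi : B * Bi = 1) (hi' : Bi * B = 1)
    (x y : ι → K) : wedge B x y * Bi + Bi * (wedge B x y)ᵀ = 0 := by
  have h := wedge_skew hB x y
  have h1 : Bi * ((wedge B x y)ᵀ * B + B * wedge B x y) * Bi =
      Bi * (wedge B x y)ᵀ * (B * Bi) + (Bi * B) * wedge B x y * Bi := by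
    simp only [Matrix.mul_add, Matrix.add_mul, Matrix.mul_assoc]
  rw [h, hi, hi', Matrix.mul_zero, Matrix.zero_mul, Matrix.mul_one, Matrix.one_mul] at h1
  rw [add_comm]
  exact h1.symm

theorem refl_orth {B : Matrix ι ι K} (hB : Bᵀ = B) {x : ι → K} (hx : x ⬝ᵥ B *ᵥ x ≠ 0) :
    (refl B x)ᵀ * B * refl B x = B := by
  have h1 : (refl B x)ᵀ * B = B * refl B x := by
    rw [refl, Matrix.transpose_sub, Matrix.transpose_one, Matrix.transpose_smul,
      Matrix.transpose_vecMulVec, Matrix.sub_mul, Matrix.one_mul, Matrix.mul_sub, Matrix.mul_one,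
      Matrix.smul_mul, Matrix.mul_smul, Matrix.vecMulVec_mul, ← Matrix.mulVec_transpose, hB,
      Matrix.mul_vecMulVec]
  rw [h1, Matrix.mul_assoc, refl_sq hB hx, Matrix.mul_one]

theorem refl_orth' {B Bi : Matrix ι ι K} (hB : Bᵀ = B) (hi : B * Bi = 1) (hi' : Bi * B = 1)
    {x : ι → K} (hx : x ⬝ᵥ B *ᵥ x ≠ 0) :
    refl B x * Bi * (refl B x)ᵀ = Bi := by
  have h1 : (refl B x)ᵀ * B = B * refl B x := by
    rw [refl, Matrix.transpose_sub, Matrix.transpose_one, Matrix.transpose_smul,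
      Matrix.transpose_vecMulVec, Matrix.sub_mul, Matrix.one_mul, Matrix.mul_sub, Matrix.mul_one,
      Matrix.smul_mul, Matrix.mul_smul, Matrix.vecMulVec_mul, ← Matrix.mulVec_transpose, hB,
      Matrix.mul_vecMulVec]
  have h2 : Bi * (refl B x)ᵀ = refl B x * Bi := by
    calc Bi * (refl B x)ᵀ = Bi * ((refl B x)ᵀ * B) * Bi := by
          rw [Matrix.mul_assoc, Matrix.mul_assoc, hi, Matrix.mul_one]
      _ = (Bi * B) * refl B x * Bi := by rw [h1]; simp only [Matrix.mul_assoc]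
      _ = refl B x * Bi := by rw [hi', Matrix.one_mul]
  rw [Matrix.mul_assoc, h2, ← Matrix.mul_assoc, refl_sq hB hx, Matrix.one_mul]

/-- block algebra -/
theorem ext0_mul (X Y : Matrix ι ι K) : ext0 g X * ext0 g Y = ext0 g (X * Y) := by
  simp [ext0, fromBlocks_multiply]

theorem ext1_mul_ext0 (X Y : Matrix ι ι K) : ext1 g X * ext0 g Y = ext0 g (X * Y) := by
  simp [ext0, ext1, fromBlocks_multiply]

theorem ext0_mul_ext1 (X Y : Matrix ι ι K) : ext0 g X * ext1 g Y = ext0 g (X * Y) := by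
  simp [ext0, ext1, fromBlocks_multiply]

theorem ext0_add (X Y : Matrix ι ι K) : ext0 g (X + Y) = ext0 g X + ext0 g Y := by
  simp [ext0, fromBlocks_add]

theorem ext0_smul (c : K) (X : Matrix ι ι K) : ext0 g (c • X) = c • ext0 g X := by
  simp [ext0, fromBlocks_smul]

theorem ext0_sub (X Y : Matrix ι ι K) : ext0 g (X - Y) = ext0 g X - ext0 g Y := by
  simp [ext0, sub_eq_add_neg, fromBlocks_add, fromBlocks_neg]

theorem ext0_zero : ext0 g (0 : Matrix ι ι K) = 0 := by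
  simp [ext0]

theorem wedge_add_right (B : Matrix ι ι K) (x y z : ι → K) :
    wedge B x (y + z) = wedge B x y + wedge B x z := by
  ext i j
  simp only [wedge, Matrix.sub_apply, Matrix.add_apply, vecMulVec_apply, Pi.add_apply,
    Matrix.mulVec_add]
  ring

theorem wedge_smul_right (B : Matrix ι ι K) (c : K) (x y : ι → K) :
    wedge B x (c • y) = c • wedge B x y := by
  ext i j
  simp only [wedge, Matrix.sub_apply, Matrix.smul_apply, vecMulVec_apply, Pi.smul_apply,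
    Matrix.mulVec_smul, smul_eq_mul]
  ring

theorem wedge_add_left (B : Matrix ι ι K) (x y z : ι → K) :
    wedge B (x + y) z = wedge B x z + wedge B y z := by
  ext i j
  simp only [wedge, Matrix.sub_apply, Matrix.add_apply, vecMulVec_apply, Pi.add_apply,
    Matrix.mulVec_add]
  ring

theorem wedge_smul_left (B : Matrix ι ι K) (c : K) (x y : ι → K) :
    wedge B (c • x) y = c • wedge B x y := by
  ext i j
  simp only [wedge, Matrix.sub_apply, Matrix.smul_apply, vecMulVec_apply, Pi.smul_apply,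
    Matrix.mulVec_smul, smul_eq_mul]
  ring

theorem wedge_zero_right (B : Matrix ι ι K) (x : ι → K) : wedge B x 0 = 0 := by
  simpa using wedge_smul_right B 0 x 0

theorem wedge_zero_left (B : Matrix ι ι K) (x : ι → K) : wedge B 0 x = 0 := by
  simpa using wedge_smul_left B 0 0 x

end

end Pool.Agent.Work.T3.FIN
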