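import Pool.Agent.Work.MP_298761_T3.FinA

/-! T3: assembly, part B (the complex data attached to a family at a base point). -/

namespace Pool.Agent.Work.T3.FIN

open Matrix Pool.Agent.Work.T3

variable {S ι : Type} [TopologicalSpace S] [Fintype ι] [DecidableEq ι] {g n : ℕ}

/-! ### casts -/

theorem mC_apply {κ κ' : Type} (B : Matrix κ κ' ℚ) (i : κ) (j : κ') :
    mC B i j = (B i j : ℂ) := rfl

theorem mC_mulVec {κ κ' : Type} [Fintype κ'] (B : Matrix κ κ' ℚ) (v : κ' → ℚ) :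
    mC B *ᵥ vC v = vC (B *ᵥ v) := by
  funext i
  simp [Matrix.mulVec, dotProduct, mC, vC]

theorem vC_dot {κ : Type} [Fintype κ] (v w : κ → ℚ) : vC v ⬝ᵥ vC w = ((v ⬝ᵥ w : ℚ) : ℂ) := by
  simp [dotProduct, vC]

theorem mC_mul {κ κ' κ'' : Type} [Fintype κ'] (B : Matrix κ κ' ℚ) (C : Matrix κ' κ'' ℚ) :
    mC (B * C) = mC B * mC C := by
  ext i j
  simp [mC, Matrix.mul_apply]

theorem mC_one {κ : Type} [DecidableEq κ] : mC (1 : Matrix κ κ ℚ) = 1 := by
  ext i j
  by_cases h : i = j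
  · subst h; simp [mC]
  · simp [mC, h]

theorem mC_transpose {κ κ' : Type} (B : Matrix κ κ' ℚ) : mC Bᵀ = (mC B)ᵀ := rfl

theorem mC_symm {B : Matrix ι ι ℚ} (h : Bᵀ = B) : (mC B)ᵀ = mC B := by
  rw [← mC_transpose, h]

theorem mC_inv {B : Matrix ι ι ℚ} (h : B.det ≠ 0) : mC B * mC (B⁻¹) = 1 := by
  rw [← mC_mul, Matrix.mul_nonsing_inv _ (isUnit_iff_ne_zero.mpr h), mC_one]

theorem mC_inv' {B : Matrix ι ι ℚ} (h : B.det ≠ 0) : mC (B⁻¹) * mC B = 1 := by
  rw [← mC_mul, Matrix.nonsing_inv_mul _ (isUnit_iff_ne_zero.mpr h), mC_one]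

/-- the complexified Hodge operator on `V₀` -/
def jC (X : HodgeFamily S ι g) (s : S) : Matrix ι ι ℂ := (X.J₀ s).map (fun x : ℝ => (x : ℂ))

theorem jC_vC (X : HodgeFamily S ι g) (s : S) (v : ι → ℚ) :
    jC X s *ᵥ vC v = fun i => (((X.J₀ s *ᵥ (fun i => (v i : ℝ))) i : ℝ) : ℂ) := by
  funext i
  simp [Matrix.mulVec, dotProduct, jC, vC]

theorem mem_N_iff (X : HodgeFamily S ι g) (s : S) (v : ι → ℚ) :
    v ∈ X.N s ↔ jC X s *ᵥ vC v = 0 := by
  rw [jC_vC]
  constructor
  · intro h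
    have h' : X.J₀ s *ᵥ (fun i => (v i : ℝ)) = 0 := h
    rw [h']
    funext i
    simp
  · intro h
    show X.J₀ s *ᵥ (fun i => (v i : ℝ)) = 0
    funext i
    have := congrFun h i
    simpa using this

theorem jC_skew (X : HodgeFamily S ι g) (s : S) :
    (jC X s)ᵀ * mC X.B + mC X.B * jC X s = 0 := by
  have h := X.inv₀ s
  ext i j
  have h' := congrFun (congrFun h i) j
  simp only [Matrix.add_apply, Matrix.mul_apply, Matrix.transpose_apply, Matrix.map_apply,
    Matrix.zero_apply] at h'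
  have h2 := congrArg (fun x : ℝ => (x : ℂ)) h'
  simp only [Complex.ofReal_add, Complex.ofReal_sum, Complex.ofReal_mul, Complex.ofReal_zero,
    Complex.ofReal_ratCast] at h2
  simp only [Matrix.add_apply, Matrix.mul_apply, Matrix.transpose_apply, jC, mC, Matrix.map_apply,
    Matrix.zero_apply]
  exact h2

/-- the orthogonal of a rational subspace, over `ℂ` -/
def perp (B : Matrix ι ι ℚ) (N : Submodule ℚ (ι → ℚ)) : Submodule ℂ (ι → ℂ) where
  carrier := {x | ∀ w ∈ N, vC w ⬝ᵥ mC B *ᵥ x = 0}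
  zero_mem' := by intro w _; simp
  add_mem' := by
    intro a b ha hb w hw
    rw [Matrix.mulVec_add, dotProduct_add, ha w hw, hb w hw, add_zero]
  smul_mem' := by
    intro c a ha w hw
    rw [Matrix.mulVec_smul, dotProduct_smul, ha w hw, smul_zero]

theorem mem_perp {B : Matrix ι ι ℚ} {N : Submodule ℚ (ι → ℚ)} {x : ι → ℂ} :
    x ∈ perp B N ↔ ∀ w ∈ N, vC w ⬝ᵥ mC B *ᵥ x = 0 := Iff.rfl

/-- the Lie algebra `𝔥` -/
def lieH (B : Matrix ι ι ℂ) (φ : Tens ℂ (Idx ι g) n) : Submodule ℂ (Matrix ι ι ℂ) where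
  carrier := {X | Xᵀ * B + B * X = 0 ∧ der (ext0 g X) φ = 0}
  zero_mem' := by
    constructor
    · simp
    · rw [ext0_zero, der_zero_left]
  add_mem' := by
    rintro a b ⟨ha, ha'⟩ ⟨hb, hb'⟩
    constructor
    · rw [Matrix.transpose_add, Matrix.add_mul, Matrix.mul_add]
      have : aᵀ * B + bᵀ * B + (B * a + B * b) = (aᵀ * B + B * a) + (bᵀ * B + B * b) := by abel
      rw [this, ha, hb, add_zero]
    · rw [ext0_add, der_add_left, ha', hb', add_zero]
  smul_mem' := by
    rintro c a ⟨ha, ha'⟩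
    constructor
    · rw [Matrix.transpose_smul, Matrix.smul_mul, Matrix.mul_smul, ← smul_add, ha, smul_zero]
    · rw [ext0_smul, der_smul_left, ha', smul_zero]

theorem mem_lieH {B : Matrix ι ι ℂ} {φ : Tens ℂ (Idx ι g) n} {X : Matrix ι ι ℂ} :
    X ∈ lieH B φ ↔ Xᵀ * B + B * X = 0 ∧ der (ext0 g X) φ = 0 := Iff.rfl

/-- consequences of decomposability at `o` -/
theorem sp_inv (hINV : Stmt_INV) (B : Matrix ι ι ℚ) (N : Submodule ℚ (ι → ℚ))
    (φ : Tens ℚ (Idx ι g) n)
    (hd : Dec ((fun v : ι → ℚ => (Sum.elim v 0 : Idx ι g → ℚ)) '' (N : Set (ι → ℚ)))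
      {fromBlocks (B⁻¹) 0 0 0, fromBlocks 0 0 0 (Matrix.J (Fin g) ℚ)} n φ)
    (X : Matrix (Fin g ⊕ Fin g) (Fin g ⊕ Fin g) ℂ)
    (hX : Xᵀ * Matrix.J (Fin g) ℂ + Matrix.J (Fin g) ℂ * X = 0) :
    der (fromBlocks 0 0 0 X) (tC φ) = 0 := by
  refine (hINV ℚ ℂ (Idx ι g) (algebraMap ℚ ℂ) _ _ n φ hd).2 (fromBlocks 0 0 0 X) ?_ ?_
  · rintro _ ⟨v, _, rfl⟩
    funext i
    rcases i with i | i
    · simp [Matrix.mulVec, dotProduct]
    · simp [Matrix.mulVec, dotProduct]
  · intro b hb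
    rcases hb with rfl | hb
    · rw [Matrix.fromBlocks_map, Matrix.fromBlocks_transpose, fromBlocks_multiply,
        fromBlocks_multiply, fromBlocks_add]
      simp
    · rw [Set.mem_singleton_iff] at hb
      subst hb
      rw [Matrix.fromBlocks_map, Matrix.fromBlocks_transpose, fromBlocks_multiply,
        fromBlocks_multiply, fromBlocks_add]
      have hJ : (Matrix.J (Fin g) ℚ).map (algebraMap ℚ ℂ) = Matrix.J (Fin g) ℂ := by
        ext i j
        rcases i with i | i <;> rcases j with j | j <;>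
          simp [Matrix.J, Matrix.one_apply, apply_ite]
      have h2 : X * Matrix.J (Fin g) ℂ + Matrix.J (Fin g) ℂ * Xᵀ = 0 := by
        have h3 := congrArg (fun Y => Matrix.J (Fin g) ℂ * Y * Matrix.J (Fin g) ℂ) hX
        simp only [Matrix.mul_add, Matrix.add_mul, Matrix.mul_zero, Matrix.zero_mul] at h3
        have e1 : Matrix.J (Fin g) ℂ * (Xᵀ * Matrix.J (Fin g) ℂ) * Matrix.J (Fin g) ℂ =
            -(Matrix.J (Fin g) ℂ * Xᵀ) := by
          rw [Matrix.mul_assoc, Matrix.mul_assoc, Matrix.J_squared, Matrix.mul_neg,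
            Matrix.mul_one, Matrix.mul_neg]
        have e2 : Matrix.J (Fin g) ℂ * (Matrix.J (Fin g) ℂ * X) * Matrix.J (Fin g) ℂ =
            -(X * Matrix.J (Fin g) ℂ) := by
          rw [← Matrix.mul_assoc, Matrix.J_squared, Matrix.neg_mul, Matrix.one_mul,
            Matrix.neg_mul]
        rw [e1, e2, ← neg_add, neg_eq_zero] at h3
        rw [add_comm]
        exact h3
      simp only [Matrix.map_zero, map_zero, Matrix.zero_mul, Matrix.mul_zero, add_zero,
        zero_add, Matrix.transpose_zero, hJ]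
      rw [h2, fromBlocks_zero]

theorem tC_eq (φ : Tens ℚ (Idx ι g) n) : (fun i => algebraMap ℚ ℂ (φ i)) = tC φ := rfl

theorem wedge_inv (hINV : Stmt_INV) (B : Matrix ι ι ℚ) (hB : Bᵀ = B) (hdet : B.det ≠ 0)
    (N : Submodule ℚ (ι → ℚ)) (φ : Tens ℚ (Idx ι g) n)
    (hd : Dec ((fun v : ι → ℚ => (Sum.elim v 0 : Idx ι g → ℚ)) '' (N : Set (ι → ℚ)))
      {fromBlocks (B⁻¹) 0 0 0, fromBlocks 0 0 0 (Matrix.J (Fin g) ℚ)} n φ)
    (x y : ι → ℂ) (hx : x ∈ perp B N) (hy : y ∈ perp B N) :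
    der (ext0 g (wedge (mC B) x y)) (tC φ) = 0 := by
  refine (hINV ℚ ℂ (Idx ι g) (algebraMap ℚ ℂ) _ _ n φ hd).2 _ ?_ ?_
  · rintro _ ⟨v, hv, rfl⟩
    have hv0 : wedge (mC B) x y *ᵥ vC v = 0 := by
      rw [wedge_mulVec, dot_symm' (mC_symm hB), dot_symm' (mC_symm hB),
        dot_symm (mC_symm hB) x, dot_symm (mC_symm hB) y, hx v hv, hy v hv, zero_smul, zero_smul,
        sub_zero]
    funext i
    rcases i with i | i
    · have := congrFun hv0 i
      simp only [Matrix.mulVec, dotProduct, ext0, Fintype.sum_sum_type, fromBlocks_apply₁₁,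
        fromBlocks_apply₁₂, Sum.elim_inl, Sum.elim_inr, Pi.zero_apply, map_zero, mul_zero,
        Matrix.zero_apply, Finset.sum_const_zero, add_zero]
      simpa [Matrix.mulVec, dotProduct, vC] using this
    · simp [Matrix.mulVec, dotProduct, ext0]
  · intro b hb
    rcases hb with rfl | hb
    · rw [ext0, Matrix.fromBlocks_map, Matrix.fromBlocks_transpose, fromBlocks_multiply,
        fromBlocks_multiply, fromBlocks_add]
      have h := wedge_skew' (mC_symm hB) (mC_inv hdet) (mC_inv' hdet) x y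
      have e : (B⁻¹).map (algebraMap ℚ ℂ) = mC (B⁻¹) := rfl
      simp only [Matrix.map_zero, map_zero, Matrix.zero_mul, Matrix.mul_zero, add_zero,
        zero_add, Matrix.transpose_zero, e]
      rw [h, fromBlocks_zero]
    · rw [Set.mem_singleton_iff] at hb
      subst hb
      rw [ext0, Matrix.fromBlocks_map, Matrix.fromBlocks_transpose, fromBlocks_multiply,
        fromBlocks_multiply, fromBlocks_add]
      simp

theorem refl_inv (hINV : Stmt_INV) (B : Matrix ι ι ℚ) (hB : Bᵀ = B) (hdet : B.det ≠ 0)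
    (N : Submodule ℚ (ι → ℚ)) (φ : Tens ℚ (Idx ι g) n)
    (hd : Dec ((fun v : ι → ℚ => (Sum.elim v 0 : Idx ι g → ℚ)) '' (N : Set (ι → ℚ)))
      {fromBlocks (B⁻¹) 0 0 0, fromBlocks 0 0 0 (Matrix.J (Fin g) ℚ)} n φ)
    (x : ι → ℂ) (hx : x ∈ perp B N) (hq : x ⬝ᵥ mC B *ᵥ x ≠ 0) :
    act (ext1 g (refl (mC B) x)) (tC φ) = tC φ := by
  refine (hINV ℚ ℂ (Idx ι g) (algebraMap ℚ ℂ) _ _ n φ hd).1 _ ?_ ?_
  · rintro _ ⟨v, hv, rfl⟩
    have hv0 : refl (mC B) x *ᵥ vC v = vC v := by
      rw [refl_mulVec, dot_symm' (mC_symm hB), dot_symm (mC_symm hB) x (vC v), hx v hv, mul_zero,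
        zero_smul, sub_zero]
    funext i
    rcases i with i | i
    · have := congrFun hv0 i
      simp only [Matrix.mulVec, dotProduct, ext1, Fintype.sum_sum_type, fromBlocks_apply₁₁,
        fromBlocks_apply₁₂, Sum.elim_inl, Sum.elim_inr, Pi.zero_apply, map_zero, mul_zero,
        Matrix.zero_apply, Finset.sum_const_zero, add_zero]
      simpa [Matrix.mulVec, dotProduct, vC] using this
    · simp [Matrix.mulVec, dotProduct, ext1]
  · intro b hb
    rcases hb with rfl | hb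
    · rw [ext1, Matrix.fromBlocks_map, Matrix.fromBlocks_transpose, fromBlocks_multiply,
        fromBlocks_multiply]
      have h := refl_orth' (mC_symm hB) (mC_inv hdet) (mC_inv' hdet) hq
      have e : (B⁻¹).map (algebraMap ℚ ℂ) = mC (B⁻¹) := rfl
      simp only [Matrix.map_zero, map_zero, Matrix.zero_mul, Matrix.mul_zero, add_zero,
        zero_add, Matrix.transpose_zero, e]
      rw [h]
    · rw [Set.mem_singleton_iff] at hb
      subst hb
      rw [ext1, Matrix.fromBlocks_map, Matrix.fromBlocks_transpose, fromBlocks_multiply,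
        fromBlocks_multiply]
      simp

/-- the Hodge condition on the `V₀` side -/
theorem hodge_inv (hINV : Stmt_INV) (X : HodgeFamily S ι g) (N : Submodule ℚ (ι → ℚ))
    (φ : Tens ℚ (Idx ι g) n) (hd : X.Decomposable N φ) (s : S) (hs : X.IsHodge s φ) :
    der (ext0 g (jC X s)) (tC φ) = 0 := by
  have h1 : der (fromBlocks (jC X s) 0 0 ((X.J₁ s).map (fun x : ℝ => (x : ℂ)))) (tC φ) = 0 := by
    funext i
    have h := congrFun hs i
    simp only [der, Pi.zero_apply] at h ⊢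
    have h2 := congrArg (fun x : ℝ => (x : ℂ)) h
    simp only [Complex.ofReal_sum, Complex.ofReal_mul, Complex.ofReal_zero,
      Complex.ofReal_ratCast] at h2
    rw [← h2]
    refine Finset.sum_congr rfl fun p _ => Finset.sum_congr rfl fun k _ => ?_
    congr 1
    rcases i p with a | a <;> rcases k with b | b <;> simp [jC]
  have h2 : der (fromBlocks 0 0 0 ((X.J₁ s).map (fun x : ℝ => (x : ℂ)))) (tC φ) = 0 := by
    refine sp_inv hINV X.B N φ hd _ ?_
    have h := X.inv₁ s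
    ext i j
    have h' := congrFun (congrFun h i) j
    simp only [Matrix.add_apply, Matrix.mul_apply, Matrix.transpose_apply,
      Matrix.zero_apply] at h'
    have h2 := congrArg (fun x : ℝ => (x : ℂ)) h'
    simp only [Complex.ofReal_add, Complex.ofReal_sum, Complex.ofReal_mul,
      Complex.ofReal_zero] at h2
    have hJ : ∀ a b, ((Matrix.J (Fin g) ℝ a b : ℝ) : ℂ) = Matrix.J (Fin g) ℂ a b := by
      intro a b
      rcases a with a | a <;> rcases b with b | b <;>
        simp [Matrix.J, Matrix.one_apply, apply_ite]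
    simp only [hJ] at h2
    simp only [Matrix.add_apply, Matrix.mul_apply, Matrix.transpose_apply, Matrix.map_apply,
      Matrix.zero_apply]
    exact h2
  have h3 : fromBlocks (jC X s) 0 0 ((X.J₁ s).map (fun x : ℝ => (x : ℂ))) =
      ext0 g (jC X s) + fromBlocks 0 0 0 ((X.J₁ s).map (fun x : ℝ => (x : ℂ))) := by
    rw [ext0, fromBlocks_add]
    simp
  rw [h3, der_add_left, h2, add_zero] at h1
  exact h1

end Pool.Agent.Work.T3.FIN
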