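import Pool.Agent.Work.MP_298761_T3.FinB

/-! T3: assembly, part C. -/

namespace Pool.Agent.Work.T3.FIN

open Matrix Pool.Agent.Work.T3

variable {S ι : Type} [TopologicalSpace S] [Fintype ι] [DecidableEq ι] {g n : ℕ}

theorem Dec_mono {R κ : Type} [CommRing R] {N N' : Set (κ → R)} {P : Set (Matrix κ κ R)}
    (h : N ⊆ N') {n : ℕ} {φ : Tens R κ n} (hd : Dec N P n φ) : Dec N' P n φ := by
  induction hd with
  | one => exact Dec.one
  | vec hv p _ ih => exact Dec.vec (h hv) p ih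
  | pair hb p q _ ih => exact Dec.pair hb p q ih
  | zero n => exact Dec.zero n
  | add _ _ ih1 ih2 => exact Dec.add ih1 ih2
  | smul c _ ih => exact Dec.smul c ih

theorem lieH_bracket (hBRK : Stmt_BRK) (B : Matrix ι ι ℂ) (φ : Tens ℂ (Idx ι g) n)
    (X : Matrix ι ι ℂ) (hX : X ∈ lieH B φ) (Y : Matrix ι ι ℂ) (hY : Y ∈ lieH B φ) :
    X * Y - Y * X ∈ lieH B φ := by
  obtain ⟨h1, h2⟩ := hX
  obtain ⟨h3, h4⟩ := hY
  refine ⟨?_, ?_⟩
  · have e1 : Xᵀ * B = -(B * X) := eq_neg_of_add_eq_zero_left h1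
    have e2 : Yᵀ * B = -(B * Y) := eq_neg_of_add_eq_zero_left h3
    rw [Matrix.transpose_sub, Matrix.transpose_mul, Matrix.transpose_mul, Matrix.sub_mul,
      Matrix.mul_assoc, Matrix.mul_assoc, e1, e2, Matrix.mul_neg, Matrix.mul_neg,
      ← Matrix.mul_assoc, ← Matrix.mul_assoc, e1, e2, Matrix.mul_sub, Matrix.neg_mul,
      Matrix.neg_mul, Matrix.mul_assoc, Matrix.mul_assoc]
    abel
  · rw [ext0_sub, ← ext0_mul, ← ext0_mul, hBRK, h2, h4, der_zero_right, der_zero_right, sub_zero]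

theorem lieH_conj (hINT : Stmt_INT) (B : Matrix ι ι ℂ) (hB : Bᵀ = B) (φ : Tens ℂ (Idx ι g) n)
    (x : ι → ℂ) (hq : x ⬝ᵥ B *ᵥ x ≠ 0) (hx : act (ext1 g (refl B x)) φ = φ)
    (X : Matrix ι ι ℂ) (hX : X ∈ lieH B φ) : refl B x * X * refl B x ∈ lieH B φ := by
  obtain ⟨h1, h2⟩ := hX
  have hr : (refl B x)ᵀ * B = B * refl B x := by
    have h := refl_orth hB hq
    calc (refl B x)ᵀ * B = (refl B x)ᵀ * B * (refl B x * refl B x) := by
          rw [refl_sq hB hq, Matrix.mul_one]
      _ = ((refl B x)ᵀ * B * refl B x) * refl B x := by simp only [Matrix.mul_assoc]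
      _ = B * refl B x := by rw [h]
  refine ⟨?_, ?_⟩
  · have e1 : Xᵀ * B = -(B * X) := eq_neg_of_add_eq_zero_left h1
    have : (refl B x * X * refl B x)ᵀ * B = -(B * (refl B x * X * refl B x)) := by
      rw [Matrix.transpose_mul, Matrix.transpose_mul]
      calc (refl B x)ᵀ * (Xᵀ * (refl B x)ᵀ) * B = (refl B x)ᵀ * Xᵀ * ((refl B x)ᵀ * B) := by
            simp only [Matrix.mul_assoc]
        _ = (refl B x)ᵀ * (Xᵀ * B) * refl B x := by rw [hr]; simp only [Matrix.mul_assoc]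
        _ = -(((refl B x)ᵀ * B) * X * refl B x) := by
            rw [e1]; simp only [Matrix.mul_neg, Matrix.neg_mul, Matrix.mul_assoc]
        _ = -(B * (refl B x * X * refl B x)) := by rw [hr]; simp only [Matrix.mul_assoc]
    rw [this, neg_add_cancel]
  · have h3 := hINT ℂ (Idx ι g) (Idx ι g) n (ext1 g (refl B x))
      (ext0 g (refl B x * X * refl B x)) (ext0 g X) (by
        rw [ext0_mul_ext1, ext1_mul_ext0, Matrix.mul_assoc, Matrix.mul_assoc,
          refl_sq hB hq, Matrix.mul_one]) φ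
    rw [h2, hx] at h3
    rw [← h3]
    funext i
    simp [act]

/-- The bilinear form as a Mathlib form -/
theorem perp_perp (B : Matrix ι ι ℂ) (hB : Bᵀ = B) (hdet : B.det ≠ 0)
    (U : Submodule ℂ (ι → ℂ)) (x : ι → ℂ)
    (hx : ∀ w, (∀ u ∈ U, w ⬝ᵥ B *ᵥ u = 0) → w ⬝ᵥ B *ᵥ x = 0) : x ∈ U := by
  have hnd : (Matrix.toBilin' B).Nondegenerate :=
    Matrix.nondegenerate_toBilin'_iff.mpr (Matrix.nondegenerate_of_det_ne_zero hdet)
  have hsym : (Matrix.toBilin' B).IsRefl := by
    apply LinearMap.BilinForm.IsSymm.isRefl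
    refine ⟨fun x y => ?_⟩
    simp only [Matrix.toBilin'_apply', RingHom.id_apply]
    exact dot_symm hB x y
  have h := LinearMap.BilinForm.orthogonal_orthogonal hnd hsym U
  rw [← h]
  rw [LinearMap.BilinForm.mem_orthogonal_iff]
  intro w hw
  rw [LinearMap.BilinForm.mem_orthogonal_iff] at hw
  show (Matrix.toBilin' B) w x = 0
  rw [Matrix.toBilin'_apply']
  apply hx
  intro u hu
  have := hw u hu
  change (Matrix.toBilin' B) u w = 0 at this
  rw [Matrix.toBilin'_apply'] at this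
  rw [dot_symm hB]
  exact this

/-- The submodule `U` -/
def subU (B : Matrix ι ι ℂ) (H : Submodule ℂ (Matrix ι ι ℂ)) (T : Submodule ℂ (ι → ℂ)) :
    Submodule ℂ (ι → ℂ) where
  carrier := {w | ∀ x ∈ T, wedge B x w ∈ H}
  zero_mem' := by intro x _; rw [wedge_zero_right]; exact H.zero_mem
  add_mem' := by
    intro a b ha hb x hx
    rw [wedge_add_right]; exact H.add_mem (ha x hx) (hb x hx)
  smul_mem' := by
    intro c a ha x hx
    rw [wedge_smul_right]; exact H.smul_mem _ (ha x hx)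

theorem mem_subU {B : Matrix ι ι ℂ} {H : Submodule ℂ (Matrix ι ι ℂ)} {T : Submodule ℂ (ι → ℂ)}
    {w : ι → ℂ} : w ∈ subU B H T ↔ ∀ x ∈ T, wedge B x w ∈ H := Iff.rfl

/-- the orthogonal of a complex subspace -/
def perpC (B : Matrix ι ι ℂ) (U : Submodule ℂ (ι → ℂ)) : Submodule ℂ (ι → ℂ) where
  carrier := {w | ∀ u ∈ U, w ⬝ᵥ B *ᵥ u = 0}
  zero_mem' := by intro u _; rw [zero_dotProduct]
  add_mem' := by
    intro a b ha hb u hu
    rw [add_dotProduct, ha u hu, hb u hu, add_zero]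
  smul_mem' := by
    intro c a ha u hu
    rw [smul_dotProduct, ha u hu, smul_zero]

theorem mem_perpC {B : Matrix ι ι ℂ} {U : Submodule ℂ (ι → ℂ)} {w : ι → ℂ} :
    w ∈ perpC B U ↔ ∀ u ∈ U, w ⬝ᵥ B *ᵥ u = 0 := Iff.rfl

/-- `perp B N` is spanned by its rational vectors -/
theorem perp_span (hRAT : Stmt_RAT) (B : Matrix ι ι ℚ) (hB : Bᵀ = B)
    (N : Submodule ℚ (ι → ℚ)) (x : ι → ℂ) (hx : x ∈ perp B N) :
    x ∈ Submodule.span ℂ (vC '' {w : ι → ℚ | ∀ v ∈ N, v ⬝ᵥ B *ᵥ w = 0}) := by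
  have h := hRAT ι ((fun v => B *ᵥ v) '' (N : Set (ι → ℚ))) x (by
    rintro _ ⟨v, hv, rfl⟩
    have := hx v hv
    rw [← this]
    show vC (B *ᵥ v) ⬝ᵥ x = _
    rw [← mC_mulVec, dot_symm' (mC_symm hB)])
  refine Submodule.span_mono (Set.image_mono ?_) h
  intro w hw v hv
  have := hw (B *ᵥ v) ⟨v, hv, rfl⟩
  rw [dot_symm' hB] at this
  exact this

/-- the rational structure of `U` -/
theorem subU_rat (B : Matrix ι ι ℚ) (hB : Bᵀ = B) (φ : Tens ℚ (Idx ι g) n)
    (hRAT : Stmt_RAT) (N : Submodule ℚ (ι → ℚ)) (u : ι → ℂ)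
    (hu : u ∈ subU (mC B) (lieH (mC B) (tC φ)) (perp B N)) :
    u ∈ Submodule.span ℂ (vC '' {w : ι → ℚ | vC w ∈
      subU (mC B) (lieH (mC B) (tC φ)) (perp B N)}) := by
  classical
  -- the rational linear forms
  set A : Set (ι → ℚ) := {a | ∃ x : ι → ℚ, (∀ v ∈ N, v ⬝ᵥ B *ᵥ x = 0) ∧ ∃ i : Fin n → Idx ι g,
    a = fun k => der (ext0 g (wedge B x (Pi.single k 1))) φ i} with hA
  have key : ∀ (x : ι → ℚ) (i : Fin n → Idx ι g) (w : ι → ℂ),
      vC (fun k => der (ext0 g (wedge B x (Pi.single k 1))) φ i) ⬝ᵥ w =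
        der (ext0 g (wedge (mC B) (vC x) w)) (tC φ) i := by
    intro x i w
    have hw : w = ∑ k, w k • vC (Pi.single k (1 : ℚ)) := by
      funext j
      simp only [Finset.sum_apply, Pi.smul_apply, smul_eq_mul, vC, Pi.single_apply]
      rw [Finset.sum_eq_single j]
      · simp
      · intro b _ hb; simp [hb.symm]
      · intro h; exact absurd (Finset.mem_univ _) h
    have hlin : ∀ (s : Finset ι), der (ext0 g (wedge (mC B) (vC x)
        (∑ k ∈ s, w k • vC (Pi.single k (1 : ℚ))))) (tC φ) i =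
        ∑ k ∈ s, w k * der (ext0 g (wedge (mC B) (vC x) (vC (Pi.single k (1 : ℚ))))) (tC φ) i := by
      intro s
      induction s using Finset.induction_on with
      | empty =>
        simp only [Finset.sum_empty]
        rw [wedge_zero_right, ext0_zero, der_zero_left]; rfl
      | insert a s ha ih =>
        rw [Finset.sum_insert ha, Finset.sum_insert ha, wedge_add_right, ext0_add,
          der_add_left, Pi.add_apply, ih, wedge_smul_right, ext0_smul, der_smul_left]
        rfl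
    have hrat : ∀ k, der (ext0 g (wedge (mC B) (vC x) (vC (Pi.single k (1 : ℚ))))) (tC φ) i =
        ((der (ext0 g (wedge B x (Pi.single k 1))) φ i : ℚ) : ℂ) := by
      intro k
      simp only [der]
      push_cast
      refine Finset.sum_congr rfl fun p _ => Finset.sum_congr rfl fun l _ => ?_
      congr 1
      rcases i p with a | a <;> rcases l with b | b
      · simp only [ext0, fromBlocks_apply₁₁, wedge, Matrix.sub_apply, vecMulVec_apply, mC_mulVec]
        simp [vC]
      · simp [ext0]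
      · simp [ext0]
      · simp [ext0]
    conv_rhs => rw [hw]
    rw [hlin]
    simp only [dotProduct]
    refine Finset.sum_congr rfl fun k _ => ?_
    rw [hrat, mul_comm]
    rfl
  have memU : ∀ w : ι → ℂ, w ∈ subU (mC B) (lieH (mC B) (tC φ)) (perp B N) ↔
      ∀ a ∈ A, vC a ⬝ᵥ w = 0 := by
    intro w
    constructor
    · rintro hw a ⟨x, hx, i, rfl⟩
      rw [key]
      have hxT : vC x ∈ perp B N := by
        intro v hv
        rw [mC_mulVec, vC_dot, hx v hv]; simp
      have := (hw (vC x) hxT).2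
      rw [this]; rfl
    · intro hw x hx
      refine ⟨wedge_skew (mC_symm hB) _ _, ?_⟩
      have hxs := perp_span hRAT B hB N x hx
      refine Submodule.span_induction (p := fun y _ => der (ext0 g (wedge (mC B) y w)) (tC φ) = 0)
        ?_ ?_ ?_ ?_ hxs
      · rintro _ ⟨y, hy, rfl⟩
        funext i
        rw [← key]
        exact hw _ ⟨y, hy, i, rfl⟩
      · rw [wedge_zero_left, ext0_zero, der_zero_left]
      · intro y z _ _ hy hz
        rw [wedge_add_left, ext0_add, der_add_left, hy, hz, add_zero]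
      · intro c y _ hy
        rw [wedge_smul_left, ext0_smul, der_smul_left, hy, smul_zero]
  have h := hRAT ι A u ((memU u).mp hu)
  refine Submodule.span_mono (Set.image_mono ?_) h
  intro w hw
  rw [Set.mem_setOf_eq, memU]
  intro a ha
  have := hw a ha
  rw [vC_dot, this]; simp

end Pool.Agent.Work.T3.FIN
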