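import Pool.Agent.Work.MP_298761_T3.Defs

/-! T3 (MP_298761_ag): interface (statements of the blocks). -/

namespace Pool.Agent.Work.T3

open Matrix

section
variable {K ι : Type} [Field K] [Fintype ι] [DecidableEq ι] {g : ℕ}

/-- `x ∧ y` : `z ↦ b(x,z) y - b(y,z) x` -/
def wedge (B : Matrix ι ι K) (x y : ι → K) : Matrix ι ι K :=
  vecMulVec y (B *ᵥ x) - vecMulVec x (B *ᵥ y)

/-- the reflection in `x` -/
def refl (B : Matrix ι ι K) (x : ι → K) : Matrix ι ι K :=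
  1 - (2 / (x ⬝ᵥ B *ᵥ x)) • vecMulVec x (B *ᵥ x)

/-- extension of an endomorphism of `V₀` by `0` on `V₁` -/
def ext0 (g : ℕ) (X : Matrix ι ι K) : Matrix (Idx ι g) (Idx ι g) K := fromBlocks X 0 0 0

/-- extension of an endomorphism of `V₀` by `1` on `V₁` -/
def ext1 (g : ℕ) (X : Matrix ι ι K) : Matrix (Idx ι g) (Idx ι g) K := fromBlocks X 0 0 1

end

/-- complexification of a rational vector, tensor, matrix -/
def vC {ι : Type} (v : ι → ℚ) : ι → ℂ := fun i => (v i : ℂ)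
def tC {κ : Type} {n : ℕ} (φ : Tens ℚ κ n) : Tens ℂ κ n := fun i => (φ i : ℂ)
def mC {κ κ' : Type} (B : Matrix κ κ' ℚ) : Matrix κ κ' ℂ := B.map (fun x : ℚ => (x : ℂ))

/-- MUL -/
def Stmt_MUL : Prop :=
  ∀ (R κ κ' κ'' : Type) [CommRing R] [Fintype κ] [Fintype κ'] [Fintype κ''] [DecidableEq κ]
    (n : ℕ), (∀ φ : Tens R κ n, act (1 : Matrix κ κ R) φ = φ) ∧
    (∀ (g : Matrix κ κ' R) (h : Matrix κ' κ'' R) (φ : Tens R κ'' n),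
      act (g * h) φ = act g (act h φ))

/-- INT -/
def Stmt_INT : Prop :=
  ∀ (R κ κ' : Type) [CommRing R] [Fintype κ] [Fintype κ'] (n : ℕ) (g : Matrix κ κ' R)
    (X : Matrix κ κ R) (X' : Matrix κ' κ' R), X * g = g * X' → ∀ ψ : Tens R κ' n,
    act g (der X' ψ) = der X (act g ψ)

/-- BRK -/
def Stmt_BRK : Prop :=
  ∀ (R κ : Type) [CommRing R] [Fintype κ] (n : ℕ) (X Y : Matrix κ κ R) (ψ : Tens R κ n),
    der (X * Y - Y * X) ψ = der X (der Y ψ) - der Y (der X ψ)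

/-- INS -/
def Stmt_INS : Prop :=
  ∀ (R κ κ' : Type) [CommRing R] [Fintype κ] [Fintype κ'] (n : ℕ),
    (∀ (g : Matrix κ κ' R) (v : κ' → R) (p : Fin (n + 1)) (ψ : Tens R κ' n),
      act g (insVec v p ψ) = insVec (g *ᵥ v) p (act g ψ)) ∧
    (∀ (g : Matrix κ κ' R) (b : Matrix κ' κ' R) (p : Fin (n + 2)) (q : Fin (n + 1))
      (ψ : Tens R κ' n), act g (insPair b p q ψ) = insPair (g * b * gᵀ) p q (act g ψ)) ∧
    (∀ (X : Matrix κ κ R) (v : κ → R) (p : Fin (n + 1)) (ψ : Tens R κ n),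
      der X (insVec v p ψ) = insVec (X *ᵥ v) p ψ + insVec v p (der X ψ)) ∧
    (∀ (X : Matrix κ κ R) (b : Matrix κ κ R) (p : Fin (n + 2)) (q : Fin (n + 1))
      (ψ : Tens R κ n),
      der X (insPair b p q ψ) = insPair (X * b + b * Xᵀ) p q ψ + insPair b p q (der X ψ))

/-- INV -/
def Stmt_INV : Prop :=
  ∀ (R R' κ : Type) [CommRing R] [CommRing R'] [Fintype κ] (f : R →+* R')
    (N : Set (κ → R)) (P : Set (Matrix κ κ R)) (n : ℕ) (φ : Tens R κ n), Dec N P n φ →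
    (∀ g : Matrix κ κ R', (∀ v ∈ N, g *ᵥ (fun i => f (v i)) = (fun i => f (v i))) →
      (∀ b ∈ P, g * b.map f * gᵀ = b.map f) →
      act g (fun i => f (φ i)) = (fun i => f (φ i))) ∧
    (∀ X : Matrix κ κ R', (∀ v ∈ N, X *ᵥ (fun i => f (v i)) = 0) →
      (∀ b ∈ P, X * b.map f + b.map f * Xᵀ = 0) → der X (fun i => f (φ i)) = 0)

/-- LIE -/
def Stmt_LIE : Prop :=
  ∀ (ι : Type) [Fintype ι] [DecidableEq ι] (B : Matrix ι ι ℂ)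
    (H : Submodule ℂ (Matrix ι ι ℂ)) (T : Submodule ℂ (ι → ℂ)), Bᵀ = B →
    (∀ X ∈ H, ∀ Y ∈ H, X * Y - Y * X ∈ H) → (∀ X ∈ H, Xᵀ * B + B * X = 0) →
    (∀ x ∈ T, ∀ y ∈ T, wedge B x y ∈ H) →
    (∀ x ∈ T, x ⬝ᵥ B *ᵥ x ≠ 0 → ∀ X ∈ H, refl B x * X * refl B x ∈ H) →
    (∃ x ∈ T, x ⬝ᵥ B *ᵥ x ≠ 0) →
    (∀ X ∈ H, ∀ x ∈ T, ∀ y ∈ T, wedge B x (X *ᵥ y) ∈ H) ∧
    (∀ w w' : ι → ℂ, (∀ x ∈ T, wedge B x w ∈ H) → (∀ x ∈ T, wedge B x w' ∈ H) →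
      wedge B w w' ∈ H) ∧
    (∀ X ∈ H, ∀ w : ι → ℂ, (∀ x ∈ T, wedge B x w ∈ H) → ∀ x ∈ T, wedge B x (X *ᵥ w) ∈ H)

/-- RAT -/
def Stmt_RAT : Prop :=
  ∀ (ι : Type) [Fintype ι] (A : Set (ι → ℚ)) (v : ι → ℂ), (∀ a ∈ A, vC a ⬝ᵥ v = 0) →
    v ∈ Submodule.span ℂ (vC '' {w : ι → ℚ | ∀ a ∈ A, a ⬝ᵥ w = 0})

/-- RIG -/
def Stmt_RIG : Prop :=
  ∀ (S ι : Type) [TopologicalSpace S] [ConnectedSpace S] [Fintype ι] [DecidableEq ι]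
    (J : S → Matrix ι ι ℝ) (m : ℕ), Continuous J →
    (∀ s, Polynomial.aeval (J s) ((Polynomial.X : Polynomial ℝ) *
      ∏ k ∈ Finset.range m, (Polynomial.X ^ 2 + Polynomial.C (((k : ℝ) + 1) ^ 2))) = 0) →
    ∀ (o : S) (W : Submodule ℂ (ι → ℂ)),
    (∀ s, ∀ w ∈ W, (J s).map (fun x : ℝ => (x : ℂ)) *ᵥ w ∈ W) →
    (∀ w ∈ W, (J o).map (fun x : ℝ => (x : ℂ)) *ᵥ w = 0) →
    ∀ s, ∀ w ∈ W, (J s).map (fun x : ℝ => (x : ℂ)) *ᵥ w = 0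

/-- REF -/
def Stmt_REF : Prop :=
  ∀ (ι : Type) [Fintype ι] [DecidableEq ι] (g n : ℕ) (B : Matrix ι ι ℂ), Bᵀ = B →
    ∀ (φ : Tens ℂ (Idx ι g) n) (x y : ι → ℂ), x ⬝ᵥ B *ᵥ x ≠ 0 → y ⬝ᵥ B *ᵥ y ≠ 0 →
    der (ext0 g (wedge B x y)) φ = 0 → act (ext1 g (refl B x)) φ = φ →
    act (ext1 g (refl B y)) φ = φ

/-- POS -/
def Stmt_POS : Prop :=
  ∀ (κ : Type) [Fintype κ] [DecidableEq κ] (n : ℕ) (φ : Tens ℝ κ n) (D : Finset κ)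
    (θ : κ → κ) (s : κ → ℝ) (ε : ℝ), (∀ a ∈ D, θ a ∈ D) → (∀ a, θ (θ a) = a) →
    (∀ a, s a * s a = 1) → (∀ a ∈ D, s (θ a) * s a = ε) →
    (∀ a ∈ D, ∀ b ∈ D, der (Matrix.single a b (1 : ℝ)) φ =
      (s a * s b) • der (Matrix.single (θ b) (θ a) (1 : ℝ)) φ) →
    (∀ p q : Fin n, p ≠ q → ∀ i : Fin n → κ,
      ∑ a ∈ D, s a * φ (Function.update (Function.update i p a) q (θ a)) = 0) →
    ∑ a ∈ D, ∑ b ∈ D, ∑ i : Fin n → κ, (der (Matrix.single a b (1 : ℝ)) φ i) ^ 2 =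
      ε * ∑ i : Fin n → κ, ((Finset.univ.filter (fun p => i p ∈ D)).card : ℝ) * (φ i) ^ 2

/-- the slice of a tensor at index `k` in position `p` -/
def sl {R κ : Type} {n : ℕ} (p : Fin (n + 1)) (k : κ) (φ : Tens R κ (n + 1)) : Tens R κ n :=
  fun j => φ (p.insertNth k j)

/-- contraction with a matrix in the positions `p`, `p.succAbove q` -/
def ctr {R κ : Type} [CommRing R] [Fintype κ] {n : ℕ} (b : Matrix κ κ R) (p : Fin (n + 2))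
    (q : Fin (n + 1)) (φ : Tens R κ (n + 2)) : Tens R κ n :=
  fun j => ∑ k, ∑ l, b k l * φ (p.insertNth k (q.insertNth l j))

/-- CTR -/
def Stmt_CTR : Prop :=
  ∀ (R κ : Type) [CommRing R] [Fintype κ] [DecidableEq κ] (n : ℕ),
    (∀ (X : Matrix κ κ R) (p : Fin (n + 1)) (k : κ) (φ : Tens R κ (n + 1)),
      sl p k (der X φ) = der X (sl p k φ) + ∑ l, X k l • sl p l φ) ∧
    (∀ (d : κ → R) (p : Fin (n + 1)) (k : κ) (φ : Tens R κ (n + 1)),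
      sl p k (act (Matrix.diagonal d) φ) = d k • act (Matrix.diagonal d) (sl p k φ)) ∧
    (∀ (X b : Matrix κ κ R) (p : Fin (n + 2)) (q : Fin (n + 1)) (φ : Tens R κ (n + 2)),
      Xᵀ * b + b * X = 0 → ctr b p q (der X φ) = der X (ctr b p q φ)) ∧
    (∀ (d : κ → R) (b : Matrix κ κ R) (p : Fin (n + 2)) (q : Fin (n + 1))
      (φ : Tens R κ (n + 2)), (∀ k l, d k * b k l * d l = b k l) →
      ctr b p q (act (Matrix.diagonal d) φ) = act (Matrix.diagonal d) (ctr b p q φ)) ∧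
    (∀ (p : Fin (n + 1)) (k : κ) (φ : Tens R κ (n + 1)) (ψ : Tens R κ n),
      ∑ j, sl p k φ j * ψ j = ∑ i, φ i * insVec (Pi.single k 1) p ψ i) ∧
    (∀ (b : Matrix κ κ R) (p : Fin (n + 2)) (q : Fin (n + 1)) (φ : Tens R κ (n + 2))
      (ψ : Tens R κ n), ∑ j, ctr b p q φ j * ψ j = ∑ i, φ i * insPair b p q ψ i)

/-- the vectors and 2-tensors of the normal form -/
def NF (A F : Type) [DecidableEq A] [DecidableEq F] (R : Type) [CommRing R] (g : ℕ) :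
    Set (Idx (A ⊕ F) g → R) :=
  Set.range (fun f : F => (Pi.single (Sum.inl (Sum.inr f)) 1 : Idx (A ⊕ F) g → R))

def NP (A F : Type) [DecidableEq A] [DecidableEq F] (R : Type) [CommRing R] (g : ℕ) :
    Set (Matrix (Idx (A ⊕ F) g) (Idx (A ⊕ F) g) R) :=
  {fromBlocks (fromBlocks 1 0 0 0) 0 0 0, fromBlocks 0 0 0 (Matrix.J (Fin g) R)}

/-- invariance under `O(A) × Sp(2g)` of a tensor over `A ⊔ F ⊔ 2g` -/
def Inv {A F : Type} [Fintype A] [Fintype F] [DecidableEq A] [DecidableEq F] {g n : ℕ}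
    (φ : Tens ℝ (Idx (A ⊕ F) g) n) : Prop :=
  (∀ a b : A, der (Matrix.single (Sum.inl (Sum.inl a)) (Sum.inl (Sum.inl b)) (1 : ℝ) -
      Matrix.single (Sum.inl (Sum.inl b)) (Sum.inl (Sum.inl a)) (1 : ℝ)) φ = 0) ∧
  (∀ X : Matrix (Fin g ⊕ Fin g) (Fin g ⊕ Fin g) ℝ,
      Xᵀ * Matrix.J (Fin g) ℝ + Matrix.J (Fin g) ℝ * X = 0 →
      der (fromBlocks 0 0 0 X) φ = 0) ∧
  (Nonempty A → ∃ a : A, act (Matrix.diagonal
      (fun k : Idx (A ⊕ F) g => if k = Sum.inl (Sum.inl a) then (-1 : ℝ) else 1)) φ = φ)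

/-- FF1: the traceless invariants vanish -/
def Stmt_FF1 : Prop :=
  ∀ (A F : Type) [Fintype A] [Fintype F] [DecidableEq A] [DecidableEq F] (g n : ℕ)
    (φ : Tens ℝ (Idx (A ⊕ F) g) n), Inv φ → 0 < n →
    (∀ i : Fin n → Idx (A ⊕ F) g, (∃ p f, i p = Sum.inl (Sum.inr f)) → φ i = 0) →
    (∀ p q : Fin n, p ≠ q → ∀ i : Fin n → Idx (A ⊕ F) g,
      ∑ a : A, φ (Function.update (Function.update i p (Sum.inl (Sum.inl a))) q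
        (Sum.inl (Sum.inl a))) = 0) →
    (∀ p q : Fin n, p ≠ q → ∀ i : Fin n → Idx (A ⊕ F) g,
      ∑ c : Fin g, (φ (Function.update (Function.update i p (Sum.inr (Sum.inl c))) q
          (Sum.inr (Sum.inr c))) -
        φ (Function.update (Function.update i p (Sum.inr (Sum.inr c))) q
          (Sum.inr (Sum.inl c)))) = 0) →
    φ = 0

/-- FF2: invariants orthogonal to all decomposable tensors vanish -/
def Stmt_FF2 : Prop :=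
  ∀ (A F : Type) [Fintype A] [Fintype F] [DecidableEq A] [DecidableEq F] (g n : ℕ)
    (φ : Tens ℝ (Idx (A ⊕ F) g) n), Inv φ →
    (∀ ψ : Tens ℝ (Idx (A ⊕ F) g) n, Dec (NF A F ℝ g) (NP A F ℝ g) n ψ → ∑ i, φ i * ψ i = 0) →
    φ = 0

/-- FFT: the first fundamental theorem over `ℝ` -/
def Stmt_FFT : Prop :=
  ∀ (A F : Type) [Fintype A] [Fintype F] [DecidableEq A] [DecidableEq F] (g n : ℕ)
    (φ : Tens ℝ (Idx (A ⊕ F) g) n), Inv φ → Dec (NF A F ℝ g) (NP A F ℝ g) n φ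

/-- BAS -/
def Stmt_BAS : Prop :=
  ∀ (ι : Type) [Fintype ι] [DecidableEq ι] (B : Matrix ι ι ℚ), Bᵀ = B → B.det ≠ 0 →
    ∀ N : Submodule ℚ (ι → ℚ), (∀ v ∈ N, (∀ w ∈ N, v ⬝ᵥ B *ᵥ w = 0) → v = 0) →
    ∃ (m r : ℕ) (P : Matrix ι (Fin m ⊕ Fin r) ℂ) (Q : Matrix (Fin m ⊕ Fin r) ι ℂ)
      (G : Matrix (Fin r) (Fin r) ℂ) (v : Fin r → ι → ℚ),
      P * Q = 1 ∧ Q * P = 1 ∧ (∀ f, v f ∈ N) ∧ (∀ f i, P i (Sum.inr f) = (v f i : ℂ)) ∧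
      (∀ a, ∀ w ∈ N, vC w ⬝ᵥ mC B *ᵥ (fun i => P i (Sum.inl a)) = 0) ∧
      (∀ a b, (fun i => P i (Sum.inl a)) ⬝ᵥ mC B *ᵥ (fun i => P i (Sum.inl b)) =
        if a = b then 1 else 0) ∧
      P * (fromBlocks 1 0 0 G : Matrix (Fin m ⊕ Fin r) (Fin m ⊕ Fin r) ℂ) * Pᵀ = mC (B⁻¹)

/-- TRA: the first fundamental theorem in the coordinates of `V` -/
def Stmt_TRA : Prop :=
  ∀ (ι : Type) [Fintype ι] [DecidableEq ι] (g n : ℕ) (B : Matrix ι ι ℚ), Bᵀ = B → B.det ≠ 0 →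
    ∀ N : Submodule ℚ (ι → ℚ), (∀ v ∈ N, (∀ w ∈ N, v ⬝ᵥ B *ᵥ w = 0) → v = 0) →
    ∀ φ : Tens ℂ (Idx ι g) n,
    (∀ x y : ι → ℂ, (∀ w ∈ N, vC w ⬝ᵥ mC B *ᵥ x = 0) → (∀ w ∈ N, vC w ⬝ᵥ mC B *ᵥ y = 0) →
      der (ext0 g (wedge (mC B) x y)) φ = 0) →
    (∀ x : ι → ℂ, (∀ w ∈ N, vC w ⬝ᵥ mC B *ᵥ x = 0) → x ⬝ᵥ mC B *ᵥ x ≠ 0 →
      act (ext1 g (refl (mC B) x)) φ = φ) →
    (∀ X : Matrix (Fin g ⊕ Fin g) (Fin g ⊕ Fin g) ℂ,
      Xᵀ * Matrix.J (Fin g) ℂ + Matrix.J (Fin g) ℂ * X = 0 →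
      der (fromBlocks 0 0 0 X) φ = 0) →
    Dec (vC '' ((fun v : ι → ℚ => (Sum.elim v 0 : Idx ι g → ℚ)) '' (N : Set (ι → ℚ))))
      (mC '' {fromBlocks (B⁻¹) 0 0 0, fromBlocks 0 0 0 (Matrix.J (Fin g) ℚ)}) n φ

/-- DSC -/
def Stmt_DSC : Prop :=
  ∀ (κ : Type) [Fintype κ] [DecidableEq κ] (N : Set (κ → ℚ)) (P : Set (Matrix κ κ ℚ)) (n : ℕ)
    (φ : Tens ℚ κ n), Dec (vC '' N) (mC '' P) n (tC φ) → Dec N P n φ

end Pool.Agent.Work.T3
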