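import Pool.Agent.Work.MP_298761_T3.All

/-!
Decomposable Hodge classes stay decomposable.

`X` is a continuous family, over a connected space `S`, of rational Hodge structures on
`V = V₀ ⊕ V₁` (for instance `V = H^*(X_s)` for a smooth projective family, even and odd degrees)
which preserve a symmetric form on `V₀` and a symplectic form on `V₁`; `X.N s ⊆ V₀` are the
rational Hodge classes at `s`, and `φ` is a rational tensor in `V^{⊗ n}` which is a Hodge tensor at
every `s`.  If at one point `o` it is decomposable, that is, a linear combination of products, in
any positions, of Hodge classes of `V₀` and of the two halves of the diagonal, then the same is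
true for every nondegenerate `N` that contains the flat Hodge classes.
-/

namespace Pool.Agent.Work.MP_298761_T3.ResultDecomposable

open Pool.Agent.Work.T3

theorem result (S ι : Type) [TopologicalSpace S] [ConnectedSpace S] [Fintype ι] [DecidableEq ι]
    (g : ℕ) (X : HodgeFamily S ι g) (n : ℕ) (φ : Tens ℚ (Idx ι g) n)
    (hφ : ∀ s, X.IsHodge s φ) (o : S) (ho : X.NonDeg (X.N o))
    (hd : X.Decomposable (X.N o) φ) (N : Submodule ℚ (ι → ℚ)) (hN : (⨅ s, X.N s) ≤ N)
    (hNd : X.NonDeg N) : X.Decomposable N φ :=
  main S ι g X n φ hφ o ho hd N hN hNd

end Pool.Agent.Work.MP_298761_T3.ResultDecomposable
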